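import Pool.Agent.SSQ.StG

set_option autoImplicit false

open NumberField Polynomial

namespace SSQ

namespace SSQCOF

theorem countable_poly : Countable ℚ[X] := by
  have : Function.Injective (fun p : ℚ[X] => p.toFinsupp.coeff) := by
    intro p q h
    exact Polynomial.toFinsupp_injective (AddMonoidAlgebra.coeff_injective h)
  exact this.countable

theorem charZero (P : ℚ[X]) : CharZero P.SplittingField :=
  charZero_of_injective_algebraMap (algebraMap ℚ P.SplittingField).injective

theorem numberField (P : ℚ[X]) : NumberField P.SplittingField := by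
  have := charZero P
  constructor

theorem galois_aux {K L : Type} [Field K] [CharZero K] [Field L] [Algebra K L] (P : K[X])
    [IsSplittingField K L P] : IsGalois K L := by
  have h1 : Normal K L := Normal.of_isSplittingField P
  exact ⟨⟩

theorem galois (P : ℚ[X]) :
    @IsGalois ℚ _ P.SplittingField _ (@DivisionRing.toRatAlgebra _ _ (charZero P)) := by
  have h := @galois_aux ℚ P.SplittingField _ _ _ _ P (IsSplittingField.splittingField P)
  convert h

end SSQCOF

theorem COF_thm : Stmt_COF := by
  have := SSQCOF.countable_poly
  obtain ⟨P, hP⟩ := exists_surjective_nat ℚ[X]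
  refine ⟨fun k => (P k).SplittingField, fun k => inferInstance, fun k => SSQCOF.numberField (P k),
    fun k => SSQCOF.galois (P k), fun M _ _ => ?_⟩
  obtain ⟨α, hα⟩ := Field.exists_primitive_element ℚ M
  obtain ⟨k, hk⟩ := hP (minpoly ℚ α)
  refine ⟨k, ?_⟩
  have h : Nonempty (M →ₐ[ℚ] (P k).SplittingField) := by
    refine IntermediateField.nonempty_algHom_of_adjoin_splits (S := {α}) (fun s hs => ?_) hα
    rw [Set.mem_singleton_iff.1 hs]
    refine ⟨Algebra.IsIntegral.isIntegral α, ?_⟩
    rw [← hk]
    exact SplittingField.splits (P k)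
  obtain ⟨f⟩ := h
  exact ⟨f.toRingHom⟩

end SSQ
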