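import Pool.Agent.SSQ.StK

/-!
# SSQ, module BCX: base change, three good characters of large degree
-/

open NumberField IsDedekindDomain
open scoped TensorProduct Classical

namespace StarkC

namespace SSQBCX

section coc

variable {F N' : Type} [Field F] [Field N'] [Algebra F N'] {q : ℕ} {ζ κ : N'}

lemma pow_eq_iff [NeZero q] (hζ : IsPrimitiveRoot ζ q) (m n : ℕ) :
    ζ ^ m = ζ ^ n ↔ (m : ZMod q) = (n : ZMod q) := by
  have hq := NeZero.pos q
  have hmod : ∀ k : ℕ, ζ ^ (k % q) = ζ ^ k := fun k => by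
    conv_rhs => rw [← Nat.mod_add_div k q, pow_add, pow_mul, hζ.pow_eq_one, one_pow, mul_one]
  rw [ZMod.natCast_eq_natCast_iff]
  constructor
  · intro h
    rw [← hmod m, ← hmod n] at h
    exact hζ.pow_inj (Nat.mod_lt _ hq) (Nat.mod_lt _ hq) h
  · intro h
    rw [← hmod m, ← hmod n, h]

lemma kappa_ne (hκ : κ ^ q = 2) (hq : 0 < q) (h2 : (2 : N') ≠ 0) : κ ≠ 0 := by
  rintro rfl
  rw [zero_pow hq.ne'] at hκ
  exact h2 hκ.symm

lemma exists_a [NeZero q] (hζ : IsPrimitiveRoot ζ q) (hκ : κ ^ q = 2) (h2 : (2 : N') ≠ 0)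
    (h : N' ≃ₐ[F] N') : ∃ s : ZMod q, h κ = ζ ^ s.val * κ := by
  have hκ0 := kappa_ne hκ (NeZero.pos q) h2
  have h1 : (h κ / κ) ^ q = 1 := by
    rw [div_pow, ← map_pow, hκ, map_ofNat, div_self h2]
  obtain ⟨i, hi, hi'⟩ := hζ.eq_pow_of_pow_eq_one h1
  refine ⟨(i : ZMod q), ?_⟩
  rw [ZMod.val_cast_of_lt hi, hi', div_mul_cancel₀ _ hκ0]

/-- the exponent at `κ` -/
noncomputable def aa [NeZero q] (hζ : IsPrimitiveRoot ζ q) (hκ : κ ^ q = 2) (h2 : (2 : N') ≠ 0)
    (h : N' ≃ₐ[F] N') : ZMod q := (exists_a hζ hκ h2 h).choose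

lemma aa_spec [NeZero q] (hζ : IsPrimitiveRoot ζ q) (hκ : κ ^ q = 2) (h2 : (2 : N') ≠ 0)
    (h : N' ≃ₐ[F] N') : h κ = ζ ^ (aa hζ hκ h2 h).val * κ := (exists_a hζ hκ h2 h).choose_spec

lemma aa_eq [NeZero q] (hζ : IsPrimitiveRoot ζ q) (hκ : κ ^ q = 2) (h2 : (2 : N') ≠ 0)
    (h : N' ≃ₐ[F] N') (n : ℕ) (hn : h κ = ζ ^ n * κ) : aa hζ hκ h2 h = n := by
  have h1 := aa_spec hζ hκ h2 h
  rw [hn] at h1
  have h3 := mul_right_cancel₀ (kappa_ne hκ (NeZero.pos q) h2) h1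
  rw [pow_eq_iff hζ] at h3
  rw [h3, ZMod.natCast_zmod_val]

lemma bb_spec [NeZero q] (hζ : IsPrimitiveRoot ζ q) (h : N' ≃ₐ[F] N') :
    h ζ = ζ ^ ((hζ.autToPow F h : (ZMod q)ˣ) : ZMod q).val := (hζ.autToPow_spec F h).symm

lemma bb_eq [NeZero q] (hζ : IsPrimitiveRoot ζ q) (h : N' ≃ₐ[F] N') (n : ℕ) (hn : h ζ = ζ ^ n) :
    ((hζ.autToPow F h : (ZMod q)ˣ) : ZMod q) = n := by
  have h1 := bb_spec hζ h
  rw [hn, pow_eq_iff hζ] at h1
  rw [h1, ZMod.natCast_zmod_val]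

lemma aa_mul [NeZero q] (hζ : IsPrimitiveRoot ζ q) (hκ : κ ^ q = 2) (h2 : (2 : N') ≠ 0)
    (g h : N' ≃ₐ[F] N') : aa hζ hκ h2 (g * h) =
      aa hζ hκ h2 g + ((hζ.autToPow F g : (ZMod q)ˣ) : ZMod q) * aa hζ hκ h2 h := by
  rw [aa_eq hζ hκ h2 (g * h) ((aa hζ hκ h2 g).val +
    ((hζ.autToPow F g : (ZMod q)ˣ) : ZMod q).val * (aa hζ hκ h2 h).val)]
  · push_cast
    rw [ZMod.natCast_zmod_val, ZMod.natCast_zmod_val, ZMod.natCast_zmod_val]
  · rw [AlgEquiv.mul_apply, aa_spec hζ hκ h2 h, map_mul, map_pow, aa_spec hζ hκ h2 g, bb_spec hζ g,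
      ← pow_mul, ← mul_assoc, ← pow_add, add_comm]

lemma aa_zero_iff [NeZero q] (hζ : IsPrimitiveRoot ζ q) (hκ : κ ^ q = 2) (h2 : (2 : N') ≠ 0)
    (h : N' ≃ₐ[F] N') : aa hζ hκ h2 h = 0 ↔ h κ = κ := by
  constructor
  · intro h0
    have := aa_spec hζ hκ h2 h
    rw [h0, ZMod.val_zero, pow_zero, one_mul] at this
    exact this
  · intro h0
    have := aa_eq hζ hκ h2 h 0 (by rw [pow_zero, one_mul, h0])
    rw [this, Nat.cast_zero]

lemma bb_one_iff [NeZero q] (hζ : IsPrimitiveRoot ζ q) (h : N' ≃ₐ[F] N') :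
    hζ.autToPow F h = 1 ↔ h ζ = ζ := by
  constructor
  · intro h0
    have h1 := bb_spec hζ h
    have h3 := bb_eq hζ h 1
    rw [h0] at h1
    have : ζ ^ (((1 : (ZMod q)ˣ) : ZMod q)).val = ζ ^ 1 := by
      rw [pow_eq_iff hζ, ZMod.natCast_zmod_val]
      simp
    rw [h1, this, pow_one]
  · intro h0
    apply Units.ext
    rw [bb_eq hζ h 1 (by rw [pow_one, h0])]
    simp

end coc

section lift

variable {F N N' : Type} [Field F] [NumberField F] [Field N] [NumberField N] [Field N']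
  [NumberField N'] [Algebra F N] [Algebra N N'] [Algebra F N'] [IsScalarTower F N N']
  [IsGalois F N] [IsGalois F N']

/-- the restriction to `N` of the automorphisms over a fixed field -/
noncomputable def rs (A : Subgroup (N' ≃ₐ[F] N')) :
    (N' ≃ₐ[IntermediateField.fixedField A] N') →* (N ≃ₐ[F] N) :=
  ((AlgEquiv.restrictNormalHom N : (N' ≃ₐ[F] N') →* (N ≃ₐ[F] N)).comp A.subtype).comp
    (IntermediateField.subgroupEquivAlgEquiv A).symm.toMonoidHom

theorem rs_commutes (A : Subgroup (N' ≃ₐ[F] N'))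
    (h : N' ≃ₐ[IntermediateField.fixedField A] N') (z : N) :
    h (algebraMap N N' z) = algebraMap N N' ((rs A h : N ≃ₐ[F] N) z) := by
  have h1 := AlgEquiv.restrictNormal_commutes
    (((IntermediateField.subgroupEquivAlgEquiv A).symm h : A) : N' ≃ₐ[F] N') N z
  rw [GOOD.symm_apply] at h1
  exact h1.symm

theorem rs_surj (A : Subgroup (N' ≃ₐ[F] N'))
    (hs : ∀ g : N ≃ₐ[F] N, ∃ h : A, (AlgEquiv.restrictNormalHom N (h : N' ≃ₐ[F] N') :
      N ≃ₐ[F] N) = g) (g : N ≃ₐ[F] N) :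
    ∃ h : N' ≃ₐ[IntermediateField.fixedField A] N', (rs A h : N ≃ₐ[F] N) = g := by
  obtain ⟨h, hh⟩ := hs g
  refine ⟨IntermediateField.subgroupEquivAlgEquiv A h, ?_⟩
  show (AlgEquiv.restrictNormalHom N (((IntermediateField.subgroupEquivAlgEquiv A).symm
    (IntermediateField.subgroupEquivAlgEquiv A h) : A) : N' ≃ₐ[F] N') : N ≃ₐ[F] N) = g
  rw [MulEquiv.symm_apply_apply, hh]

theorem good_of (T : Finset ℕ) (A : Subgroup (N' ≃ₐ[F] N')) (ψ : (N ≃ₐ[F] N) →* ℂˣ)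
    (hg : GoodChar T ψ)
    (hs : ∀ g : N ≃ₐ[F] N, ∃ h : A, (AlgEquiv.restrictNormalHom N (h : N' ≃ₐ[F] N') :
      N ≃ₐ[F] N) = g) :
    GoodChar T (liftChar A
      ((ψ.comp (AlgEquiv.restrictNormalHom N : (N' ≃ₐ[F] N') →* (N ≃ₐ[F] N))).comp
        A.subtype)) := by
  obtain ⟨h1, h2, h3, x, θ, θ', hθ, hθ', hx, hk, hd⟩ := hg
  set Ψ := liftChar A
      ((ψ.comp (AlgEquiv.restrictNormalHom N : (N' ≃ₐ[F] N') →* (N ≃ₐ[F] N))).comp
        A.subtype) with hΨ
  have hval : ∀ h : N' ≃ₐ[IntermediateField.fixedField A] N', Ψ h = ψ (rs A h) := fun h => rfl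
  have hord : orderOf Ψ = orderOf ψ := by
    apply orderOf_eq_orderOf_iff.2
    intro n
    constructor
    · intro h
      refine MonoidHom.ext fun g => ?_
      obtain ⟨g', hg'⟩ := rs_surj A hs g
      have := DFunLike.congr_fun h g'
      rw [MonoidHom.pow_apply, hval, hg'] at this
      rw [MonoidHom.pow_apply, this]
      rfl
    · intro h
      refine MonoidHom.ext fun g => ?_
      rw [MonoidHom.pow_apply, hval, ← MonoidHom.pow_apply, h]
      rfl
  refine ⟨?_, ?_, ?_, ?_⟩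
  · exact isTotallyComplex_of_algebra F _
  · intro w g hw
    rw [hval]
    apply h2 (w.under (𝓞 N))
    have hw' : FrobPow N' w 1 (((IntermediateField.subgroupEquivAlgEquiv A).symm g : A) :
        N' ≃ₐ[F] N') := by
      intro a b hab
      exact hw a b (by rw [hab, GOOD.symm_apply])
    exact RB.frob_restrict hw'
  · rintro w ⟨p, hp, hpp, hpw⟩ g hD
    rw [hval]
    refine h3 (w.under (𝓞 N)) ⟨p, hp, hpp, (RB.natCast_mem_under w p).2 hpw⟩ _ ?_
    have hD' : Dec w (((IntermediateField.subgroupEquivAlgEquiv A).symm g : A) :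
        N' ≃ₐ[F] N') := by
      intro a b hab
      exact hD a b (by rw [hab, GOOD.symm_apply])
    exact RB.dec_restrict hD'
  · obtain ⟨x', hx'⟩ := rs_surj A hs x
    have hpow : ∀ (i : ℕ) (z : N), (x' ^ i) (algebraMap N N' z) =
        algebraMap N N' ((x ^ i) z) := by
      intro i z
      rw [rs_commutes A (x' ^ i) z, map_pow, hx']
    refine ⟨x', algebraMap N N' θ, algebraMap N N' θ', hθ.algebraMap, hθ'.algebraMap, ?_, ?_, ?_⟩
    · intro h
      obtain ⟨i, hi⟩ := hx (rs A h)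
      exact ⟨i, by rw [hval, hval, hx', hi]⟩
    · intro h hh
      rw [hval] at hh
      obtain ⟨g1, g2⟩ := hk _ hh
      rw [rs_commutes, rs_commutes, g1, g2]
      exact ⟨rfl, rfl⟩
    · intro k
      rw [hord]
      have h4 := congrArg (algebraMap N N') (hd k)
      rw [map_sum] at h4
      have h5 : ∀ i, (x' ^ i) (algebraMap N N' θ * (x' ^ k) (algebraMap N N' θ')) =
          algebraMap N N' ((x ^ i) (θ * (x ^ k) θ')) := by
        intro i
        rw [hpow k, ← map_mul, hpow i]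
      simp only [h5]
      rw [h4]
      split_ifs <;> simp

end lift

theorem indFun_one {G : Type} [Group G] [Fintype G] (A : Subgroup G) (g : G) :
    indFun A (fun _ => 1) g = SSQ.ind1 A g := by
  unfold indFun SSQ.ind1
  congr 1
  rw [Finset.sum_boole, Nat.card_eq_fintype_card, Fintype.card_subtype]

end SSQBCX

open SSQBCX in
theorem BCX_thm : Stmt_BCX := by
  intro hBCF hCYI hKUI hTRN hUEXT hIDN hDGQ T F N _ _ _ _ _ _ _ ψ hψ B
  obtain ⟨q, N', _, _, _, _, ζ, κ, hq, hBq, hζ, hκ, htr⟩ := hBCF hCYI hKUI hTRN hUEXT N B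
  haveI : Fact q.Prime := ⟨hq⟩
  haveI : NeZero q := ⟨hq.ne_zero⟩
  letI : Algebra F N' := ((algebraMap N N').comp (algebraMap F N)).toAlgebra
  haveI : IsScalarTower F N N' := IsScalarTower.of_algebraMap_eq (fun _ => rfl)
  haveI : IsGalois F N' := IsGalois.tower_top_of_isGalois ℚ F N'
  have h2 : (2 : N') ≠ 0 := two_ne_zero
  -- transitivity on the pairs of exponents, over `N`
  have hsur : ∀ (s : ZMod q) (t : (ZMod q)ˣ), ∃ h : N' ≃ₐ[N] N',
      aa (F := F) hζ hκ h2 (h.restrictScalars F) = s ∧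
        hζ.autToPow F (h.restrictScalars F) = t := by
    intro s t
    obtain ⟨h, hh1, hh2⟩ := htr s.val (t : ZMod q).val (ZMod.val_coe_unit_coprime t)
    refine ⟨h, ?_, ?_⟩
    · rw [aa_eq hζ hκ h2 (h.restrictScalars F) s.val hh2, ZMod.natCast_zmod_val]
    · apply Units.ext
      rw [bb_eq hζ (h.restrictScalars F) (t : ZMod q).val hh1, ZMod.natCast_zmod_val]
  let A0 : Subgroup (N' ≃ₐ[F] N') := MulAction.stabilizer (N' ≃ₐ[F] N') κ
  let A1 : Subgroup (N' ≃ₐ[F] N') := MulAction.stabilizer (N' ≃ₐ[F] N') ζ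
  have hA0 : ∀ g, g ∈ A0 ↔ aa (F := F) hζ hκ h2 g = 0 := by
    intro g
    rw [aa_zero_iff]
    exact Iff.rfl
  have hA1 : ∀ g, g ∈ A1 ↔ hζ.autToPow F g = 1 := by
    intro g
    rw [bb_one_iff]
    exact Iff.rfl
  have hA2 : ∀ g, g ∈ A0 ⊓ A1 ↔ aa (F := F) hζ hκ h2 g = 0 ∧ hζ.autToPow F g = 1 := by
    intro g
    rw [Subgroup.mem_inf, hA0, hA1]
  -- `A0 ⊓ A1` maps onto `Gal(N/F)`
  have hlift : ∀ g : N ≃ₐ[F] N, ∃ h ∈ A0 ⊓ A1,
      (AlgEquiv.restrictNormalHom N (h : N' ≃ₐ[F] N') : N ≃ₐ[F] N) = g := by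
    intro g
    obtain ⟨h₁, hh₁⟩ := AlgEquiv.restrictNormalHom_surjective (F := F) (K₁ := N) N' g
    obtain ⟨h₂, hh₂, hh₃⟩ := hsur
      (-(((hζ.autToPow F h₁)⁻¹ : (ZMod q)ˣ) : ZMod q) * aa (F := F) hζ hκ h2 h₁)
      (hζ.autToPow F h₁)⁻¹
    refine ⟨h₁ * h₂.restrictScalars F, ?_, ?_⟩
    · rw [hA2]
      constructor
      · rw [aa_mul, hh₂, neg_mul, mul_neg, ← mul_assoc, Units.mul_inv, one_mul, add_neg_cancel]
      · rw [map_mul, hh₃, mul_inv_cancel]
    · rw [map_mul, hh₁]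
      have h3 : (AlgEquiv.restrictNormalHom N (h₂.restrictScalars F) : N ≃ₐ[F] N) = 1 := by
        ext z
        apply (algebraMap N N').injective
        have h4 := AlgEquiv.restrictNormal_commutes (h₂.restrictScalars F) N z
        show algebraMap N N' ((h₂.restrictScalars F).restrictNormal N z) = algebraMap N N' z
        rw [h4]
        exact h₂.commutes z
      rw [h3, mul_one]
  let A : Fin 3 → Subgroup (N' ≃ₐ[F] N') := ![A0, A1, A0 ⊓ A1]
  have hA2le : ∀ r, A0 ⊓ A1 ≤ A r := by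
    intro r
    fin_cases r
    · exact inf_le_left
    · exact inf_le_right
    · exact le_refl _
  have hz : ∀ r, ∃ z : N', (z ^ q = 2 ∨ IsPrimitiveRoot z q) ∧ ∀ h ∈ A r, h z = z := by
    intro r
    fin_cases r
    · exact ⟨κ, Or.inl hκ, fun h hh => hh⟩
    · exact ⟨ζ, Or.inr hζ, fun h hh => hh⟩
    · exact ⟨κ, Or.inl hκ, fun h hh => (Subgroup.mem_inf.1 hh).1⟩
  refine ⟨N', inferInstance, inferInstance, inferInstance, inferInstance, inferInstance,
    inferInstance, inferInstance, q, A, fun r => (ψ.comp (AlgEquiv.restrictNormalHom N :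
      (N' ≃ₐ[F] N') →* (N ≃ₐ[F] N))).comp (A r).subtype, hq.two_le, ?_, ?_, ?_, ?_⟩
  · intro r h g hg
    show ψ (AlgEquiv.restrictNormalHom N (h : N' ≃ₐ[F] N')) = ψ g
    congr 1
    ext z
    apply (algebraMap N N').injective
    rw [← hg z]
    exact AlgEquiv.restrictNormal_commutes (h : N' ≃ₐ[F] N') N z
  · intro r
    obtain ⟨z, hz1, hz2⟩ := hz r
    have hmem : z ∈ IntermediateField.fixedField (A r) := by
      rw [IntermediateField.mem_fixedField_iff]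
      exact hz2
    have h3 := hDGQ (IntermediateField.fixedField (A r)) q ⟨z, hmem⟩ hq (by
      rcases hz1 with h | h
      · left
        apply Subtype.ext
        exact h
      · right
        exact IsPrimitiveRoot.of_map_of_injective
          (f := algebraMap (IntermediateField.fixedField (A r)) N') h
          (algebraMap (IntermediateField.fixedField (A r)) N').injective)
    omega
  · intro r
    apply good_of T (A r) ψ hψ
    intro g
    obtain ⟨h, hh, hh'⟩ := hlift g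
    exact ⟨⟨h, hA2le r hh⟩, hh'⟩
  · intro g
    rw [indFun_one, indFun_one, indFun_one]
    exact hIDN (N' ≃ₐ[F] N') q (hζ.autToPow F) (aa (F := F) hζ hκ h2) A0 A1 (A0 ⊓ A1)
      (aa_mul hζ hκ h2) (fun s t => by
        obtain ⟨h, hh⟩ := hsur s t
        exact ⟨_, hh⟩) hA0 hA1 hA2 g

end StarkC
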