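import Pool.Agent.SSQ.StK

/-!
# The field cut out by a good character is a good pair

Project SSQ (MP_46b841_nt), module FLD.
-/

open NumberField IsDedekindDomain
open scoped TensorProduct Classical

namespace StarkC

namespace SSQFLD

/-- The restriction of an automorphism to `L` commutes with the inclusion. -/
theorem res_apply {F L N : Type} [Field F] [Field L] [Field N] [Algebra F L] [Algebra F N]
    [Algebra L N] [IsScalarTower F L N] [Normal F L] (g : N ≃ₐ[F] N) (z : L) :
    algebraMap L N ((AlgEquiv.restrictNormalHom L g : L ≃ₐ[F] L) z) = g (algebraMap L N z) := by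
  show algebraMap L N (g.restrictNormal L z) = g (algebraMap L N z)
  exact AlgEquiv.restrictNormal_commutes g L z

/-- The restriction of a power of an automorphism commutes with the inclusion. -/
theorem res_pow_apply {F L N : Type} [Field F] [Field L] [Field N] [Algebra F L] [Algebra F N]
    [Algebra L N] [IsScalarTower F L N] [Normal F L] (g : N ≃ₐ[F] N) (k : ℕ) (z : L) :
    algebraMap L N (((AlgEquiv.restrictNormalHom L g : L ≃ₐ[F] L) ^ k) z) =
      (g ^ k) (algebraMap L N z) := by
  rw [← map_pow]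
  exact res_apply (g ^ k) z

/-- An automorphism of `N` over `L` has trivial restriction to `L`. -/
theorem res_restrictScalars {F L N : Type} [Field F] [Field L] [Field N] [Algebra F L]
    [Algebra F N] [Algebra L N] [IsScalarTower F L N] [Normal F L] (g : N ≃ₐ[L] N) :
    (AlgEquiv.restrictNormalHom L (g.restrictScalars F) : L ≃ₐ[F] L) = 1 := by
  ext z
  apply (algebraMap L N).injective
  rw [res_apply]
  exact g.commutes z

/-- An algebraic integer of `N` which is fixed by all automorphisms with trivial restriction to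
`L` comes from an algebraic integer of `L`. -/
theorem exists_down {F L N : Type} [Field F] [Field L] [Field N] [Algebra F L]
    [Algebra F N] [Algebra L N] [IsScalarTower F L N] [Normal F L] [FiniteDimensional L N]
    [IsGalois L N] (θ : N) (hθ : IsIntegral ℤ θ)
    (h : ∀ g : N ≃ₐ[F] N, (AlgEquiv.restrictNormalHom L g : L ≃ₐ[F] L) = 1 → g θ = θ) :
    ∃ t : L, IsIntegral ℤ t ∧ algebraMap L N t = θ := by
  have h1 : θ ∈ Set.range (algebraMap L N) := by
    rw [IsGalois.mem_range_algebraMap_iff_fixed]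
    intro g
    exact h (g.restrictScalars F) (res_restrictScalars g)
  obtain ⟨t, rfl⟩ := h1
  refine ⟨t, ?_, rfl⟩
  exact (isIntegral_algebraMap_iff (algebraMap L N).injective).1 hθ

end SSQFLD

theorem FLD_thm : Stmt_FLD := by
  intro hB F N _ _ _ _ _ _ T ψ hgood
  obtain ⟨hF, h1, h2, x, θ, θ', hθ, hθ', hgen, hfix, hsum⟩ := hgood
  obtain ⟨L, iF, iNF, aFL, aLN, tow, hG, ψ', hinj, hψ'⟩ := FAITH.exists_field F N ψ
  have hgal : IsGalois L N := IsGalois.tower_top_of_isGalois F L N
  have hsurj : Function.Surjective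
      (AlgEquiv.restrictNormalHom L : (N ≃ₐ[F] N) →* (L ≃ₐ[F] L)) :=
    AlgEquiv.restrictNormalHom_surjective N
  have hker : ∀ g : N ≃ₐ[F] N, (AlgEquiv.restrictNormalHom L g : L ≃ₐ[F] L) = 1 → ψ g = 1 := by
    intro g hg
    rw [← hψ', hg, map_one]
  obtain ⟨t, ht, hte⟩ := SSQFLD.exists_down (F := F) (L := L) θ hθ
    fun g hg => (hfix g (hker g hg)).1
  obtain ⟨t', ht', hte'⟩ := SSQFLD.exists_down (F := F) (L := L) θ' hθ'
    fun g hg => (hfix g (hker g hg)).2
  have hgenL : ∀ g : L ≃ₐ[F] L, ∃ i : ℕ, g = (AlgEquiv.restrictNormalHom L x : L ≃ₐ[F] L) ^ i := by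
    intro g
    obtain ⟨g', rfl⟩ := hsurj g
    obtain ⟨i, hi⟩ := hgen g'
    refine ⟨i, hinj ?_⟩
    rw [map_pow, hψ', hψ', hi]
  have hord : orderOf (AlgEquiv.restrictNormalHom L x : L ≃ₐ[F] L) = orderOf ψ := by
    rw [orderOf_eq_orderOf_iff]
    intro n
    constructor
    · intro hn
      refine MonoidHom.ext fun h => ?_
      obtain ⟨i, hi⟩ := hgen h
      rw [MonoidHom.pow_apply, hi, MonoidHom.one_apply, ← pow_mul, mul_comm, pow_mul, ← hψ',
        ← map_pow, hn, map_one, one_pow]
    · intro hn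
      apply hinj
      rw [map_pow, hψ', ← MonoidHom.pow_apply, hn, MonoidHom.one_apply, map_one]
  refine ⟨L, iF, iNF, aFL, aLN, tow, hG, ψ', hinj, hψ', ?_⟩
  refine ⟨hF, ?_, ?_, ?_, ?_⟩
  · refine ⟨⟨AlgEquiv.restrictNormalHom L x, fun g => ?_⟩⟩
    obtain ⟨i, hi⟩ := hgenL g
    exact ⟨i, (zpow_natCast _ i).trans hi.symm⟩
  · intro w g hg
    obtain ⟨W, rfl⟩ := FAITH.exists_above (N := N) w
    obtain ⟨g', hg', hF'⟩ := LINF.lift_frobPow (K := F) W 0 g (by rwa [pow_zero])
    rw [pow_zero] at hF'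
    apply hinj
    rw [map_one, ← hg', hψ']
    exact h1 W g' hF'
  · intro w hw g hg
    obtain ⟨W, rfl⟩ := FAITH.exists_above (N := N) w
    obtain ⟨g₁, hg₁⟩ := AlgEquiv.restrictNormalHom_surjective (F := F) (K₁ := L) N g
    obtain ⟨τ, hτ⟩ := UREAL.trans (L := L) (STB.mv (g₁ : N ≃+* N) W) W (by
      rw [RB.mv_under, hg₁]
      exact (RB.dec_iff _ _).1 hg)
    have h3 : AlgEquiv.restrictNormalHom L (τ.restrictScalars F) = (1 : L ≃ₐ[F] L) :=
      SSQFLD.res_restrictScalars τ
    have h4 : Dec W (τ.restrictScalars F * g₁ : N ≃ₐ[F] N) := by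
      rw [RB.dec_iff, RB.mv_mul]
      exact hτ
    obtain ⟨p, hp, hpp, hpw⟩ := hw
    have h5 := h2 W ⟨p, hp, hpp, by rwa [RB.natCast_mem_under] at hpw⟩ _ h4
    apply hinj
    rw [map_one, ← hg₁]
    have h6 : (AlgEquiv.restrictNormalHom L g₁ : L ≃ₐ[F] L) =
        AlgEquiv.restrictNormalHom L (τ.restrictScalars F * g₁) := by
      rw [map_mul, h3, one_mul]
    rw [h6, hψ']
    exact h5
  · refine hB F L (AlgEquiv.restrictNormalHom L x) t t' ht ht' hgenL fun k => ?_
    apply (algebraMap L N).injective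
    rw [map_sum, hord]
    have h3 := hsum k
    rw [← hte, ← hte'] at h3
    have h4 : ∀ i ∈ Finset.range (orderOf ψ),
        algebraMap L N (((AlgEquiv.restrictNormalHom L x : L ≃ₐ[F] L) ^ i)
          (t * ((AlgEquiv.restrictNormalHom L x : L ≃ₐ[F] L) ^ k) t')) =
        (x ^ i) (algebraMap L N t * (x ^ k) (algebraMap L N t')) := by
      intro i _
      rw [SSQFLD.res_pow_apply, map_mul, SSQFLD.res_pow_apply]
    rw [Finset.sum_congr rfl h4, h3]
    split_ifs
    · rw [map_one]
    · rw [map_zero]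

end StarkC
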