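import Pool.Agent.StarkU.UNTH

/-!
# A sparse sequence of unramified extensions with normal integral basis: definitions

Interface between the key lemma (`Stmt_NIB`) and the reduction.
-/

open NumberField IsDedekindDomain
open scoped TensorProduct Classical

namespace StarkC

/-- A normal integral basis of `N^(ker ψ) / N^H` in the form of a dual pair: `x ∈ H` generates
`H / ker ψ` (cyclic of order `m`), `θ, θ'` are algebraic integers of `N` fixed by `ker ψ`, and the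
trace of `θ x^k(θ')` is `1` if `m ∣ k` and `0` otherwise. -/
def NIBg {N : Type} [Field N] [NumberField N] (H : Subgroup (N ≃ₐ[ℚ] N)) (ψ : H →* ℂˣ) : Prop :=
  ∃ (x : H) (θ θ' : N), IsIntegral ℤ θ ∧ IsIntegral ℤ θ' ∧
    (∀ h : H, ∃ i : ℕ, ψ h = ψ x ^ i) ∧
    (∀ h : H, ψ h = 1 → (h : N ≃ₐ[ℚ] N) θ = θ ∧ (h : N ≃ₐ[ℚ] N) θ' = θ') ∧
    ∀ k : ℕ, ∑ i ∈ Finset.range (orderOf ψ),
      ((x : N ≃ₐ[ℚ] N) ^ i) (θ * ((x : N ≃ₐ[ℚ] N) ^ k) θ') = if orderOf ψ ∣ k then 1 else 0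

/-- Output of the key lemma and compactness: for `M / ℚ` finite Galois there is a finite Galois
`N / ℚ` containing `M` such that every character `ψ` of a cyclic subgroup `H` of `Gal(N/ℚ)` which is
the restriction (through `Gal(N/ℚ) → Gal(M/ℚ)`) of a character `ν`, `ψ ^ n = 1`, of type (A) at
level `M` (`T` contains the primes dividing `n`) has a normal integral basis. -/
def Stmt_NIB : Prop :=
  ∀ (M : Type) [Field M] [NumberField M] [IsGalois ℚ M] (T : Finset ℕ) (n : ℕ), 0 < n →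
    (∀ p, p.Prime → p ∣ n → p ∈ T) →
    ∃ (N : Type) (_ : Field N) (_ : NumberField N) (_ : Algebra M N) (_ : IsGalois ℚ N),
      ∀ (H : Subgroup (N ≃ₐ[ℚ] N)) (ψ : H →* ℂˣ) (C : Subgroup (M ≃ₐ[ℚ] M)) (ν : C →* ℂˣ),
        IsCyclic H → TypeA T C ν → ψ ^ n = 1 →
        (∀ h : H, ∃ c : C,
          AlgEquiv.restrictNormalHom M (h : N ≃ₐ[ℚ] N) = (c : M ≃ₐ[ℚ] M) ∧ ψ h = ν c) →
        NIBg H ψ

end StarkC
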