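import Pool.Agent.SSQ.StG

/-!
# Cyclotomic polynomials are irreducible over a number field, for all large primes
-/

open NumberField Polynomial

namespace SSQ

namespace SSQCYI

theorem ne_zero_of_irr (N : Type) [Field N] [NumberField N] (q : ℕ) (hq : q.Prime)
    (hB : (discr N).natAbs < q) : Irreducible (cyclotomic q N) := by
  have hN0 : NeZero q := ⟨hq.ne_zero⟩
  let N' : Type := CyclotomicField q N
  obtain ⟨ζ, hζ⟩ : ∃ ζ : N', IsPrimitiveRoot ζ q :=
    ⟨_, IsCyclotomicExtension.zeta_spec q N N'⟩
  let K₁ : IntermediateField ℚ N' := IntermediateField.adjoin ℚ {ζ}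
  let K₂ : IntermediateField ℚ N' := (IsScalarTower.toAlgHom ℚ N N').fieldRange
  have hcyc : IsCyclotomicExtension {q} ℚ K₁ :=
    hζ.intermediateField_adjoin_isCyclotomicExtension ℚ
  have hgal : IsGalois ℚ K₁ := IsCyclotomicExtension.isGalois {q} ℚ _
  have hd2 : discr K₂ = discr N := by
    symm
    exact discr_eq_discr_of_algEquiv N
      (AlgEquiv.ofInjectiveField (IsScalarTower.toAlgHom ℚ N N'))
  have hcop : IsCoprime (discr K₁) (discr K₂) := by
    rw [hd2, Int.isCoprime_iff_nat_coprime, IsCyclotomicExtension.Rat.natAbs_discr q K₁]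
    refine Nat.Coprime.coprime_dvd_left
      (Nat.div_dvd_of_dvd (Nat.prod_primeFactors_pow_totient_ediv_dvd hq.pos)) ?_
    refine Nat.Coprime.pow_left _ ?_
    rw [Nat.Prime.coprime_iff_not_dvd hq]
    intro h
    have h1 := Nat.le_of_dvd (Int.natAbs_pos.2 (discr_ne_zero N)) h
    omega
  have hdis : K₁.LinearDisjoint K₂ := linearDisjoint_of_isGalois_isCoprime_discr _ K₁ K₂ hcop
  have hf1 : Module.finrank ℚ K₁ = q - 1 := by
    rw [IsCyclotomicExtension.Rat.finrank q K₁, Nat.totient_prime hq]
  have hf2 : Module.finrank ℚ K₂ = Module.finrank ℚ N :=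
    (AlgEquiv.ofInjectiveField (IsScalarTower.toAlgHom ℚ N N')).toLinearEquiv.finrank_eq.symm
  have hsup := hdis.finrank_sup
  rw [hf1, hf2] at hsup
  have hle : Module.finrank ℚ ↥(K₁ ⊔ K₂) ≤ Module.finrank ℚ N' :=
    Submodule.finrank_le (Subalgebra.toSubmodule (K₁ ⊔ K₂).toSubalgebra)
  have htow : Module.finrank ℚ N * Module.finrank N N' = Module.finrank ℚ N' :=
    Module.finrank_mul_finrank ℚ N N'
  have hpos : 0 < Module.finrank ℚ N := Module.finrank_pos
  have hge : q - 1 ≤ Module.finrank N N' := by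
    have : Module.finrank ℚ N * (q - 1) ≤ Module.finrank ℚ N * Module.finrank N N' := by
      rw [htow]
      calc _ = (q - 1) * Module.finrank ℚ N := mul_comm _ _
        _ = _ := hsup.symm
        _ ≤ _ := hle
    exact Nat.le_of_mul_le_mul_left this hpos
  have hint : IsIntegral N ζ := IsIntegral.of_finite N ζ
  have hdeg : (minpoly N ζ).natDegree = Module.finrank N N' := by
    rw [← IntermediateField.adjoin.finrank hint]
    have h1 : IntermediateField.adjoin N ({ζ} : Set N') = ⊤ := by
      rw [← IntermediateField.toSubalgebra_injective.eq_iff,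
        IntermediateField.adjoin_simple_toSubalgebra_of_isAlgebraic hint.isAlgebraic,
        IntermediateField.top_toSubalgebra]
      exact IsCyclotomicExtension.adjoin_primitive_root_eq_top hζ
    rw [h1]
    exact IntermediateField.finrank_top'
  have hdvd : minpoly N ζ ∣ cyclotomic q N :=
    minpoly.dvd N ζ (by
      rw [aeval_def, eval₂_eq_eval_map, map_cyclotomic]
      exact hζ.isRoot_cyclotomic hq.pos)
  have heq : cyclotomic q N = minpoly N ζ := by
    apply eq_of_monic_of_dvd_of_natDegree_le (minpoly.monic hint) (cyclotomic.monic q N) hdvd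
    rw [hdeg, natDegree_cyclotomic, Nat.totient_prime hq]
    exact hge
  rw [heq]
  exact minpoly.irreducible hint

end SSQCYI

theorem CYI_thm : Stmt_CYI := fun N _ _ =>
  ⟨(discr N).natAbs, fun q hq hB => SSQCYI.ne_zero_of_irr N q hq hB⟩

end SSQ
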