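import Pool.Agent.SSQ.StG

/-!
# Module KUI: `X ^ q - 2` is irreducible over `N(ζ_q)`
-/

set_option autoImplicit false

open NumberField Polynomial

namespace SSQ

namespace SSQKUI

lemma rat_pow_ne (q : ℕ) (hq : q.Prime) (b : ℚ) : b ^ q ≠ 2 := by
  intro h
  have : Fact (Nat.Prime 2) := ⟨Nat.prime_two⟩
  have h1 : padicValRat 2 (b ^ q) = (q : ℤ) * padicValRat 2 b := padicValRat.pow b
  rw [h] at h1
  have h2 : padicValRat 2 (2 : ℚ) = 1 := by
    have := padicValRat.self (p := 2) (by norm_num)
    exact_mod_cast this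
  rw [h2] at h1
  have h3 : (q : ℤ) ∣ 1 := ⟨_, h1⟩
  have h4 : q ∣ 1 := by exact_mod_cast h3
  exact hq.one_lt.ne' (Nat.dvd_one.1 h4)

lemma rat_irr (q : ℕ) (hq : q.Prime) : Irreducible (X ^ q - C 2 : ℚ[X]) :=
  X_pow_sub_C_irreducible_of_prime hq (rat_pow_ne q hq)

/-- a number field which contains a `q`-th root of `2` has a degree divisible by `q` -/
lemma dvd_finrank (F : Type) [Field F] [Algebra ℚ F] [FiniteDimensional ℚ F] (q : ℕ)
    (hq : q.Prime) (β : F) (hβ : β ^ q = 2) : q ∣ Module.finrank ℚ F := by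
  have hint : IsIntegral ℚ β := Algebra.IsIntegral.isIntegral β
  have hroot : aeval β (X ^ q - C 2 : ℚ[X]) = 0 := by
    rw [map_sub, map_pow, aeval_X, aeval_C, hβ, map_ofNat, sub_self]
  have hmonic : (X ^ q - C 2 : ℚ[X]).Monic := monic_X_pow_sub_C _ hq.ne_zero
  have hmin : X ^ q - C 2 = minpoly ℚ β :=
    minpoly.eq_of_irreducible_of_monic (rat_irr q hq) hroot hmonic
  have h1 := minpoly.degree_dvd hint
  rw [← hmin, natDegree_X_pow_sub_C] at h1
  exact h1

end SSQKUI

open SSQKUI in
theorem KUI_thm : Stmt_KUI := by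
  intro N N' _ _ _ _ _ q ζ hq hN hζ
  apply X_pow_sub_C_irreducible_of_prime hq
  intro β hβ
  have hζint : IsIntegral N ζ := Algebra.IsIntegral.isIntegral ζ
  have : FiniteDimensional N (IntermediateField.adjoin N ({ζ} : Set N')) :=
    IntermediateField.finiteDimensional_left _
  have : FiniteDimensional ℚ (IntermediateField.adjoin N ({ζ} : Set N')) :=
    Module.Finite.trans (R := ℚ) N _
  have h1 := dvd_finrank (IntermediateField.adjoin N ({ζ} : Set N')) q hq β hβ
  have h2 : Module.finrank ℚ N * Module.finrank N (IntermediateField.adjoin N ({ζ} : Set N')) =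
      Module.finrank ℚ (IntermediateField.adjoin N ({ζ} : Set N')) :=
    Module.finrank_mul_finrank ℚ N _
  rw [← h2] at h1
  have hposN : 0 < Module.finrank ℚ N := Module.finrank_pos
  have hposF : 0 < Module.finrank N (IntermediateField.adjoin N ({ζ} : Set N')) :=
    Module.finrank_pos
  have h3 : Module.finrank N (IntermediateField.adjoin N ({ζ} : Set N')) =
      (minpoly N ζ).natDegree := IntermediateField.adjoin.finrank hζint
  have h4 : (minpoly N ζ).natDegree ≤ q - 1 := by
    have h5 : minpoly N ζ ∣ cyclotomic q N := by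
      apply minpoly.dvd
      rw [aeval_def, ← eval_map, map_cyclotomic]
      exact (hζ.isRoot_cyclotomic hq.pos)
    have h6 := natDegree_le_of_dvd h5 (cyclotomic_ne_zero q N)
    rw [natDegree_cyclotomic, Nat.totient_prime hq] at h6
    exact h6
  have h7 := hq.one_lt
  rcases (Nat.Prime.dvd_mul hq).1 h1 with h | h
  · have := Nat.le_of_dvd hposN h
    omega
  · have := Nat.le_of_dvd hposF h
    omega

end SSQ
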