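import Pool.Agent.SSQ.StV

/-!
# SSQ, module SBCG: values of Stark numbers and the base change
-/

open NumberField IsDedekindDomain
open scoped TensorProduct Classical

namespace StarkC

namespace SSQSBCG

variable {F N N' : Type} [Field F] [NumberField F] [Field N] [NumberField N]
    [Field N'] [NumberField N'] [Algebra F N] [Algebra N N'] [Algebra F N'] [IsScalarTower F N N']
    [IsGalois F N] [IsGalois F N']

/-- The inflated character factors out of an induced character. -/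
theorem ind_eq (ψ : (N ≃ₐ[F] N) →* ℂˣ) (H : Subgroup (N' ≃ₐ[F] N')) (ψH : H →* ℂˣ)
    (hH : ∀ (h : H) (g : N ≃ₐ[F] N),
      (∀ z : N, (h : N' ≃ₐ[F] N') (algebraMap N N' z) = algebraMap N N' (g z)) →
      ψH h = ψ g)
    (g : N' ≃ₐ[F] N') :
    indFun H (extZ ψH) g =
      ((ψ (AlgEquiv.restrictNormalHom N g) : ℂˣ) : ℂ) * indFun H (fun _ => 1) g := by
  unfold indFun
  rw [mul_div_assoc', Finset.mul_sum]
  congr 1
  refine Finset.sum_congr rfl fun x _ => ?_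
  by_cases hx : x⁻¹ * g * x ∈ H
  · rw [if_pos hx, if_pos hx, mul_one]
    unfold extZ
    rw [dif_pos hx, hH ⟨_, hx⟩ (AlgEquiv.restrictNormalHom N (x⁻¹ * g * x))
      (fun z => (AlgEquiv.restrictNormal_commutes (x⁻¹ * g * x) N z).symm)]
    have e : (ψ.comp (AlgEquiv.restrictNormalHom N)) (x⁻¹ * g * x) =
        (ψ.comp (AlgEquiv.restrictNormalHom N)) g := by
      rw [map_mul, map_mul, map_inv, mul_comm _ ((ψ.comp (AlgEquiv.restrictNormalHom N)) g),
        mul_assoc, inv_mul_cancel, mul_one]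
    exact congrArg (fun u : ℂˣ => (u : ℂ)) e
  · rw [if_neg hx, if_neg hx, mul_zero]

end SSQSBCG

open SSQSBCG in
theorem SBCG_thm : Stmt_SBCG := by
  intro G F N N' _ _ _ _ _ _ _ _ _ _ _ _ ψ q A ψA hq hψA hid hst
  intro S T' hT' φ Θ hφ
  subst hT'
  obtain ⟨φ', Θ', hφ', hR⟩ := ALLT.infl F N N' S φ Θ hφ
  have hcast : ((q - 1 : ℕ) : ℂ) = (q : ℂ) - 1 := by
    rw [Nat.cast_sub (by omega), Nat.cast_one]
  have h3 : ∃ M' : ℕ, 0 < M' ∧ StarkG.GMul G M' (S : Set (HeightOneSpectrum (𝓞 F)))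
      (aboveSet F N' S) Θ' ((linRep ψ).comp (AlgEquiv.restrictNormalHom N) :
        Representation ℂ (N' ≃ₐ[F] N') ℂ) := by
    refine StarkG.gind G F N' S φ' Θ' ℂ ((linRep ψ).comp (AlgEquiv.restrictNormalHom N)) (q - 1)
      3 A ψA ![(q : ℤ) - 1, 1, -1] (by omega) hφ' (fun g => ?_) (fun i => ?_)
    · have e := hid g
      have hc : Representation.character (k := ℂ) (G := N' ≃ₐ[F] N') (V := ℂ)
          ((linRep ψ).comp (AlgEquiv.restrictNormalHom N)) g =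
            ((ψ (AlgEquiv.restrictNormalHom N g) : ℂˣ) : ℂ) :=
        congrFun (IND.linRep_character (ψ.comp (AlgEquiv.restrictNormalHom N))) g
      have n0 : (![(q : ℤ) - 1, 1, -1] : Fin 3 → ℤ) 0 = (q : ℤ) - 1 := rfl
      have n1 : (![(q : ℤ) - 1, 1, -1] : Fin 3 → ℤ) 1 = 1 := rfl
      have n2 : (![(q : ℤ) - 1, 1, -1] : Fin 3 → ℤ) 2 = -1 := rfl
      rw [hc, Fin.sum_univ_three, ind_eq ψ (A 0) (ψA 0) (hψA 0) g,
        ind_eq ψ (A 1) (ψA 1) (hψA 1) g, ind_eq ψ (A 2) (ψA 2) (hψA 2) g, hcast, ← e, n0, n1, n2]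
      push_cast
      ring
    · obtain ⟨S', hS'⟩ := IND.exists_S' (IntermediateField.fixedField (A i))
        (S : Set (HeightOneSpectrum (𝓞 F))) S.finite_toSet
      have hφ2 := IND.isPhiTheta_sub (IntermediateField.fixedField (A i)) hφ'
      obtain ⟨M, hM, h⟩ := hst i S' _ hS' φ' Θ' hφ2
      exact ⟨M, S', hM, hS', h⟩
  obtain ⟨M', hM', f, hf, hE⟩ := h3
  refine ⟨M', hM', f, ⟨hf.1, fun s hs => ?_⟩, ?_⟩
  · rw [hf.2 s hs, MAIN.logL_infl LINF_thm]
  · rw [hR ℂ (linRep ψ)] at hE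
    exact hE

end StarkC
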