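import Pool.Agent.SSQ.StG

/-!
# Project SSQ, module TRN: transitivity of the Galois group on the pairs
-/

set_option autoImplicit false

open NumberField Polynomial

namespace SSQ

namespace SSQTRN

/-- Two roots of an irreducible monic polynomial are conjugate in a normal extension. -/
theorem exists_conj (F L : Type) [Field F] [Field L] [Algebra F L] [Normal F L] (P : F[X])
    (hP : Irreducible P) (hm : P.Monic) (x y : L) (hx : aeval x P = 0) (hy : aeval y P = 0) :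
    ∃ h : L ≃ₐ[F] L, h x = y := by
  have h1 : P = minpoly F x := minpoly.eq_of_irreducible_of_monic hP hx hm
  have h2 : P = minpoly F y := minpoly.eq_of_irreducible_of_monic hP hy hm
  have h3 : IsConjRoot F x y := (isConjRoot_def).2 (h1.symm.trans h2)
  obtain ⟨σ, hσ⟩ := isConjRoot_iff_exists_algEquiv.1 h3.symm
  exact ⟨σ, hσ⟩

/-- Solving `b d + c = a` modulo `q`. -/
theorem exists_d (q : ℕ) (hq : q.Prime) (a b c : ℕ) (hb : b.Coprime q) :
    ∃ d : ℕ, b * d + c ≡ a [MOD q] := by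
  have : Fact q.Prime := ⟨hq⟩
  have hb0 : (b : ZMod q) ≠ 0 := by
    intro h
    rw [ZMod.natCast_eq_zero_iff] at h
    have h1 : q ∣ 1 := by
      rw [← hb]
      exact Nat.dvd_gcd h dvd_rfl
    exact hq.one_lt.ne' (Nat.dvd_one.1 h1)
  refine ⟨((((a : ZMod q) - c) * (b : ZMod q)⁻¹).val), ?_⟩
  rw [← ZMod.natCast_eq_natCast_iff]
  push_cast
  rw [ZMod.natCast_val, ZMod.cast_id, mul_comm (b : ZMod q), mul_assoc, inv_mul_cancel₀ hb0,
    mul_one, sub_add_cancel]

end SSQTRN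

open SSQTRN in
theorem TRN_thm : Stmt_TRN := by
  intro N N' _ _ _ _ _ _ q ζ κ hq hcyc hkum hζ hκ a b hb
  have hqpos : 0 < q := hq.pos
  -- the first automorphism
  have hroot : ∀ z : N', IsPrimitiveRoot z q → aeval z (cyclotomic q N) = 0 := by
    intro z hz
    have h := hz.isRoot_cyclotomic hqpos
    rw [IsRoot.def] at h
    rw [aeval_def, eval₂_eq_eval_map, map_cyclotomic]
    exact h
  obtain ⟨h₁, hh₁⟩ := exists_conj N N' (cyclotomic q N) hcyc (cyclotomic.monic q N) ζ (ζ ^ b)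
    (hroot ζ hζ) (hroot (ζ ^ b) (hζ.pow_of_coprime b hb))
  -- its action on the root of `X ^ q - 2`
  have h2 : (2 : N') ≠ 0 := two_ne_zero
  have hκ0 : κ ≠ 0 := by
    intro h
    rw [h, zero_pow hq.ne_zero] at hκ
    exact h2 hκ.symm
  have hc : ∃ c : ℕ, h₁ κ = ζ ^ c * κ := by
    have h3 : (h₁ κ / κ) ^ q = 1 := by
      rw [div_pow, ← map_pow, hκ, map_ofNat]
      exact div_self h2
    have : NeZero q := ⟨hq.ne_zero⟩
    obtain ⟨c, _, hc⟩ := hζ.eq_pow_of_pow_eq_one h3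
    refine ⟨c, ?_⟩
    rw [hc, div_mul_cancel₀ _ hκ0]
  obtain ⟨c, hc⟩ := hc
  obtain ⟨d, hd⟩ := exists_d q hq a b c hb
  -- the second automorphism
  have hroot2 : ∀ z : N', z ^ q = 2 →
      aeval z (X ^ q - C 2 : Polynomial (IntermediateField.adjoin N ({ζ} : Set N'))) = 0 := by
    intro z hz
    rw [map_sub, map_pow, aeval_X, aeval_C, map_ofNat, hz, sub_self]
  have hκd : (ζ ^ d * κ) ^ q = 2 := by
    rw [mul_pow, hκ, ← pow_mul, mul_comm d q, pow_mul, hζ.pow_eq_one, one_pow, one_mul]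
  obtain ⟨h₂, hh₂⟩ := exists_conj (IntermediateField.adjoin N ({ζ} : Set N')) N'
    (X ^ q - C 2) hkum (monic_X_pow_sub_C _ hq.ne_zero) κ (ζ ^ d * κ) (hroot2 κ hκ)
    (hroot2 _ hκd)
  have hζ2 : h₂ ζ = ζ := by
    have h := h₂.commutes ⟨ζ, IntermediateField.mem_adjoin_simple_self N ζ⟩
    exact h
  refine ⟨(h₂.restrictScalars N).trans h₁, ?_, ?_⟩
  · change h₁ (h₂ ζ) = ζ ^ b
    rw [hζ2, hh₁]
  · change h₁ (h₂ κ) = ζ ^ a * κ
    rw [hh₂, map_mul, map_pow, hh₁, hc, ← pow_mul, ← mul_assoc, ← pow_add]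
    congr 1
    have hd' : (b * d + c) % q = a % q := hd
    rw [← pow_mod_orderOf ζ (b * d + c), ← hζ.eq_orderOf, hd', hζ.eq_orderOf, pow_mod_orderOf]

end SSQ
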