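import Pool.Agent.SSQ.StG

/-!
# An identity of permutation characters (module IDN, helper1)
-/

set_option autoImplicit false

namespace SSQ

namespace SSQIDN

/-- fibres over the values of `f` -/
lemma sumfib {G T : Type} [Finite G] [Fintype T] (P : G → Prop) (f : G → T) :
    Nat.card {x : G // P x} = ∑ t : T, Nat.card {x : G // P x ∧ f x = t} := by
  rw [← Nat.card_sigma]
  exact Nat.card_congr
    { toFun := fun x => ⟨f x.1, x.1, x.2, rfl⟩
      invFun := fun y => ⟨y.2.1, y.2.2.1⟩
      left_inv := fun _ => rfl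
      right_inv := by
        rintro ⟨t, x, hx, rfl⟩
        rfl }

/-- fibres over the values of `f` in `S` -/
lemma sumfib2 {G T : Type} [Finite G] [Finite T] (f : G → T) (S : T → Prop) (k : ℕ)
    (h : ∀ t, Nat.card {x : G // f x = t} = k) :
    Nat.card {x : G // S (f x)} = Nat.card {t : T // S t} * k := by
  classical
  have : Fintype {t : T // S t} := Fintype.ofFinite _
  have e : {x : G // S (f x)} ≃ (t : {t : T // S t}) × {x : G // f x = t.1} :=
    { toFun := fun x => ⟨⟨f x.1, x.2⟩, x.1, rfl⟩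
      invFun := fun y => ⟨y.2.1, by rw [y.2.2]; exact y.1.2⟩
      left_inv := fun _ => rfl
      right_inv := by
        rintro ⟨⟨t, ht⟩, x, hx⟩
        dsimp only at hx
        subst hx
        rfl }
  rw [Nat.card_congr e, Nat.card_sigma, Finset.sum_congr rfl (fun t _ => h t.1),
    Finset.sum_const, Finset.card_univ, smul_eq_mul, Nat.card_eq_fintype_card]

section

variable {G : Type} [Group G] [Fintype G] {q : ℕ} [Fact q.Prime] {b : G →* (ZMod q)ˣ}
  {a : G → ZMod q}

omit [Fintype G] in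
lemma a_one (h : ∀ g h, a (g * h) = a g + (b g : ZMod q) * a h) : a 1 = 0 := by
  have h1 := h 1 1
  rw [mul_one, map_one, Units.val_one, one_mul] at h1
  linear_combination -h1

omit [Fintype G] in
lemma a_inv (h : ∀ g h, a (g * h) = a g + (b g : ZMod q) * a h) (x : G) :
    (b x : ZMod q) * a x⁻¹ = - a x := by
  have h1 := h x x⁻¹
  rw [mul_inv_cancel, a_one h] at h1
  linear_combination -h1

omit [Fintype G] in
lemma a_conj (h : ∀ g h, a (g * h) = a g + (b g : ZMod q) * a h) (x g : G) :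
    (b x : ZMod q) * a (x⁻¹ * g * x) = a g + ((b g : ZMod q) - 1) * a x := by
  have h1 := h (x⁻¹ * g) x
  have h2 := h x⁻¹ g
  have h3 := a_inv h x
  have h4 : (b x : ZMod q) * (b x⁻¹ : ZMod q) = 1 := by
    rw [← Units.val_mul, ← map_mul, mul_inv_cancel, map_one, Units.val_one]
  rw [h1, h2, map_mul, Units.val_mul]
  linear_combination h3 + (a g + (b g : ZMod q) * a x) * h4

omit [Fintype G] in
lemma a_conj_zero (h : ∀ g h, a (g * h) = a g + (b g : ZMod q) * a h) (x g : G) :
    a (x⁻¹ * g * x) = 0 ↔ a g + ((b g : ZMod q) - 1) * a x = 0 := by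
  rw [← a_conj h x g, Units.mul_right_eq_zero]

omit [Fintype G] in
lemma b_conj (x g : G) : b (x⁻¹ * g * x) = b g := by
  rw [map_mul, map_mul, map_inv, mul_comm, mul_inv_cancel_left]

omit [Fintype G] in
lemma fib (h : ∀ g h, a (g * h) = a g + (b g : ZMod q) * a h)
    (hs : ∀ (s : ZMod q) (t : (ZMod q)ˣ), ∃ g, a g = s ∧ b g = t) (s : ZMod q) (t : (ZMod q)ˣ) :
    Nat.card {x : G // a x = s ∧ b x = t} = Nat.card {x : G // a x = 0 ∧ b x = 1} := by
  obtain ⟨g, rfl, rfl⟩ := hs s t
  refine Nat.card_congr ((Equiv.mulLeft g).subtypeEquiv fun x => ?_).symm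
  rw [Equiv.coe_mulLeft, h, map_mul]
  constructor
  · rintro ⟨h1, h2⟩
    rw [h1, h2, mul_zero, add_zero, mul_one]
    exact ⟨rfl, rfl⟩
  · rintro ⟨h1, h2⟩
    constructor
    · have h3 : (b g : ZMod q) * a x = 0 := by linear_combination h1
      rwa [Units.mul_right_eq_zero] at h3
    · exact mul_eq_left.1 h2

/-- fibres over `s` -/
lemma fibA (h : ∀ g h, a (g * h) = a g + (b g : ZMod q) * a h)
    (hs : ∀ (s : ZMod q) (t : (ZMod q)ˣ), ∃ g, a g = s ∧ b g = t) (s : ZMod q) :
    Nat.card {x : G // a x = s} = (q - 1) * Nat.card {x : G // a x = 0 ∧ b x = 1} := by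
  rw [sumfib _ b, Finset.sum_congr rfl (fun t _ => fib h hs s t), Finset.sum_const,
    Finset.card_univ, ZMod.card_units, smul_eq_mul]

/-- fibres over `t` -/
lemma fibB (h : ∀ g h, a (g * h) = a g + (b g : ZMod q) * a h)
    (hs : ∀ (s : ZMod q) (t : (ZMod q)ˣ), ∃ g, a g = s ∧ b g = t) (t : (ZMod q)ˣ) :
    Nat.card {x : G // b x = t} = q * Nat.card {x : G // a x = 0 ∧ b x = 1} := by
  rw [sumfib _ a]
  have h1 : ∀ s : ZMod q, Nat.card {x : G // b x = t ∧ a x = s} =
      Nat.card {x : G // a x = 0 ∧ b x = 1} := by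
    intro s
    rw [← fib h hs s t]
    exact Nat.card_congr (Equiv.subtypeEquivRight fun x => and_comm)
  rw [Finset.sum_congr rfl (fun s _ => h1 s), Finset.sum_const, Finset.card_univ, ZMod.card,
    smul_eq_mul]

/-- the number of `x` with a condition on `a x` -/
lemma cnt (h : ∀ g h, a (g * h) = a g + (b g : ZMod q) * a h)
    (hs : ∀ (s : ZMod q) (t : (ZMod q)ˣ), ∃ g, a g = s ∧ b g = t) (P : ZMod q → Prop) :
    Nat.card {x : G // P (a x)} = Nat.card {s : ZMod q // P s} *
      ((q - 1) * Nat.card {x : G // a x = 0 ∧ b x = 1}) :=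
  sumfib2 a P _ (fibA h hs)

/-- the group -/
lemma cardG (h : ∀ g h, a (g * h) = a g + (b g : ZMod q) * a h)
    (hs : ∀ (s : ZMod q) (t : (ZMod q)ˣ), ∃ g, a g = s ∧ b g = t) :
    Nat.card G = q * ((q - 1) * Nat.card {x : G // a x = 0 ∧ b x = 1}) := by
  have h1 := cnt h hs (fun _ => True)
  rw [Nat.card_congr (Equiv.subtypeUnivEquiv (fun _ => trivial)),
    Nat.card_congr (Equiv.subtypeUnivEquiv (fun _ => trivial)), Nat.card_zmod] at h1
  exact h1

end

end SSQIDN

open SSQIDN in
theorem IDN_thm : Stmt_IDN := by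
  classical
  intro G _ _ q _ b a A₀ A₁ A₂ h hs h0 h1 h2 g
  have hq : q.Prime := Fact.out
  set n := Nat.card {x : G // a x = 0 ∧ b x = 1} with hn
  have hnpos : 0 < n := by
    rw [hn, Nat.card_pos_iff]
    exact ⟨⟨⟨1, a_one h, map_one b⟩⟩, inferInstance⟩
  have hnC : (n : ℂ) ≠ 0 := Nat.cast_ne_zero.2 hnpos.ne'
  have hqC : (q : ℂ) ≠ 0 := Nat.cast_ne_zero.2 hq.ne_zero
  have hq1C : ((q : ℂ) - 1) ≠ 0 := by
    intro h3
    have h4 : (q : ℂ) = 1 := by linear_combination h3
    exact hq.ne_one (by exact_mod_cast h4)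
  have hcast : ((q - 1 : ℕ) : ℂ) = (q : ℂ) - 1 := by
    rw [Nat.cast_sub hq.one_lt.le, Nat.cast_one]
  have cA0 : Nat.card A₀ = (q - 1) * n := by
    rw [hn, ← fibA h hs 0]
    exact Nat.card_congr (Equiv.subtypeEquivRight h0)
  have cA1 : Nat.card A₁ = q * n := by
    rw [hn, ← fibB h hs 1]
    exact Nat.card_congr (Equiv.subtypeEquivRight h1)
  have cA2 : Nat.card A₂ = n := by
    rw [hn]
    exact Nat.card_congr (Equiv.subtypeEquivRight h2)
  have i0 : ind1 A₀ g =
      (Nat.card {s : ZMod q // a g + ((b g : ZMod q) - 1) * s = 0} : ℂ) := by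
    have e1 : Nat.card {x : G // x⁻¹ * g * x ∈ A₀} =
        Nat.card {x : G // a g + ((b g : ZMod q) - 1) * a x = 0} := by
      refine Nat.card_congr (Equiv.subtypeEquivRight fun x => ?_)
      rw [h0, a_conj_zero h]
    unfold ind1
    rw [e1, cnt h hs (fun s => a g + ((b g : ZMod q) - 1) * s = 0), cA0, Nat.cast_mul,
      mul_div_assoc, div_self, mul_one]
    rw [Nat.cast_mul, hcast]
    exact mul_ne_zero hq1C hnC
  have i1 : ind1 A₁ g = if b g = 1 then (q : ℂ) - 1 else 0 := by
    have e1 : Nat.card {x : G // x⁻¹ * g * x ∈ A₁} = Nat.card {x : G // b g = 1} := by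
      refine Nat.card_congr (Equiv.subtypeEquivRight fun x => ?_)
      rw [h1, b_conj]
    unfold ind1
    rw [e1, cA1]
    split_ifs with hb
    · have e2 : Nat.card {x : G // b g = 1} = Nat.card G :=
        Nat.card_congr (Equiv.subtypeUnivEquiv fun _ => hb)
      rw [e2, cardG h hs, ← hn, Nat.cast_mul, Nat.cast_mul, Nat.cast_mul, hcast]
      field_simp
    · have e2 : Nat.card {x : G // b g = 1} = 0 := by
        have : IsEmpty {x : G // b g = 1} := ⟨fun x => hb x.2⟩
        exact Nat.card_of_isEmpty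
      rw [e2, Nat.cast_zero, zero_div]
  have i2 : ind1 A₂ g = if b g = 1 ∧ a g = 0 then (q : ℂ) * ((q : ℂ) - 1) else 0 := by
    have e1 : Nat.card {x : G // x⁻¹ * g * x ∈ A₂} = Nat.card {x : G // b g = 1 ∧ a g = 0} := by
      refine Nat.card_congr (Equiv.subtypeEquivRight fun x => ?_)
      rw [h2, b_conj, a_conj_zero h]
      constructor
      · rintro ⟨h3, h4⟩
        rw [h4, Units.val_one, sub_self, zero_mul, add_zero] at h3
        exact ⟨h4, h3⟩
      · rintro ⟨h3, h4⟩
        rw [h3, h4, Units.val_one, sub_self, zero_mul, add_zero]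
        exact ⟨rfl, rfl⟩
    unfold ind1
    rw [e1, cA2]
    split_ifs with hb
    · have e2 : Nat.card {x : G // b g = 1 ∧ a g = 0} = Nat.card G :=
        Nat.card_congr (Equiv.subtypeUnivEquiv fun _ => hb)
      rw [e2, cardG h hs, ← hn, Nat.cast_mul, Nat.cast_mul, hcast]
      field_simp
    · have e2 : Nat.card {x : G // b g = 1 ∧ a g = 0} = 0 := by
        have : IsEmpty {x : G // b g = 1 ∧ a g = 0} := ⟨fun x => hb x.2⟩
        exact Nat.card_of_isEmpty
      rw [e2, Nat.cast_zero, zero_div]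
  rw [i0, i1, i2]
  by_cases hb : b g = 1
  · by_cases ha : a g = 0
    · have e1 : Nat.card {s : ZMod q // a g + ((b g : ZMod q) - 1) * s = 0} = q := by
        rw [Nat.card_congr (Equiv.subtypeUnivEquiv fun s => by
          rw [hb, ha, Units.val_one, sub_self, zero_mul, add_zero]), Nat.card_zmod]
      rw [e1, if_pos hb, if_pos ⟨hb, ha⟩]
      ring
    · have e1 : Nat.card {s : ZMod q // a g + ((b g : ZMod q) - 1) * s = 0} = 0 := by
        have : IsEmpty {s : ZMod q // a g + ((b g : ZMod q) - 1) * s = 0} := by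
          refine ⟨?_⟩
          rintro ⟨s, h3⟩
          rw [hb, Units.val_one, sub_self, zero_mul, add_zero] at h3
          exact ha h3
        exact Nat.card_of_isEmpty
      rw [e1, if_pos hb, if_neg (fun h3 => ha h3.2)]
      simp
  · have hb' : (b g : ZMod q) - 1 ≠ 0 := by
      intro h3
      apply hb
      apply Units.ext
      rw [Units.val_one]
      linear_combination h3
    have e1 : Nat.card {s : ZMod q // a g + ((b g : ZMod q) - 1) * s = 0} = 1 := by
      rw [Nat.card_eq_one_iff_unique]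
      constructor
      · constructor
        rintro ⟨x, hx⟩ ⟨y, hy⟩
        apply Subtype.ext
        have h3 : ((b g : ZMod q) - 1) * (x - y) = 0 := by linear_combination hx - hy
        rcases mul_eq_zero.1 h3 with h4 | h4
        · exact absurd h4 hb'
        · exact sub_eq_zero.1 h4
      · refine ⟨⟨-(a g) / ((b g : ZMod q) - 1), ?_⟩⟩
        rw [mul_div_cancel₀ _ hb']
        ring
    rw [e1, if_neg hb, if_neg (fun h3 => hb h3.1)]
    simp

end SSQ
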