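import Pool.Agent.SSQ.StV
import Pool.Agent.StarkU.PBridgeV
import Pool.Agent.StarkU.ALLV

/-!
# A sparse sequence of extensions with normal integral basis: assembly

Project SSQ (MP_46b841_nt).
-/

open NumberField IsDedekindDomain
open scoped TensorProduct Classical

namespace StarkC

/-- The inputs. -/
structure SSQIn : Prop where
  cof : SSQ.Stmt_COF
  cyi : SSQ.Stmt_CYI
  kui : SSQ.Stmt_KUI
  trn : SSQ.Stmt_TRN
  idn : SSQ.Stmt_IDN
  dgq : SSQ.Stmt_DGQ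
  bas : SSQ.Stmt_BAS
  cyci : Stmt_CYCI
  cja : Stmt_CJA
  tar : Stmt_TAR
  nbt : Stmt_NBT
  dec : Stmt_DEC
  inf : Stmt_INF
  gch : Stmt_GCH
  fld : Stmt_FLD
  bcf : Stmt_BCF
  bcx : Stmt_BCX
  sbc : Stmt_SBC
  sbcg : Stmt_SBCG
  fup : Stmt_FUP
  nib : Stmt_NIB

namespace SSQM

/-- An extension of number fields. -/
structure Ext where
  K : Type
  L : Type
  [fK : Field K]
  [nK : NumberField K]
  [fL : Field L]
  [nL : NumberField L]
  [alg : Algebra K L]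
  [gal : IsGalois K L]

attribute [instance] Ext.fK Ext.nK Ext.fL Ext.nL Ext.alg Ext.gal

/-- The numbers of the faithful characters of order dividing `n` have a power in `G`. -/
def Fai (G : Subgroup ℂˣ) (n : ℕ) (K L : Type) [Field K] [NumberField K] [Field L] [NumberField L]
    [Algebra K L] : Prop :=
  ∀ ψ : (L ≃ₐ[K] L) →* ℂˣ, Function.Injective ψ → ψ ^ n = 1 → StarkG.Rat1 G K L ψ

/-! ### One character -/

theorem out1 (h : SSQIn) (T : Finset ℕ) (F N : Type) [Field F] [NumberField F] [Field N]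
    [NumberField N] [Algebra F N] [IsGalois F N] (ψ : (N ≃ₐ[F] N) →* ℂˣ) (hg : GoodChar T ψ) :
    ∃ X : Ext, StarkW.GoodPair T X.K X.L ∧ Module.finrank ℚ X.K = Module.finrank ℚ F ∧
      (∀ (n : ℕ) (σ : ℂ ≃+* ℂ), ψ ^ n = 1 → StarkW.StarkFaithful n σ X.K X.L →
        StarkAllS σ F N ψ) ∧
      ∀ (n : ℕ) (G : Subgroup ℂˣ), StarkG.Full n G → ψ ^ n = 1 → Fai G n X.K X.L →
        GAllS G F N ψ := by
  obtain ⟨L, _, _, _, _, _, _, ψ', hinj, hψ', hp⟩ := h.fld h.bas F N T ψ hg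
  refine ⟨⟨F, L⟩, hp, rfl, fun n σ hn hf => h.fup n σ F L N ψ' ψ hinj hψ' hn hf, ?_⟩
  intro n G hG hn hf S T' hT φ Θ hφ
  refine StarkG.up hG F L N ψ' (hf ψ' hinj ?_) ψ (StarkG.cyc_of_pow ψ hn) hψ' S T' hT φ Θ hφ
  refine MonoidHom.ext fun a => ?_
  obtain ⟨g, rfl⟩ := AlgEquiv.restrictNormalHom_surjective (F := F) (K₁ := L) N a
  rw [MonoidHom.pow_apply, hψ', ← MonoidHom.pow_apply, hn]
  rfl

theorem liftChar_pow {F N : Type} [Field F] [NumberField F] [Field N] [NumberField N]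
    [Algebra F N] [IsGalois F N] (H : Subgroup (N ≃ₐ[F] N)) (ψ : H →* ℂˣ) {n : ℕ}
    (h : ψ ^ n = 1) : (liftChar H ψ) ^ n = 1 := by
  refine MonoidHom.ext fun g => ?_
  exact DFunLike.congr_fun h ((IntermediateField.subgroupEquivAlgEquiv H).symm g)

/-- The three extensions of a good pair. -/
theorem out (h : SSQIn) (T : Finset ℕ) (N : Type) [Field N] [NumberField N] [IsGalois ℚ N]
    (H : Subgroup (N ≃ₐ[ℚ] N)) (ψ : H →* ℂˣ) (hA : TypeA T H ψ) (hN : NIBg H ψ) (B : ℕ) :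
    ∃ X : Fin 3 → Ext,
      (∀ r, StarkW.GoodPair T (X r).K (X r).L ∧ B ≤ Module.finrank ℚ (X r).K) ∧
      (∀ (n : ℕ) (σ : ℂ ≃+* ℂ), ψ ^ n = 1 →
        (∀ r, StarkW.StarkFaithful n σ (X r).K (X r).L) →
        StarkAllS σ (IntermediateField.fixedField H) N (liftChar H ψ)) ∧
      ∀ (n : ℕ) (G : Subgroup ℂˣ), StarkG.Full n G → ψ ^ n = 1 →
        (∀ r, Fai G n (X r).K (X r).L) →
        GAllS G (IntermediateField.fixedField H) N (liftChar H ψ) := by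
  have g := h.gch N T H ψ hA hN
  obtain ⟨N', _, _, aN, aF, st, gQ, gF, q, A, ψA, hq, hψA, hdeg, hgood, hid⟩ :=
    h.bcx h.bcf h.cyi h.kui h.trn UEXT_thm h.idn h.dgq T (IntermediateField.fixedField H) N
      (liftChar H ψ) g B
  choose X hX1 hX2 hX3 hX4 using fun r => out1 h T (IntermediateField.fixedField (A r)) N'
    (liftChar (A r) (ψA r)) (hgood r)
  have hpow : ∀ n : ℕ, ψ ^ n = 1 → ∀ r, (liftChar (A r) (ψA r)) ^ n = 1 := by
    intro n hn r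
    refine liftChar_pow (A r) (ψA r) (MonoidHom.ext fun a => ?_)
    have h1 := hψA r a (AlgEquiv.restrictNormalHom N (a : N' ≃ₐ[IntermediateField.fixedField H] N'))
      (fun z => (AlgEquiv.restrictNormal_commutes _ N z).symm)
    rw [MonoidHom.pow_apply, h1, ← MonoidHom.pow_apply, liftChar_pow H ψ hn]
    rfl
  refine ⟨X, fun r => ⟨hX1 r, by rw [hX2 r]; exact hdeg r⟩, fun n σ hn hf => ?_,
    fun n G hG hn hf => ?_⟩
  · exact h.sbc σ (IntermediateField.fixedField H) N N' (liftChar H ψ) q A ψA hq hψA hid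
      fun r => hX3 r n σ (hpow n hn r) (hf r)
  · exact h.sbcg G (IntermediateField.fixedField H) N N' (liftChar H ψ) q A ψA hq hψA hid
      fun r => hX4 r n G hG (hpow n hn r) (hf r)

/-! ### The index set -/

theorem countable_hom (G : Type) [Group G] [Finite G] : Countable (G →* ℂˣ) := by
  have : NeZero (Nat.card G) := ⟨Nat.card_pos.ne'⟩
  have hf : ∀ (ψ : G →* ℂˣ) (g : G), ψ g ∈ rootsOfUnity (Nat.card G) ℂ := fun ψ g => by
    rw [mem_rootsOfUnity, ← map_pow, pow_card_eq_one', map_one]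
  refine Function.Injective.countable (f := fun (ψ : G →* ℂˣ) (g : G) =>
    (⟨ψ g, hf ψ g⟩ : rootsOfUnity (Nat.card G) ℂ)) fun a b hab => ?_
  refine MonoidHom.ext fun g => ?_
  exact congrArg Subtype.val (congrFun hab g)

/-- The pairs at all levels. -/
abbrev Ix (T : Finset ℕ) (N : ℕ → Type) [∀ k, Field (N k)] [∀ k, NumberField (N k)] : Type :=
  Σ k : ℕ, Σ H : Subgroup (N k ≃ₐ[ℚ] N k), {ψ : H →* ℂˣ // TypeA T H ψ ∧ NIBg H ψ}

theorem ix_countable (T : Finset ℕ) (N : ℕ → Type) [∀ k, Field (N k)] [∀ k, NumberField (N k)] :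
    Countable (Ix T N) := by
  have h1 : ∀ (k : ℕ) (H : Subgroup (N k ≃ₐ[ℚ] N k)),
      Countable {ψ : H →* ℂˣ // TypeA T H ψ ∧ NIBg H ψ} := fun k H => by
    have := countable_hom H
    infer_instance
  infer_instance

theorem ix_nonempty (T : Finset ℕ) (N : ℕ → Type) [∀ k, Field (N k)] [∀ k, NumberField (N k)]
    (hcof : ∀ (M : Type) [Field M] [NumberField M], ∃ k, Nonempty (M →+* N k)) :
    Nonempty (Ix T N) := by
  obtain ⟨k, ⟨ι⟩⟩ := hcof (CyclotomicField 4 ℚ)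
  obtain ⟨z, hz⟩ : ∃ z : CyclotomicField 4 ℚ, IsPrimitiveRoot z 4 :=
    (CyclotomicField.isCyclotomicExtension 4 ℚ).exists_isPrimitiveRoot (Set.mem_singleton 4)
      (by norm_num)
  obtain ⟨i, hi⟩ : ∃ i : N k, i ^ 2 = -1 := by
    refine ⟨ι z, ?_⟩
    have h4 := hz.pow_eq_one
    have h2 : z ^ 2 ≠ 1 := hz.pow_ne_one_of_pos_of_lt two_ne_zero (by norm_num)
    have h3 : (z ^ 2 - 1) * (z ^ 2 + 1) = 0 := by
      linear_combination h4
    rcases mul_eq_zero.1 h3 with h5 | h5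
    · exact absurd (sub_eq_zero.1 h5) h2
    · rw [← map_pow, eq_neg_of_add_eq_zero_left h5, map_neg, map_one]
  refine ⟨⟨k, ⊥, 1, ⟨fun c hc => ?_, fun _ _ _ => rfl, fun _ _ _ _ => rfl⟩, ?_⟩⟩
  · rw [Subgroup.mem_bot] at hc
    subst hc
    rintro ⟨Φ, hΦ⟩
    have h1 : (starRingEnd ℂ) (Φ i) = Φ i := by
      have := RingHom.congr_fun hΦ i
      exact this
    have h2 : Φ i ^ 2 = -1 := by rw [← map_pow, hi, map_neg, map_one]
    have h3 : (Φ i).im = 0 := Complex.conj_eq_iff_im.1 h1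
    have h4 := congrArg Complex.re h2
    rw [pow_two, Complex.mul_re, h3] at h4
    simp only [mul_zero, sub_zero, Complex.neg_re, Complex.one_re] at h4
    nlinarith [mul_self_nonneg (Φ i).re]
  · refine ⟨1, 1, 1, isIntegral_one, isIntegral_one, fun h => ⟨0, rfl⟩, fun h _ => ?_,
      fun m => ?_⟩
    · exact ⟨map_one _, map_one _⟩
    · rw [orderOf_one, Finset.sum_range_one, if_pos (one_dvd m)]
      simp

/-! ### The sequence -/

/-- The first conclusion for the pair `i`. -/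
def ImpS (T : Finset ℕ) (N : ℕ → Type) [∀ k, Field (N k)] [∀ k, NumberField (N k)]
    [∀ k, IsGalois ℚ (N k)] (i : Ix T N) (n : ℕ) (σ : ℂ ≃+* ℂ) (P : Prop) : Prop :=
  i.2.2.1 ^ n = 1 → P →
    StarkAllS σ (IntermediateField.fixedField i.2.1) (N i.1) (liftChar i.2.1 i.2.2.1)

/-- The second conclusion for the pair `i`. -/
def ImpG (T : Finset ℕ) (N : ℕ → Type) [∀ k, Field (N k)] [∀ k, NumberField (N k)]
    [∀ k, IsGalois ℚ (N k)] (i : Ix T N) (n : ℕ) (G : Subgroup ℂˣ) (P : Prop) : Prop :=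
  i.2.2.1 ^ n = 1 → P →
    GAllS G (IntermediateField.fixedField i.2.1) (N i.1) (liftChar i.2.1 i.2.2.1)

theorem out' (h : SSQIn) (T : Finset ℕ) (N : ℕ → Type) [∀ k, Field (N k)]
    [∀ k, NumberField (N k)] [∀ k, IsGalois ℚ (N k)] (i : Ix T N) (B : ℕ) :
    ∃ X : Fin 3 → Ext,
      (∀ r, StarkW.GoodPair T (X r).K (X r).L ∧ B ≤ Module.finrank ℚ (X r).K) ∧
      (∀ (n : ℕ) (σ : ℂ ≃+* ℂ),
        ImpS T N i n σ (∀ r, StarkW.StarkFaithful n σ (X r).K (X r).L)) ∧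
      ∀ (n : ℕ) (G : Subgroup ℂˣ), StarkG.Full n G →
        ImpG T N i n G (∀ r, Fai G n (X r).K (X r).L) := by
  obtain ⟨k, H, ψ, hA, hN⟩ := i
  exact out h T (N k) H ψ hA hN B

/-- The sequence of extensions. -/
theorem seq (h : SSQIn) (T : Finset ℕ) (F : ℕ → ℕ) (N : ℕ → Type) [∀ k, Field (N k)]
    [∀ k, NumberField (N k)] [∀ k, IsGalois ℚ (N k)]
    (hcof : ∀ (M : Type) [Field M] [NumberField M], ∃ k, Nonempty (M →+* N k)) :
    ∃ Y : ℕ → Ext,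
      (∀ j, StarkW.GoodPair T (Y j).K (Y j).L ∧ F j ≤ Module.finrank ℚ (Y j).K) ∧
      (∀ (n : ℕ) (σ : ℂ ≃+* ℂ), (∀ j, StarkW.StarkFaithful n σ (Y j).K (Y j).L) →
        ∀ k (H : Subgroup (N k ≃ₐ[ℚ] N k)) (ψ : H →* ℂˣ), TypeU T n H ψ →
        StarkAllS σ (IntermediateField.fixedField H) (N k) (liftChar H ψ)) ∧
      ∀ (n : ℕ) (G : Subgroup ℂˣ), StarkG.Full n G → (∀ j, Fai G n (Y j).K (Y j).L) →
        ∀ k (H : Subgroup (N k ≃ₐ[ℚ] N k)) (ψ : H →* ℂˣ), TypeU T n H ψ →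
        GAllS G (IntermediateField.fixedField H) (N k) (liftChar H ψ) := by
  have hne := ix_nonempty T N hcof
  have hct := ix_countable T N
  obtain ⟨e, he⟩ := exists_surjective_nat (Ix T N)
  choose X hX1 hX2 hX3 using fun m : ℕ => out' h T N (e m)
    (F (3 * m) + F (3 * m + 1) + F (3 * m + 2))
  have key : ∀ (P : Ext → Prop), (∀ j : ℕ, P (X (j / 3) ⟨j % 3, Nat.mod_lt _ (by norm_num)⟩)) →
      ∀ m (r : Fin 3), P (X m r) := by
    intro P hP m r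
    have h1 := hP (3 * m + r)
    have h2 : (3 * m + (r : ℕ)) / 3 = m := by omega
    have h3 : (⟨(3 * m + (r : ℕ)) % 3, Nat.mod_lt _ (by norm_num)⟩ : Fin 3) = r :=
      Fin.ext (by simp only; omega)
    rw [h2, h3] at h1
    exact h1
  refine ⟨fun j => X (j / 3) ⟨j % 3, Nat.mod_lt _ (by norm_num)⟩, fun j => ?_, ?_, ?_⟩
  · obtain ⟨h1, h2⟩ := hX1 (j / 3) ⟨j % 3, Nat.mod_lt _ (by norm_num)⟩
    refine ⟨h1, le_trans ?_ h2⟩
    have h3 : j = 3 * (j / 3) ∨ j = 3 * (j / 3) + 1 ∨ j = 3 * (j / 3) + 2 := by omega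
    generalize j / 3 = a at h3
    rcases h3 with h3 | h3 | h3 <;> rw [h3] <;> omega
  · intro n σ hf k H ψ hU
    obtain ⟨m, hm⟩ := he ⟨k, H, ψ, hU.1, hU.2.2⟩
    have h1 := hX2 m n σ
    have h2 := key (fun E => StarkW.StarkFaithful n σ E.K E.L) hf m
    rw [hm] at h1
    exact h1 hU.2.1 h2
  · intro n G hG hf k H ψ hU
    obtain ⟨m, hm⟩ := he ⟨k, H, ψ, hU.1, hU.2.2⟩
    have h1 := hX3 m n G hG
    have h2 := key (fun E => Fai G n E.K E.L) hf m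
    rw [hm] at h1
    exact h1 hU.2.1 h2

/-! ### The reduction over `ℚ` -/

theorem level (h : SSQIn) (N : ℕ → Type) [∀ k, Field (N k)] [∀ k, NumberField (N k)]
    [∀ k, IsGalois ℚ (N k)]
    (hcof : ∀ (M : Type) [Field M] [NumberField M], ∃ k, Nonempty (M →+* N k))
    (T : Finset ℕ) (n : ℕ) (hn : 0 < n) (L : Type) [Field L] [NumberField L] [IsGalois ℚ L]
    (χ : (L ≃ₐ[ℚ] L) → ℂ) (hχ : χ ∈ SpanQ (G := L ≃ₐ[ℚ] L) (fun _ _ => True))
    (hval : ∀ g, χ g ∈ Cyc n) :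
    ∃ (k : ℕ) (_ : Algebra L (N k)), (fun g : N k ≃ₐ[ℚ] N k =>
      χ (AlgEquiv.restrictNormalHom L g)) ∈
        SpanQ (G := N k ≃ₐ[ℚ] N k) (fun H ψ => TypeU T n H ψ ∨ TypeBn n H ψ) := by
  obtain ⟨N₁, _, _, aN, _, hN⟩ := h.dec ALLV.ualgn h.nib UART_thm UINFL_thm h.cyci h.cja h.tar L
    T n hn χ hχ hval
  obtain ⟨k, ⟨ι⟩⟩ := hcof N₁
  let a1 : Algebra N₁ (N k) := ι.toAlgebra
  let aLN : Algebra L (N k) := ((algebraMap N₁ (N k)).comp (algebraMap L N₁)).toAlgebra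
  have tLN : IsScalarTower L N₁ (N k) := IsScalarTower.of_algebraMap_eq fun x => rfl
  have hN2 := h.inf UINFL_thm h.tar h.nbt N₁ (N k) T n _ hN
  refine ⟨k, aLN, ?_⟩
  have hres : (fun g : N k ≃ₐ[ℚ] N k => χ (AlgEquiv.restrictNormalHom L g)) =
      fun g : N k ≃ₐ[ℚ] N k => χ (AlgEquiv.restrictNormalHom L
        (AlgEquiv.restrictNormalHom N₁ g : N₁ ≃ₐ[ℚ] N₁)) := by
    funext g
    rw [UALG.res12 (N₁ := L)]
  rw [hres]
  exact hN2

theorem starkQn (h : SSQIn) (N : ℕ → Type) [∀ k, Field (N k)] [∀ k, NumberField (N k)]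
    [∀ k, IsGalois ℚ (N k)]
    (hcof : ∀ (M : Type) [Field M] [NumberField M], ∃ k, Nonempty (M →+* N k))
    (T : Finset ℕ) (n : ℕ) (hn : 0 < n) (σ : ℂ ≃+* ℂ)
    (hA : ∀ k (H : Subgroup (N k ≃ₐ[ℚ] N k)) (ψ : H →* ℂˣ), TypeU T n H ψ →
      StarkAllS σ (IntermediateField.fixedField H) (N k) (liftChar H ψ))
    (hB : ∀ (K L : Type) [Field K] [NumberField K] [Field L] [NumberField L] [Algebra K L]
      [IsGalois K L], ClassBn n σ K L) : StarkQn n σ := by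
  intro L _ _ _ S φ Θ V V' _ _ _ _ _ _ ρ ρ' hφ hσ hval
  obtain ⟨k₀, aLN, hN⟩ := level h N hcof T n hn L ρ.character (CMAIN.character_mem V ρ) hval
  obtain ⟨M, hM, hGS⟩ := CMAIN.clear hN
  obtain ⟨m, H, ψ, k, hP, hsum⟩ := CMB.of_mem_GS hGS
  obtain ⟨φ', Θ', hφ', hR⟩ := ALLT.infl ℚ L (N k₀) S φ Θ hφ
  have h3 : ∃ M' : ℕ, 0 < M' ∧ StarkMulAt M' (S : Set (HeightOneSpectrum (𝓞 ℚ)))
      (aboveSet ℚ (N k₀) S) Θ' (ρ.comp (AlgEquiv.restrictNormalHom L) :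
        Representation ℂ (N k₀ ≃ₐ[ℚ] N k₀) V) (ρ'.comp (AlgEquiv.restrictNormalHom L) :
        Representation ℂ (N k₀ ≃ₐ[ℚ] N k₀) V') σ := by
    refine ALLT.indp_all (fun M => 0 < M) one_pos (fun a b ha hb => Nat.mul_pos ha hb) ℚ (N k₀) S
      φ' Θ' V V' (ρ.comp (AlgEquiv.restrictNormalHom L)) (ρ'.comp (AlgEquiv.restrictNormalHom L))
      σ M m H ψ k hM hφ' (fun g => hσ _) hsum (fun i => ?_)
    obtain ⟨S', hS'⟩ := IND.exists_S' (IntermediateField.fixedField (H i))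
      (S : Set (HeightOneSpectrum (𝓞 ℚ))) S.finite_toSet
    have hφ2 := IND.isPhiTheta_sub (IntermediateField.fixedField (H i)) hφ'
    have hlin : ∃ Mi : ℕ, 0 < Mi ∧ StarkMulAt Mi
        (S' : Set (HeightOneSpectrum (𝓞 (IntermediateField.fixedField (H i)))))
        (aboveSet ℚ (N k₀) S) Θ' (linRep (liftChar (H i) (ψ i)))
        (linRep (twist σ (liftChar (H i) (ψ i)))) σ := by
      rcases hP i with hU | ⟨hB', hval'⟩
      · exact hA k₀ (H i) (ψ i) hU S' _ hS' φ' Θ' hφ2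
      · refine CNMAIN.ofB n σ hB
          (IntermediateField.fixedField (H i)) (N k₀) (liftChar (H i) (ψ i)) (fun g => hval' _)
          (CMAIN.totallyReal (H i) fun c hc => (hB' c hc).1) ?_ S' _ hS' φ' Θ' hφ2
        intro Φ c hc
        obtain ⟨h1, h2⟩ := hB' _ ⟨Φ, GOOD.isConj_symm (H i) c Φ hc⟩
        exact h2
    obtain ⟨Mi, hMi, hst⟩ := hlin
    exact ⟨Mi, S', hMi, hS', hst⟩
  obtain ⟨M', hM', f, f', hf, hf', hE⟩ := h3
  refine ⟨M', hM', f, f', ⟨hf.1, fun s hs => ?_⟩, ⟨hf'.1, fun s hs => ?_⟩, ?_⟩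
  · rw [hf.2 s hs, MAIN.logL_infl LINF_thm]
  · rw [hf'.2 s hs, MAIN.logL_infl LINF_thm]
  · rw [hR V ρ, hR V' ρ'] at hE
    exact hE

theorem ratQ (h : SSQIn) (N : ℕ → Type) [∀ k, Field (N k)] [∀ k, NumberField (N k)]
    [∀ k, IsGalois ℚ (N k)]
    (hcof : ∀ (M : Type) [Field M] [NumberField M], ∃ k, Nonempty (M →+* N k))
    (T : Finset ℕ) {n : ℕ} (hn : 0 < n) {G : Subgroup ℂˣ} (hG : StarkG.Full n G)
    (hA : ∀ k (H : Subgroup (N k ≃ₐ[ℚ] N k)) (ψ : H →* ℂˣ), TypeU T n H ψ →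
      GAllS G (IntermediateField.fixedField H) (N k) (liftChar H ψ))
    (hB : ∀ (K L : Type) [Field K] [NumberField K] [Field L] [NumberField L] [Algebra K L]
      [IsGalois K L], StarkG.ClsB G n K L) : StarkG.RatQ G n := by
  intro L _ _ _ S φ Θ V _ _ _ ρ hφ hval
  obtain ⟨k₀, aLN, hN⟩ := level h N hcof T n hn L ρ.character (CMAIN.character_mem V ρ) hval
  obtain ⟨M, hM, hGS⟩ := CMAIN.clear hN
  obtain ⟨m, H, ψ, k, hP, hsum⟩ := CMB.of_mem_GS hGS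
  obtain ⟨φ', Θ', hφ', hR⟩ := ALLT.infl ℚ L (N k₀) S φ Θ hφ
  have h3 : ∃ M' : ℕ, 0 < M' ∧ StarkG.GMul G M' (S : Set (HeightOneSpectrum (𝓞 ℚ)))
      (aboveSet ℚ (N k₀) S) Θ' (ρ.comp (AlgEquiv.restrictNormalHom L) :
        Representation ℂ (N k₀ ≃ₐ[ℚ] N k₀) V) := by
    refine StarkG.gind G ℚ (N k₀) S φ' Θ' V (ρ.comp (AlgEquiv.restrictNormalHom L)) M
      m H ψ k hM hφ' hsum (fun i => ?_)
    obtain ⟨S', hS'⟩ := IND.exists_S' (IntermediateField.fixedField (H i))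
      (S : Set (HeightOneSpectrum (𝓞 ℚ))) S.finite_toSet
    have hφ2 := IND.isPhiTheta_sub (IntermediateField.fixedField (H i)) hφ'
    have hlin : ∃ Mi : ℕ, 0 < Mi ∧ StarkG.GMul G Mi
        (S' : Set (HeightOneSpectrum (𝓞 (IntermediateField.fixedField (H i)))))
        (aboveSet ℚ (N k₀) S) Θ' (linRep (liftChar (H i) (ψ i))) := by
      rcases hP i with hU | ⟨hB', hval'⟩
      · exact hA k₀ (H i) (ψ i) hU S' _ hS' φ' Θ' hφ2
      · refine StarkG.ofB hG hB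
          (IntermediateField.fixedField (H i)) (N k₀) (liftChar (H i) (ψ i)) (fun g => hval' _)
          (CMAIN.totallyReal (H i) fun c hc => (hB' c hc).1) ?_ S' _ hS' φ' Θ' hφ2
        intro Φ c hc
        obtain ⟨h1, h2⟩ := hB' _ ⟨Φ, GOOD.isConj_symm (H i) c Φ hc⟩
        exact h2
    obtain ⟨Mi, hMi, hst⟩ := hlin
    exact ⟨Mi, S', hMi, hS', hst⟩
  obtain ⟨M', hM', f, hf, hE⟩ := h3
  refine ⟨M', hM', f, ⟨hf.1, fun s hs => ?_⟩, ?_⟩
  · rw [hf.2 s hs, MAIN.logL_infl LINF_thm]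
  · rw [hR V ρ] at hE
    exact hE

end SSQM

end StarkC
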