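import Pool.Agent.SSQ.PDefs

/-!
# A sparse sequence of extensions with normal integral basis: printable definitions, the field `E`
-/

open NumberField

namespace StarkW

/-- There is an extension `N` of `L` which is Galois over `ℚ`, abelian over `K`, and contains a
copy of `E`. -/
def InAbelian (E K L : Type) [Field E] [Field K] [Field L] [Algebra K L] : Prop :=
  ∃ (N : Type) (_ : Field N) (_ : NumberField N) (_ : Algebra K N) (_ : Algebra L N)
    (_ : IsScalarTower K L N) (_ : IsGalois ℚ N), (∀ a b : N ≃ₐ[K] N, a * b = b * a) ∧
      Nonempty (E →+* N)

end StarkW
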