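import Pool.Agent.SSQ.StG

/-!
# Project SSQ, module BAS: a dual pair gives a normal integral basis
-/

set_option autoImplicit false

open NumberField Polynomial

namespace SSQ

namespace SSQBAS

/-- The sum over the powers of a generator is the trace. -/
theorem sum_pow (K L : Type) [Field K] [NumberField K] [Field L] [NumberField L] [Algebra K L]
    [IsGalois K L] (x : L ≃ₐ[K] L) (hx : ∀ g : L ≃ₐ[K] L, ∃ i : ℕ, g = x ^ i) (w : L) :
    ∑ i ∈ Finset.range (orderOf x), (x ^ i) w = algebraMap K L (Algebra.trace K L w) := by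
  classical
  rw [trace_eq_sum_automorphisms]
  refine Finset.sum_nbij (fun i => x ^ i) (fun i _ => Finset.mem_univ _) ?_ ?_ (fun i _ => rfl)
  · intro i hi j hj hij
    rw [Finset.coe_range] at hi hj
    exact pow_injOn_Iio_orderOf hi hj hij
  · intro g _
    obtain ⟨i, rfl⟩ := hx g
    refine ⟨i % orderOf x, ?_, pow_mod_orderOf x i⟩
    rw [Finset.coe_range]
    exact Nat.mod_lt _ (orderOf_pos x)

end SSQBAS

open SSQBAS in
theorem BAS_thm : Stmt_BAS := by
  classical
  intro K L _ _ _ _ _ _ x θ θ' hθ hθ' hx hdual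
  -- the trace of `g θ * h θ'`
  have h1 : ∀ g : L ≃ₐ[K] L, Algebra.trace K L (θ * g θ') = if g = 1 then 1 else 0 := by
    intro g
    obtain ⟨k, rfl⟩ := hx g
    have h := hdual k
    rw [sum_pow K L x hx] at h
    apply (algebraMap K L).injective
    rw [h]
    by_cases hk : orderOf x ∣ k
    · rw [if_pos hk, if_pos (orderOf_dvd_iff_pow_eq_one.1 hk), map_one]
    · rw [if_neg hk, if_neg (fun h => hk (orderOf_dvd_iff_pow_eq_one.2 h)), map_zero]
  have h2 : ∀ g h : L ≃ₐ[K] L, Algebra.trace K L (g θ * h θ') = if g = h then 1 else 0 := by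
    intro g h
    have h3 : g θ * h θ' = g (θ * (g⁻¹ * h) θ') := by
      rw [map_mul, ← AlgEquiv.mul_apply, mul_inv_cancel_left]
    rw [h3, Algebra.trace_eq_of_algEquiv, h1]
    by_cases hgh : g = h
    · rw [if_pos hgh, if_pos (by rw [hgh, inv_mul_cancel])]
    · rw [if_neg hgh, if_neg (fun h4 => hgh (inv_mul_eq_one.1 h4))]
  have h3 : ∀ (c : (L ≃ₐ[K] L) → K) (h : L ≃ₐ[K] L),
      Algebra.trace K L ((∑ g, c g • g θ) * h θ') = c h := by
    intro c h
    rw [Finset.sum_mul, map_sum, Finset.sum_congr rfl fun g _ => by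
      rw [smul_mul_assoc, map_smul, h2, smul_eq_mul, mul_ite, mul_one, mul_zero]]
    rw [Finset.sum_ite_eq' Finset.univ h c, if_pos (Finset.mem_univ _)]
  -- a basis over the field
  have hli : LinearIndependent K (fun g : L ≃ₐ[K] L => g θ) := by
    rw [Fintype.linearIndependent_iff]
    intro c hc h
    have h4 := h3 c h
    rw [hc, zero_mul, map_zero] at h4
    exact h4.symm
  have hcard : Fintype.card (L ≃ₐ[K] L) = Module.finrank K L := by
    rw [← Nat.card_eq_fintype_card]
    exact IsGalois.card_aut_eq_finrank K L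
  have hspan : ∀ z : L, ∃ c : (L ≃ₐ[K] L) → K, z = ∑ g, c g • g θ := by
    intro z
    let bK := basisOfLinearIndependentOfCardEqFinrank hli hcard
    refine ⟨fun g => bK.repr z g, ?_⟩
    have h5 := bK.sum_repr z
    rw [← h5]
    refine Finset.sum_congr rfl fun g _ => ?_
    rw [h5]
    congr 1
    exact congrFun (coe_basisOfLinearIndependentOfCardEqFinrank hli hcard) g
  -- integrality
  have hint : ∀ g : L ≃ₐ[K] L, IsIntegral ℤ (g θ) := fun g => hθ.map (g.toAlgHom.restrictScalars ℤ)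
  have hint' : ∀ g : L ≃ₐ[K] L, IsIntegral ℤ (g θ') := fun g => hθ'.map (g.toAlgHom.restrictScalars ℤ)
  let v : (L ≃ₐ[K] L) → 𝓞 L := fun g => ⟨g θ, hint g⟩
  have hsmul : ∀ (c : 𝓞 K) (w : 𝓞 L),
      algebraMap (𝓞 L) L (c • w) = algebraMap (𝓞 K) K c • algebraMap (𝓞 L) L w := by
    intro c w
    rw [Algebra.smul_def, Algebra.smul_def, map_mul]
    rfl
  have hcomb : ∀ c : (L ≃ₐ[K] L) → 𝓞 K,
      algebraMap (𝓞 L) L (∑ g, c g • v g) = ∑ g, algebraMap (𝓞 K) K (c g) • g θ := by
    intro c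
    rw [map_sum]
    exact Finset.sum_congr rfl fun g _ => hsmul _ _
  have hvli : LinearIndependent (𝓞 K) v := by
    rw [Fintype.linearIndependent_iff]
    intro c hc h
    have h4 := h3 (fun g => algebraMap (𝓞 K) K (c g)) h
    rw [← hcomb, hc, map_zero, zero_mul, map_zero] at h4
    exact RingOfIntegers.ext h4.symm
  have hvsp : ⊤ ≤ Submodule.span (𝓞 K) (Set.range v) := by
    intro z _
    obtain ⟨c, hc⟩ := hspan (algebraMap (𝓞 L) L z)
    have hci : ∀ g, IsIntegral ℤ (c g) := by
      intro g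
      rw [← h3 c g, ← hc]
      exact Algebra.isIntegral_trace (z.2.mul (hint' g))
    let d : (L ≃ₐ[K] L) → 𝓞 K := fun g => ⟨c g, hci g⟩
    have hz : z = ∑ g, d g • v g := by
      apply RingOfIntegers.ext
      change algebraMap (𝓞 L) L z = algebraMap (𝓞 L) L (∑ g, d g • v g)
      rw [hcomb]
      exact hc
    rw [hz]
    exact Submodule.sum_mem _ fun g _ => Submodule.smul_mem _ _ (Submodule.subset_span ⟨g, rfl⟩)
  refine ⟨Module.Basis.mk hvli hvsp, fun g => ?_⟩
  rw [Module.Basis.mk_apply, Module.Basis.mk_apply]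
  rfl

end SSQ
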