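import Pool.Agent.SSQ.StK

/-!
# Module CJA: type (A) is invariant under conjugation
-/

set_option autoImplicit false

open NumberField IsDedekindDomain
open scoped TensorProduct Classical

namespace StarkC

namespace SSQCJA

variable {M : Type} [Field M] [NumberField M]

theorem oMap_inv (x : M ≃ₐ[ℚ] M) (b : 𝓞 M) :
    STB.oMap ((x⁻¹ : M ≃ₐ[ℚ] M) : M ≃+* M) (STB.oMap (x : M ≃+* M) b) = b := by
  apply RingOfIntegers.ext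
  show x⁻¹ (x (b : M)) = (b : M)
  rw [← AlgEquiv.mul_apply, inv_mul_cancel, AlgEquiv.one_apply]

theorem frob_conj' {W : HeightOneSpectrum (𝓞 M)} {g : M ≃ₐ[ℚ] M} (x : M ≃ₐ[ℚ] M)
    (hg : FrobPow M W 1 g) :
    FrobPow M (STB.mv ((x⁻¹ : M ≃ₐ[ℚ] M) : M ≃+* M) W) 1 (x⁻¹ * g * x : M ≃ₐ[ℚ] M) := by
  intro a b hb
  have h1 : ((STB.oMap (x : M ≃+* M) b : 𝓞 M) : M) = g ((STB.oMap (x : M ≃+* M) a : 𝓞 M) : M) := by
    show x (b : M) = g (x (a : M))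
    rw [hb]
    show x (x⁻¹ (g (x (a : M)))) = _
    rw [← AlgEquiv.mul_apply x, mul_inv_cancel, AlgEquiv.one_apply]
  have h2 := hg _ _ h1
  rw [pow_one] at h2 ⊢
  have h3 := (RB.mv_eq_iff ((x⁻¹ : M ≃ₐ[ℚ] M) : M ≃+* M) W _).1 rfl _ h2
  rw [map_sub, oMap_inv, oMap_inv] at h3
  exact h3

theorem dec_conj' {W : HeightOneSpectrum (𝓞 M)} {g : M ≃ₐ[ℚ] M} (x : M ≃ₐ[ℚ] M)
    (hg : Dec W g) :
    Dec (STB.mv ((x⁻¹ : M ≃ₐ[ℚ] M) : M ≃+* M) W) (x⁻¹ * g * x : M ≃ₐ[ℚ] M) := by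
  have h := RB.dec_conj hg x⁻¹
  rwa [inv_inv] at h

end SSQCJA

open SSQCJA in
theorem CJA_thm : Stmt_CJA := by
  intro M _ _ _ T C ν x hA
  obtain ⟨h1, h2, h3⟩ := hA
  let φ : (M ≃ₐ[ℚ] M) →* (M ≃ₐ[ℚ] M) :=
    { toFun := fun g => x⁻¹ * g * x
      map_one' := by group
      map_mul' := fun a b => by group }
  refine ⟨C.comap φ, ν.comp (φ.subgroupComap C), ⟨?_, ?_, ?_⟩, ?_⟩
  · rintro c hc ⟨Φ, hΦ⟩
    exact h1 _ hc ⟨_, hΦ.comp x⟩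
  · intro W h hF
    exact h2 _ (φ.subgroupComap C h) (frob_conj' x hF)
  · intro W h hW hD
    exact h3 _ (φ.subgroupComap C h) (UALG.aboveT_mv T x⁻¹ W hW) (dec_conj' x hD)
  · intro g h
    exact ⟨h, rfl⟩

end StarkC
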