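import Pool.Agent.SSQ.StK

/-!
# CYCI: an induced linear character is a rational combination of those induced from cyclic subgroups
-/

open NumberField IsDedekindDomain
open scoped TensorProduct Classical

namespace StarkC

namespace SSQCYCI

variable {G : Type} [Group G]

/-- `D ⊓ x C x⁻¹` -/
def Bx (D C : Subgroup G) (x : G) : Subgroup G := D ⊓ C.comap (MulAut.conj x⁻¹).toMonoidHom

theorem mem_Bx {D C : Subgroup G} {x y : G} : y ∈ Bx D C x ↔ y ∈ D ∧ x⁻¹ * y * x ∈ C := by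
  unfold Bx
  rw [Subgroup.mem_inf, Subgroup.mem_comap]
  simp

/-- `b ↦ ν (x⁻¹ b x)` -/
def mux (D C : Subgroup G) (ν : C →* ℂˣ) (x : G) : Bx D C x →* ℂˣ where
  toFun b := ν ⟨x⁻¹ * (b : G) * x, (mem_Bx.1 b.2).2⟩
  map_one' := by
    have h : (⟨x⁻¹ * ((1 : Bx D C x) : G) * x, (mem_Bx.1 (1 : Bx D C x).2).2⟩ : C) = 1 := by
      ext
      simp
    rw [h, map_one]
  map_mul' a b := by
    rw [← map_mul]
    congr 1
    ext
    simp only [Subgroup.coe_mul]
    group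

theorem extZ_of_mem {H : Subgroup G} (ψ : H →* ℂˣ) {g : G} (h : g ∈ H) :
    extZ ψ g = ((ψ ⟨g, h⟩ : ℂˣ) : ℂ) := by
  unfold extZ
  rw [dif_pos h]

theorem extZ_of_notMem {H : Subgroup G} (ψ : H →* ℂˣ) {g : G} (h : g ∉ H) : extZ ψ g = 0 := by
  unfold extZ
  rw [dif_neg h]

theorem key (D C : Subgroup G) (ν : C →* ℂˣ) (x y : G) :
    (if y ∈ D then extZ ν (x⁻¹ * y * x) else 0) =
      if y ∈ Bx D C x then extZ (mux D C ν x) y else 0 := by
  by_cases hD : y ∈ D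
  · rw [if_pos hD]
    by_cases hC : x⁻¹ * y * x ∈ C
    · have hB : y ∈ Bx D C x := mem_Bx.2 ⟨hD, hC⟩
      rw [if_pos hB, extZ_of_mem ν hC, extZ_of_mem _ hB]
      rfl
    · rw [if_neg fun h => hC (mem_Bx.1 h).2, extZ_of_notMem ν hC]
  · rw [if_neg hD, if_neg fun h => hD (mem_Bx.1 h).1]

variable [Fintype G]

theorem indFun_extZ (C : Subgroup G) (ν : C →* ℂˣ) (y : G) :
    indFun C (extZ ν) y = ∑ x : G, (Nat.card C : ℂ)⁻¹ * extZ ν (x⁻¹ * y * x) := by
  unfold indFun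
  rw [div_eq_inv_mul, Finset.mul_sum]
  refine Finset.sum_congr rfl fun x _ => ?_
  split_ifs with h
  · rfl
  · rw [extZ_of_notMem ν h]

theorem expand (D C : Subgroup G) (ν : C →* ℂˣ) :
    indFun D (indFun C (extZ ν)) =
      ∑ x : G, ((Nat.card (Bx D C x) : ℚ) / ((Nat.card C : ℚ) * (Nat.card D : ℚ))) •
        indFun (Bx D C x) (extZ (mux D C ν x)) := by
  funext g
  rw [Finset.sum_apply]
  have h1 : indFun D (indFun C (extZ ν)) g =
      (Nat.card D : ℂ)⁻¹ * ∑ z : G, ∑ x : G, (Nat.card C : ℂ)⁻¹ *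
        (if z⁻¹ * g * z ∈ D then extZ ν (x⁻¹ * (z⁻¹ * g * z) * x) else 0) := by
    have h2 : indFun D (indFun C (extZ ν)) g = (∑ z : G, if z⁻¹ * g * z ∈ D then
        indFun C (extZ ν) (z⁻¹ * g * z) else 0) / (Nat.card D : ℂ) := rfl
    rw [h2, div_eq_inv_mul]
    congr 1
    refine Finset.sum_congr rfl fun z _ => ?_
    split_ifs with h
    · rw [indFun_extZ]
    · simp
  rw [h1, Finset.sum_comm, Finset.mul_sum]
  refine Finset.sum_congr rfl fun x _ => ?_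
  have hB : (Nat.card (Bx D C x) : ℂ) ≠ 0 := by exact_mod_cast Nat.card_pos.ne'
  have h3 : indFun (Bx D C x) (extZ (mux D C ν x)) g = (∑ z : G, if z⁻¹ * g * z ∈ Bx D C x then
      extZ (mux D C ν x) (z⁻¹ * g * z) else 0) / (Nat.card (Bx D C x) : ℂ) := rfl
  rw [Pi.smul_apply, Rat.smul_def, h3, ← Finset.mul_sum]
  simp only [key]
  push_cast
  field_simp

end SSQCYCI

open SSQCYCI in
/-- CYCI. -/
theorem CYCI_thm : Stmt_CYCI := by
  intro hART G _ _ C ν
  refine UALG.of_art hART _ (fun x g => UALG.indFun_conj C _ x g) fun g => ?_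
  rw [expand]
  refine Submodule.sum_mem _ fun x _ => Submodule.smul_mem _ _ (Submodule.subset_span
    ⟨_, mux (Subgroup.zpowers g) C ν x, ⟨UALGC.cyc_of_le inf_le_left, x, fun b => ?_⟩, rfl⟩)
  exact ⟨⟨x⁻¹ * (b : G) * x, (mem_Bx.1 b.2).2⟩, rfl, rfl⟩

end StarkC
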