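import Pool.Agent.SSQ.StG

/-!
# Project SSQ, module DGQ: degree bound
-/

set_option autoImplicit false

open NumberField Polynomial

namespace SSQ

namespace SSQDGQ

theorem pow_ne_two (q : ℕ) (hq : q.Prime) (b : ℚ) : b ^ q ≠ 2 := by
  intro h
  have hb : b ≠ 0 := by
    rintro rfl
    rw [zero_pow hq.ne_zero] at h
    norm_num at h
  have : Fact (Nat.Prime 2) := ⟨Nat.prime_two⟩
  have h1 : padicValRat 2 (b ^ q) = q * padicValRat 2 b := padicValRat.pow b
  have h2 : padicValRat 2 (2 : ℚ) = 1 := by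
    have h3 := padicValRat.self (p := 2) (by norm_num)
    exact_mod_cast h3
  rw [h, h2] at h1
  have h3 : (q : ℤ) ∣ 1 := ⟨_, h1⟩
  have h4 : q ∣ 1 := by exact_mod_cast h3
  exact hq.one_lt.ne' (Nat.dvd_one.1 h4)

end SSQDGQ

theorem DGQ_thm : Stmt_DGQ := by
  intro F _ _ q z hq hz
  rcases hz with hz | hz
  · have hirr : Irreducible (X ^ q - C 2 : ℚ[X]) :=
      X_pow_sub_C_irreducible_of_prime hq fun b => SSQDGQ.pow_ne_two q hq b
    have hmon : (X ^ q - C 2 : ℚ[X]).Monic := monic_X_pow_sub_C 2 hq.ne_zero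
    have h0 : aeval z (X ^ q - C 2 : ℚ[X]) = 0 := by
      rw [map_sub, map_pow, aeval_X, aeval_C, hz]
      simp
    have h1 := minpoly.eq_of_irreducible_of_monic hirr h0 hmon
    have h2 := minpoly.natDegree_le (A := ℚ) z
    rw [← h1, natDegree_X_pow_sub_C] at h2
    omega
  · have h1 := cyclotomic_eq_minpoly_rat hz hq.pos
    have h2 := minpoly.natDegree_le (A := ℚ) z
    rw [← h1, natDegree_cyclotomic, Nat.totient_prime hq] at h2
    exact h2

end SSQ
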