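import Pool.Agent.SSQ.StK
import Pool.Agent.StarkU.PBridgeV

/-!
# From faithful characters of `Gal(L/F)` to `N` and all `S` (module FUP of project SSQ)
-/

set_option autoImplicit false

open NumberField IsDedekindDomain
open scoped TensorProduct Classical

namespace StarkC

theorem FUP_thm : Stmt_FUP := by
  intro n σ F L N _ _ _ _ _ _ _ _ _ _ _ _ ψ' ψ hinj hψ hn hS S T' hT φ Θ hφ
  have hψ'n : ψ' ^ n = 1 := by
    refine MonoidHom.ext fun a => ?_
    obtain ⟨g, rfl⟩ := AlgEquiv.restrictNormalHom_surjective (F := F) (K₁ := L) N a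
    rw [MonoidHom.pow_apply, hψ, ← MonoidHom.pow_apply, hn]
    rfl
  have h1 : StarkRat1 σ F L ψ' := by
    intro φ₀ Θ₀ h₀
    exact (StarkVB.starkRat_iff ∅ (StarkP.linRep ψ') (StarkP.linRep (StarkP.twist σ ψ')) σ).1
      (hS ψ' hinj hψ'n) φ₀ Θ₀ h₀
  exact CNMAIN.up F L N σ ψ' h1 ψ hψ S T' hT φ Θ hφ

end StarkC
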