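import Pool.Agent.SSQ.StK

/-!
# Project SSQ, module GCH: from subgroups of the Galois group to the relative form
-/

set_option autoImplicit false

open NumberField IsDedekindDomain
open scoped TensorProduct Classical

namespace StarkC

namespace SSQGCH

variable {N : Type} [Field N] [NumberField N] [IsGalois ℚ N]

theorem lift_pow_eq_one (H : Subgroup (N ≃ₐ[ℚ] N)) (ψ : H →* ℂˣ) (n : ℕ) :
    (liftChar H ψ) ^ n = 1 ↔ ψ ^ n = 1 := by
  constructor
  · intro h
    refine MonoidHom.ext fun a => ?_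
    have h1 := DFunLike.congr_fun h (IntermediateField.subgroupEquivAlgEquiv H a)
    rw [MonoidHom.pow_apply] at h1 ⊢
    have h2 : liftChar H ψ (IntermediateField.subgroupEquivAlgEquiv H a) = ψ a := by
      show ψ ((IntermediateField.subgroupEquivAlgEquiv H).symm
        (IntermediateField.subgroupEquivAlgEquiv H a)) = ψ a
      rw [MulEquiv.symm_apply_apply]
    rw [h2] at h1
    exact h1
  · intro h
    refine MonoidHom.ext fun g => ?_
    have h1 := DFunLike.congr_fun h ((IntermediateField.subgroupEquivAlgEquiv H).symm g)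
    exact h1

theorem orderOf_lift (H : Subgroup (N ≃ₐ[ℚ] N)) (ψ : H →* ℂˣ) :
    orderOf (liftChar H ψ) = orderOf ψ :=
  orderOf_eq_orderOf_iff.2 fun n => lift_pow_eq_one H ψ n

theorem lift_apply (H : Subgroup (N ≃ₐ[ℚ] N)) (ψ : H →* ℂˣ) (a : H) :
    liftChar H ψ (IntermediateField.subgroupEquivAlgEquiv H a) = ψ a := by
  show ψ ((IntermediateField.subgroupEquivAlgEquiv H).symm
    (IntermediateField.subgroupEquivAlgEquiv H a)) = ψ a
  rw [MulEquiv.symm_apply_apply]

theorem pow_coe (H : Subgroup (N ≃ₐ[ℚ] N)) (x : H) (i : ℕ) (z : N) :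
    ((IntermediateField.subgroupEquivAlgEquiv H x) ^ i) z = ((x : N ≃ₐ[ℚ] N) ^ i) z := by
  rw [← map_pow, ← Subgroup.coe_pow]
  rfl

theorem nib (H : Subgroup (N ≃ₐ[ℚ] N)) (ψ : H →* ℂˣ) (h : NIBg H ψ) : NIBf (liftChar H ψ) := by
  obtain ⟨x, θ, θ', h1, h2, h3, h4, h5⟩ := h
  refine ⟨IntermediateField.subgroupEquivAlgEquiv H x, θ, θ', h1, h2, ?_, ?_, ?_⟩
  · intro g
    obtain ⟨i, hi⟩ := h3 ((IntermediateField.subgroupEquivAlgEquiv H).symm g)
    refine ⟨i, ?_⟩
    rw [lift_apply]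
    exact hi
  · intro g hg
    have h6 := h4 ((IntermediateField.subgroupEquivAlgEquiv H).symm g) hg
    rw [CMAIN.coe_symm] at h6
    exact h6
  · intro k
    rw [orderOf_lift, ← h5 k]
    refine Finset.sum_congr rfl fun i _ => ?_
    rw [pow_coe, pow_coe]

end SSQGCH

theorem GCH_thm : Stmt_GCH := by
  intro N _ _ _ T H ψ hA hN
  obtain ⟨hc, hur, htr⟩ := hA
  refine ⟨GOOD.totallyComplex H hc, ?_, ?_, SSQGCH.nib H ψ hN⟩
  · intro w g hg
    rw [← CMAIN.coe_symm] at hg
    exact hur w _ hg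
  · intro w hw g hg
    rw [← CMAIN.coe_symm] at hg
    exact htr w _ hw hg

end StarkC
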