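import Pool.Agent.SSQ.StK

set_option autoImplicit false

open NumberField IsDedekindDomain
open scoped TensorProduct Classical

namespace StarkC

theorem INF_thm : Stmt_INF := by
  intro hI hT hN M N _ _ _ _ _ _ _ T n f hf
  have hs : Function.Surjective (AlgEquiv.restrictNormalHom M : (N ≃ₐ[ℚ] N) →* (M ≃ₐ[ℚ] M)) :=
    AlgEquiv.restrictNormalHom_surjective N
  have h := hI (N ≃ₐ[ℚ] N) (M ≃ₐ[ℚ] M) (AlgEquiv.restrictNormalHom M) f _ hs hf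
  refine Submodule.span_mono ?_ h
  rintro _ ⟨H', ψ', ⟨H, ψ, hP, hH, hψ⟩, rfl⟩
  refine ⟨H', ψ', ?_, rfl⟩
  subst hH
  have hc : ∀ b : H.comap (AlgEquiv.restrictNormalHom M : (N ≃ₐ[ℚ] N) →* (M ≃ₐ[ℚ] M)),
      ∃ c : H, AlgEquiv.restrictNormalHom M (b : N ≃ₐ[ℚ] N) = (c : M ≃ₐ[ℚ] M) ∧ ψ' b = ψ c :=
    fun b => ⟨⟨_, b.2⟩, rfl, hψ b ⟨_, b.2⟩ rfl⟩
  rcases hP with ⟨hA, hn, hB⟩ | ⟨hB, hv⟩
  · refine Or.inl ⟨hT M N T H ψ _ ψ' hA hc, ?_, hN M N H ψ _ ψ' hB hc fun c => ?_⟩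
    · ext b
      obtain ⟨c, -, h2⟩ := hc b
      have h3 := DFunLike.congr_fun hn c
      rw [MonoidHom.pow_apply, MonoidHom.one_apply] at h3
      rw [MonoidHom.pow_apply, MonoidHom.one_apply, h2, h3]
    · obtain ⟨b, hb⟩ := hs (c : M ≃ₐ[ℚ] M)
      refine ⟨⟨b, ?_⟩, hb⟩
      rw [Subgroup.mem_comap, hb]
      exact c.2
  · refine Or.inr ⟨fun c hcc => ?_, fun b => ?_⟩
    · obtain ⟨h1, h2⟩ := hB _ (UALG.cc_restrict (L := M) hcc)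
      refine ⟨h1, ?_⟩
      rw [← h2, hψ ⟨c, h1⟩ ⟨_, h1⟩ rfl]
    · obtain ⟨c, -, h2⟩ := hc b
      rw [h2]
      exact hv c

end StarkC
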