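import Pool.Agent.SSQ.StK

/-!
# Project SSQ, module NBT: a dual pair is inherited by inflation
-/

open NumberField IsDedekindDomain
open scoped TensorProduct Classical

namespace StarkC

theorem NBT_thm : Stmt_NBT := by
  intro M N _ _ _ _ _ _ _ C ν B μ hC hB hsur
  obtain ⟨x, θ, θ', hθ, hθ', hx, hfix, hsum⟩ := hC
  obtain ⟨y, hy⟩ := hsur x
  have key : ∀ (b : N ≃ₐ[ℚ] N) (a : M),
      b (algebraMap M N a) = algebraMap M N (AlgEquiv.restrictNormalHom M b a) :=
    fun b a => (AlgEquiv.restrictNormal_commutes b M a).symm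
  have hμ : ∀ (b : B) (c : C),
      AlgEquiv.restrictNormalHom M (b : N ≃ₐ[ℚ] N) = (c : M ≃ₐ[ℚ] M) → μ b = ν c := by
    intro b c h
    obtain ⟨c', h1, h2⟩ := hB b
    have h3 : c' = c := Subtype.ext (h1.symm.trans h)
    rw [← h3]; exact h2
  have hord : orderOf μ = orderOf ν := by
    apply orderOf_eq_orderOf_iff.mpr
    intro n
    constructor
    · intro h
      refine MonoidHom.ext fun c => ?_
      obtain ⟨b, hb⟩ := hsur c
      have h2 := hμ b c hb
      have h3 := DFunLike.congr_fun h b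
      rw [MonoidHom.pow_apply] at h3 ⊢
      rw [← h2]; simpa using h3
    · intro h
      refine MonoidHom.ext fun b => ?_
      obtain ⟨c, hb, h2⟩ := hB b
      have h3 := DFunLike.congr_fun h c
      rw [MonoidHom.pow_apply] at h3 ⊢
      rw [h2]; simpa using h3
  have hpow : ∀ (i : ℕ) (a : M), ((y : N ≃ₐ[ℚ] N) ^ i) (algebraMap M N a) =
      algebraMap M N (((x : M ≃ₐ[ℚ] M) ^ i) a) := by
    intro i a
    rw [key, map_pow, hy]
  refine ⟨y, algebraMap M N θ, algebraMap M N θ', map_isIntegral_int (algebraMap M N) hθ,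
    map_isIntegral_int (algebraMap M N) hθ', ?_, ?_, ?_⟩
  · intro b
    obtain ⟨c, hb, h2⟩ := hB b
    obtain ⟨i, hi⟩ := hx c
    refine ⟨i, ?_⟩
    rw [h2, hi, hμ y x hy]
  · intro b hb1
    obtain ⟨c, hb, h2⟩ := hB b
    have h3 : ν c = 1 := by rw [← h2]; exact hb1
    obtain ⟨h4, h5⟩ := hfix c h3
    constructor
    · rw [key, hb, h4]
    · rw [key, hb, h5]
  · intro k
    rw [hord]
    have h6 := hsum k
    have h7 := congrArg (algebraMap M N) h6
    rw [map_sum] at h7
    have h8 : ∀ i ∈ Finset.range (orderOf ν), ((y : N ≃ₐ[ℚ] N) ^ i) (algebraMap M N θ *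
        ((y : N ≃ₐ[ℚ] N) ^ k) (algebraMap M N θ')) =
        algebraMap M N (((x : M ≃ₐ[ℚ] M) ^ i) (θ * ((x : M ≃ₐ[ℚ] M) ^ k) θ')) := by
      intro i _
      rw [hpow, ← map_mul, hpow]
    rw [Finset.sum_congr rfl h8, h7]
    split_ifs <;> simp

end StarkC
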