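import Pool.Agent.SSQ.StK
import Pool.Agent.SSQ.SBCG

/-!
# SSQ, module SBC: Stark's assertion and the base change
-/

open NumberField IsDedekindDomain
open scoped TensorProduct Classical

namespace StarkC

open SSQSBCG in
theorem SBC_thm : Stmt_SBC := by
  intro σ F N N' _ _ _ _ _ _ _ _ _ _ _ _ ψ q A ψA hq hψA hid hst
  intro S T' hT' φ Θ hφ
  subst hT'
  obtain ⟨φ', Θ', hφ', hR⟩ := ALLT.infl F N N' S φ Θ hφ
  have hcast : ((q - 1 : ℕ) : ℂ) = (q : ℂ) - 1 := by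
    rw [Nat.cast_sub (by omega), Nat.cast_one]
  have h3 : ∃ M' : ℕ, 0 < M' ∧ StarkMulAt M' (S : Set (HeightOneSpectrum (𝓞 F)))
      (aboveSet F N' S) Θ' ((linRep ψ).comp (AlgEquiv.restrictNormalHom N) :
        Representation ℂ (N' ≃ₐ[F] N') ℂ) ((linRep (twist σ ψ)).comp (AlgEquiv.restrictNormalHom N) :
        Representation ℂ (N' ≃ₐ[F] N') ℂ) σ := by
    refine ALLT.indp_all (fun M => 0 < M) one_pos (fun a b ha hb => Nat.mul_pos ha hb) F N' S φ' Θ'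
      ℂ ℂ ((linRep ψ).comp (AlgEquiv.restrictNormalHom N))
      ((linRep (twist σ ψ)).comp (AlgEquiv.restrictNormalHom N)) σ (q - 1)
      3 A ψA ![(q : ℤ) - 1, 1, -1] (by omega) hφ' (fun g => ?_) (fun g => ?_) (fun i => ?_)
    · exact (MAIN.linRep_character (twist σ ψ) (AlgEquiv.restrictNormalHom N g)).trans
        (congrArg σ (MAIN.linRep_character ψ (AlgEquiv.restrictNormalHom N g))).symm
    · have e := hid g
      have hc : Representation.character (k := ℂ) (G := N' ≃ₐ[F] N') (V := ℂ)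
          ((linRep ψ).comp (AlgEquiv.restrictNormalHom N)) g =
            ((ψ (AlgEquiv.restrictNormalHom N g) : ℂˣ) : ℂ) :=
        congrFun (IND.linRep_character (ψ.comp (AlgEquiv.restrictNormalHom N))) g
      have n0 : (![(q : ℤ) - 1, 1, -1] : Fin 3 → ℤ) 0 = (q : ℤ) - 1 := rfl
      have n1 : (![(q : ℤ) - 1, 1, -1] : Fin 3 → ℤ) 1 = 1 := rfl
      have n2 : (![(q : ℤ) - 1, 1, -1] : Fin 3 → ℤ) 2 = -1 := rfl
      rw [hc, Fin.sum_univ_three, ind_eq ψ (A 0) (ψA 0) (hψA 0) g,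
        ind_eq ψ (A 1) (ψA 1) (hψA 1) g, ind_eq ψ (A 2) (ψA 2) (hψA 2) g, hcast, ← e, n0, n1, n2]
      push_cast
      ring
    · obtain ⟨S', hS'⟩ := IND.exists_S' (IntermediateField.fixedField (A i))
        (S : Set (HeightOneSpectrum (𝓞 F))) S.finite_toSet
      have hφ2 := IND.isPhiTheta_sub (IntermediateField.fixedField (A i)) hφ'
      obtain ⟨M, hM, h⟩ := hst i S' _ hS' φ' Θ' hφ2
      exact ⟨M, S', hM, hS', h⟩
  obtain ⟨M', hM', f, f', hf, hf', hE⟩ := h3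
  refine ⟨M', hM', f, f', ⟨hf.1, fun s hs => ?_⟩, ⟨hf'.1, fun s hs => ?_⟩, ?_⟩
  · rw [hf.2 s hs, MAIN.logL_infl LINF_thm]
  · rw [hf'.2 s hs, MAIN.logL_infl LINF_thm]
  · rw [hR ℂ (linRep ψ), hR ℂ (linRep (twist σ ψ))] at hE
    exact hE

end StarkC
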