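import Pool.Agent.SSQ.StK

/-!
# Type (A) is inherited by inflation and restriction (module TAR of project SSQ)
-/

set_option autoImplicit false

open NumberField IsDedekindDomain
open scoped TensorProduct Classical

namespace StarkC

theorem TAR_thm : Stmt_TAR := by
  intro M N _ _ _ _ _ _ _ T C ν B μ hA hB
  obtain ⟨h1, h2, h3⟩ := hA
  refine ⟨fun b hb hcc => ?_, fun W b hf => ?_, fun W b hT hd => ?_⟩
  · obtain ⟨c, hc, _⟩ := hB ⟨b, hb⟩
    have h4 := UALG.cc_restrict (L := M) hcc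
    have hc' : AlgEquiv.restrictNormalHom M b = (c : M ≃ₐ[ℚ] M) := hc
    rw [hc'] at h4
    exact h1 _ c.2 h4
  · obtain ⟨c, hc, e⟩ := hB b
    rw [e]
    refine h2 (W.under (𝓞 M)) c ?_
    have h4 := RB.frob_restrict (L := M) hf
    rwa [hc] at h4
  · obtain ⟨c, hc, e⟩ := hB b
    rw [e]
    refine h3 (W.under (𝓞 M)) c ((UALG.aboveT_under T W).2 hT) ?_
    have h4 := RB.dec_restrict (L := M) hd
    rwa [hc] at h4

end StarkC
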