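import Pool.Agent.SSQ.FINAL
import Pool.Agent.EUN.FINAL
import Pool.Agent.SSQ.COF
import Pool.Agent.SSQ.CYI
import Pool.Agent.SSQ.KUI
import Pool.Agent.SSQ.TRN
import Pool.Agent.SSQ.IDN
import Pool.Agent.SSQ.DGQ
import Pool.Agent.SSQ.BAS
import Pool.Agent.SSQ.CYCI
import Pool.Agent.SSQ.CJA
import Pool.Agent.SSQ.TAR
import Pool.Agent.SSQ.NBT
import Pool.Agent.SSQ.DEC
import Pool.Agent.SSQ.INF
import Pool.Agent.SSQ.GCH
import Pool.Agent.SSQ.FLD
import Pool.Agent.SSQ.BCF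
import Pool.Agent.SSQ.BCX
import Pool.Agent.SSQ.SBC
import Pool.Agent.SSQ.SBCG
import Pool.Agent.SSQ.FUP

/-!
# A sparse sequence of extensions with normal integral basis: all inputs
-/

namespace StarkC

theorem ssqIn : SSQIn where
  cof := SSQ.COF_thm
  cyi := SSQ.CYI_thm
  kui := SSQ.KUI_thm
  trn := SSQ.TRN_thm
  idn := SSQ.IDN_thm
  dgq := SSQ.DGQ_thm
  bas := SSQ.BAS_thm
  cyci := CYCI_thm
  cja := CJA_thm
  tar := TAR_thm
  nbt := NBT_thm
  dec := DEC_thm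
  inf := INF_thm
  gch := GCH_thm
  fld := FLD_thm
  bcf := BCF_thm
  bcx := BCX_thm
  sbc := SBC_thm
  sbcg := SBCG_thm
  fup := FUP_thm
  nib := EUN.stmt_nib

end StarkC
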