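import Pool.Agent.SSQ.StK

/-!
# Fields for the base change
-/

open NumberField IsDedekindDomain
open scoped TensorProduct Classical

namespace StarkC

open Polynomial in
theorem BCF_thm : Stmt_BCF := by
  intro hCYI hKUI hTRN hUEXT N _ _ _ B
  obtain ⟨B', hB'⟩ := hCYI N
  obtain ⟨q, hqle, hq⟩ := Nat.exists_infinite_primes (B + 2 + B' + Module.finrank ℚ N + 1)
  have hq0 : NeZero q := ⟨hq.ne_zero⟩
  have hirr : Irreducible (cyclotomic q N) := hB' q hq (by omega)
  have hP : ((X ^ q - C 2 : N[X]) * cyclotomic q N) ≠ 0 :=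
    mul_ne_zero (X_pow_sub_C_ne_zero hq.pos 2) hirr.ne_zero
  obtain ⟨N', i1, i2, i3, i4, hs⟩ := hUEXT N _ hP
  rw [Polynomial.map_mul] at hs
  have hne : ((X ^ q - C 2 : N[X]) * cyclotomic q N).map (algebraMap N N') ≠ 0 :=
    (Polynomial.map_ne_zero_iff (algebraMap N N').injective).2 hP
  rw [Polynomial.map_mul] at hne
  have hs1 : ((X ^ q - C 2 : N[X]).map (algebraMap N N')).Splits :=
    hs.of_dvd hne (dvd_mul_right _ _)
  have hs2 : ((cyclotomic q N).map (algebraMap N N')).Splits :=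
    hs.of_dvd hne (dvd_mul_left _ _)
  obtain ⟨κ, hκ⟩ := hs1.exists_eval_eq_zero (by
    rw [degree_map, degree_X_pow_sub_C hq.pos]
    exact_mod_cast hq.ne_zero)
  obtain ⟨ζ, hζ⟩ := hs2.exists_eval_eq_zero (by
    rw [degree_map]
    exact (degree_cyclotomic_pos q N hq.pos).ne')
  rw [map_cyclotomic] at hζ
  have hprim : IsPrimitiveRoot ζ q := isRoot_cyclotomic_iff.1 hζ
  have hk : κ ^ q = 2 := by
    rw [Polynomial.map_sub, Polynomial.map_pow, map_X, map_C, eval_sub, eval_pow, eval_X,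
      eval_C, map_ofNat] at hκ
    exact sub_eq_zero.1 hκ
  have hgal : IsGalois N N' := IsGalois.tower_top_of_isGalois ℚ N N'
  refine ⟨q, N', i1, i2, i3, i4, ζ, κ, hq, by omega, hprim, hk, ?_⟩
  exact hTRN N N' q ζ κ hq hirr (hKUI N N' q ζ hq (by omega) hprim) hprim hk

end StarkC
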