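import Pool.Agent.SSQ.StK

/-!
# SSQ, module BCF2: the field for the base change, generated by `N`, `ζ` and `κ`
-/

open NumberField IsDedekindDomain
open scoped TensorProduct Classical

namespace StarkC

/-- As the conclusion of BCF, and the field `N'` is generated by `N`, `ζ` and `κ` (in the form:
automorphisms which fix them are trivial). -/
def BaseG : Prop :=
  ∀ (N : Type) [Field N] [NumberField N] [IsGalois ℚ N] (B : ℕ),
    ∃ (q : ℕ) (N' : Type) (_ : Field N') (_ : NumberField N') (_ : Algebra N N')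
      (_ : IsGalois ℚ N') (ζ κ : N'), q.Prime ∧ B < q - 1 ∧ IsPrimitiveRoot ζ q ∧ κ ^ q = 2 ∧
      (∀ a b : ℕ, b.Coprime q → ∃ h : N' ≃ₐ[N] N', h ζ = ζ ^ b ∧ h κ = ζ ^ a * κ) ∧
      ∀ g : N' ≃ₐ[ℚ] N', (∀ z : N, g (algebraMap N N' z) = algebraMap N N' z) → g ζ = ζ →
        g κ = κ → g = 1

theorem BCF2_thm (hBCF : Stmt_BCF) (hCYI : SSQ.Stmt_CYI) (hKUI : SSQ.Stmt_KUI)
    (hTRN : SSQ.Stmt_TRN) (hUEXT : Stmt_UEXT) : BaseG := by
  intro N _ _ _ B
  obtain ⟨q, N₀, _, _, aN, gN, ζ, κ, hq, hBq, hζ, hκ, htr⟩ := hBCF hCYI hKUI hTRN hUEXT N B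
  have hqne : NeZero q := ⟨hq.ne_zero⟩
  have h2 : (2 : N₀) ≠ 0 := two_ne_zero
  have hκ0 : κ ≠ 0 := by
    rintro rfl
    rw [zero_pow hq.ne_zero] at hκ
    exact h2 hκ.symm
  -- the automorphisms act on `ζ` and `κ`
  have hact1 : ∀ g : N₀ ≃ₐ[ℚ] N₀, ∃ i : ℕ, g ζ = ζ ^ i := by
    intro g
    obtain ⟨i, _, hi⟩ := hζ.eq_pow_of_pow_eq_one (ξ := g ζ) (by
      rw [← map_pow, hζ.pow_eq_one, map_one])
    exact ⟨i, hi.symm⟩
  have hact2 : ∀ g : N₀ ≃ₐ[ℚ] N₀, ∃ i : ℕ, g κ = ζ ^ i * κ := by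
    intro g
    obtain ⟨i, _, hi⟩ := hζ.eq_pow_of_pow_eq_one (ξ := g κ / κ) (by
      rw [div_pow, ← map_pow, hκ, map_ofNat, div_self h2])
    exact ⟨i, by rw [hi, div_mul_cancel₀ _ hκ0]⟩
  have hact3 : ∀ (g : N₀ ≃ₐ[ℚ] N₀) (z : N), ∃ z' : N, g (algebraMap N N₀ z) =
      algebraMap N N₀ z' := by
    intro g z
    exact ⟨g.restrictNormal N z, (AlgEquiv.restrictNormal_commutes g N z).symm⟩
  -- the subgroup which fixes everything
  let Z : Subgroup (N₀ ≃ₐ[ℚ] N₀) :=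
    { carrier := {g | (∀ z : N, g (algebraMap N N₀ z) = algebraMap N N₀ z) ∧ g ζ = ζ ∧ g κ = κ}
      one_mem' := ⟨fun z => rfl, rfl, rfl⟩
      mul_mem' := fun {a b} ha hb => ⟨fun z => by
        rw [AlgEquiv.mul_apply, hb.1, ha.1], by rw [AlgEquiv.mul_apply, hb.2.1, ha.2.1], by
        rw [AlgEquiv.mul_apply, hb.2.2, ha.2.2]⟩
      inv_mem' := fun {a} ha => ⟨fun z => by
        conv_lhs => rw [← ha.1 z]
        exact AlgEquiv.symm_apply_apply a _, by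
        conv_lhs => rw [← ha.2.1]
        exact AlgEquiv.symm_apply_apply a _, by
        conv_lhs => rw [← ha.2.2]
        exact AlgEquiv.symm_apply_apply a _⟩ }
  have hZmem : ∀ g : N₀ ≃ₐ[ℚ] N₀, g ∈ Z ↔
      (∀ z : N, g (algebraMap N N₀ z) = algebraMap N N₀ z) ∧ g ζ = ζ ∧ g κ = κ := fun g => Iff.rfl
  have hZn : Z.Normal := by
    refine ⟨fun z hz g => ?_⟩
    have hz' := (hZmem z).1 hz
    have hinv : ∀ y : N₀, g (g⁻¹ y) = y := fun y => AlgEquiv.apply_symm_apply g y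
    rw [hZmem]
    refine ⟨fun y => ?_, ?_, ?_⟩
    · obtain ⟨y', hy'⟩ := hact3 g⁻¹ y
      rw [AlgEquiv.mul_apply, AlgEquiv.mul_apply, hy', hz'.1, ← hy', hinv]
    · obtain ⟨i, hi⟩ := hact1 g⁻¹
      rw [AlgEquiv.mul_apply, AlgEquiv.mul_apply, hi, map_pow, hz'.2.1, ← hi, hinv]
    · obtain ⟨i, hi⟩ := hact2 g⁻¹
      rw [AlgEquiv.mul_apply, AlgEquiv.mul_apply, hi, map_mul, map_pow, hz'.2.1, hz'.2.2, ← hi,
        hinv]
  let N' : IntermediateField ℚ N₀ := IntermediateField.fixedField Z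
  have hgal : IsGalois ℚ N' := IsGalois.of_fixedField_normal_subgroup Z
  have hmem : ∀ y : N₀, y ∈ N' ↔ ∀ g ∈ Z, g y = y := fun y =>
    IntermediateField.mem_fixedField_iff Z y
  let f : N →+* N' := (algebraMap N N₀).codRestrict N'.toSubfield.toSubring fun z =>
    (hmem _).2 fun g hg => ((hZmem g).1 hg).1 z
  let aN' : Algebra N N' := f.toAlgebra
  have tow : IsScalarTower N N' N₀ := IsScalarTower.of_algebraMap_eq fun z => rfl
  have hgalN : IsGalois N N' := IsGalois.tower_top_of_isGalois ℚ N N'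
  have hζ' : ζ ∈ N' := (hmem _).2 fun g hg => ((hZmem g).1 hg).2.1
  have hκ' : κ ∈ N' := (hmem _).2 fun g hg => ((hZmem g).1 hg).2.2
  refine ⟨q, N', inferInstance, inferInstance, aN', hgal, ⟨ζ, hζ'⟩, ⟨κ, hκ'⟩, hq, hBq, ?_, ?_, ?_,
    ?_⟩
  · exact IsPrimitiveRoot.of_map_of_injective (f := algebraMap N' N₀) hζ
      (algebraMap N' N₀).injective
  · exact Subtype.ext hκ
  · intro a b hb
    obtain ⟨h, h3, h4⟩ := htr a b hb
    refine ⟨AlgEquiv.restrictNormal h N', ?_, ?_⟩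
    · apply (algebraMap N' N₀).injective
      rw [AlgEquiv.restrictNormal_commutes]
      exact h3
    · apply (algebraMap N' N₀).injective
      rw [AlgEquiv.restrictNormal_commutes]
      exact h4
  · intro g hg1 hg2 hg3
    obtain ⟨g₀, hg₀⟩ := AlgEquiv.restrictNormalHom_surjective (F := ℚ) (K₁ := N') N₀ g
    have hcomm : ∀ y : N', g₀ (y : N₀) = ((g y : N') : N₀) := by
      intro y
      have h5 := AlgEquiv.restrictNormal_commutes g₀ N' y
      rw [← hg₀]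
      exact h5.symm
    have hgZ : g₀ ∈ Z := by
      rw [hZmem]
      refine ⟨fun z => ?_, ?_, ?_⟩
      · have h5 := hcomm (algebraMap N N' z)
        rw [hg1] at h5
        exact h5
      · have h5 := hcomm ⟨ζ, hζ'⟩
        rw [hg2] at h5
        exact h5
      · have h5 := hcomm ⟨κ, hκ'⟩
        rw [hg3] at h5
        exact h5
    ext y
    have h6 := (hmem _).1 y.2 g₀ hgZ
    rw [hcomm y] at h6
    rw [h6]
    rfl

end StarkC
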