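import Pool.Agent.SSQ.BCX
import Pool.Agent.SSQ.BCF2

/-!
# SSQ, module BCX2: base change, three good characters of large degree, abelian over the new fields
-/

open NumberField IsDedekindDomain
open scoped TensorProduct Classical

namespace StarkC

/-- As `BaseU`, and the subgroups `A r` are commutative. -/
def BaseV (T : Finset ℕ) (F N : Type) [Field F] [NumberField F] [Field N] [NumberField N]
    [Algebra F N] (ψ : (N ≃ₐ[F] N) →* ℂˣ) (B : ℕ) : Prop :=
  ∃ (N' : Type) (_ : Field N') (_ : NumberField N') (_ : Algebra N N') (_ : Algebra F N')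
    (_ : IsScalarTower F N N') (_ : IsGalois ℚ N') (_ : IsGalois F N') (q : ℕ)
    (A : Fin 3 → Subgroup (N' ≃ₐ[F] N')) (ψA : ∀ r, A r →* ℂˣ), 2 ≤ q ∧
    (∀ r (h : A r) (g : N ≃ₐ[F] N),
      (∀ z : N, (h : N' ≃ₐ[F] N') (algebraMap N N' z) = algebraMap N N' (g z)) →
      ψA r h = ψ g) ∧
    (∀ r, B ≤ Module.finrank ℚ (IntermediateField.fixedField (A r))) ∧
    (∀ r, GoodChar T (liftChar (A r) (ψA r))) ∧
    (∀ g : N' ≃ₐ[F] N', (q - 1 : ℂ) * indFun (A 0) (fun _ => 1) g +
      indFun (A 1) (fun _ => 1) g - indFun (A 2) (fun _ => 1) g = (q - 1 : ℂ)) ∧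
    ∀ r (a b : N' ≃ₐ[F] N'), a ∈ A r → b ∈ A r → a * b = b * a

open SSQBCX in
theorem BCX2_thm (hBCF : BaseG) (hIDN : SSQ.Stmt_IDN) (hDGQ : SSQ.Stmt_DGQ) (T : Finset ℕ)
    (F N : Type) [Field F] [NumberField F] [Field N] [NumberField N]
    [Algebra F N] [IsGalois F N] [IsGalois ℚ N] (ψ : (N ≃ₐ[F] N) →* ℂˣ) (hψ : GoodChar T ψ)
    (hcomm : ∀ a b : N ≃ₐ[F] N, a * b = b * a) (B : ℕ) : BaseV T F N ψ B := by
  obtain ⟨q, N', _, _, _, _, ζ, κ, hq, hBq, hζ, hκ, htr, hgen⟩ := hBCF N B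
  haveI : Fact q.Prime := ⟨hq⟩
  haveI : NeZero q := ⟨hq.ne_zero⟩
  letI : Algebra F N' := ((algebraMap N N').comp (algebraMap F N)).toAlgebra
  haveI : IsScalarTower F N N' := IsScalarTower.of_algebraMap_eq (fun _ => rfl)
  haveI : IsGalois F N' := IsGalois.tower_top_of_isGalois ℚ F N'
  have h2 : (2 : N') ≠ 0 := two_ne_zero
  -- transitivity on the pairs of exponents, over `N`
  have hsur : ∀ (s : ZMod q) (t : (ZMod q)ˣ), ∃ h : N' ≃ₐ[N] N',
      aa (F := F) hζ hκ h2 (h.restrictScalars F) = s ∧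
        hζ.autToPow F (h.restrictScalars F) = t := by
    intro s t
    obtain ⟨h, hh1, hh2⟩ := htr s.val (t : ZMod q).val (ZMod.val_coe_unit_coprime t)
    refine ⟨h, ?_, ?_⟩
    · rw [aa_eq hζ hκ h2 (h.restrictScalars F) s.val hh2, ZMod.natCast_zmod_val]
    · apply Units.ext
      rw [bb_eq hζ (h.restrictScalars F) (t : ZMod q).val hh1, ZMod.natCast_zmod_val]
  let A0 : Subgroup (N' ≃ₐ[F] N') := MulAction.stabilizer (N' ≃ₐ[F] N') κ
  let A1 : Subgroup (N' ≃ₐ[F] N') := MulAction.stabilizer (N' ≃ₐ[F] N') ζ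
  have hA0 : ∀ g, g ∈ A0 ↔ aa (F := F) hζ hκ h2 g = 0 := by
    intro g
    rw [aa_zero_iff]
    exact Iff.rfl
  have hA1 : ∀ g, g ∈ A1 ↔ hζ.autToPow F g = 1 := by
    intro g
    rw [bb_one_iff]
    exact Iff.rfl
  have hA2 : ∀ g, g ∈ A0 ⊓ A1 ↔ aa (F := F) hζ hκ h2 g = 0 ∧ hζ.autToPow F g = 1 := by
    intro g
    rw [Subgroup.mem_inf, hA0, hA1]
  -- `A0 ⊓ A1` maps onto `Gal(N/F)`
  have hlift : ∀ g : N ≃ₐ[F] N, ∃ h ∈ A0 ⊓ A1,
      (AlgEquiv.restrictNormalHom N (h : N' ≃ₐ[F] N') : N ≃ₐ[F] N) = g := by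
    intro g
    obtain ⟨h₁, hh₁⟩ := AlgEquiv.restrictNormalHom_surjective (F := F) (K₁ := N) N' g
    obtain ⟨h₂, hh₂, hh₃⟩ := hsur
      (-(((hζ.autToPow F h₁)⁻¹ : (ZMod q)ˣ) : ZMod q) * aa (F := F) hζ hκ h2 h₁)
      (hζ.autToPow F h₁)⁻¹
    refine ⟨h₁ * h₂.restrictScalars F, ?_, ?_⟩
    · rw [hA2]
      constructor
      · rw [aa_mul, hh₂, neg_mul, mul_neg, ← mul_assoc, Units.mul_inv, one_mul, add_neg_cancel]
      · rw [map_mul, hh₃, mul_inv_cancel]
    · rw [map_mul, hh₁]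
      have h3 : (AlgEquiv.restrictNormalHom N (h₂.restrictScalars F) : N ≃ₐ[F] N) = 1 := by
        ext z
        apply (algebraMap N N').injective
        have h4 := AlgEquiv.restrictNormal_commutes (h₂.restrictScalars F) N z
        show algebraMap N N' ((h₂.restrictScalars F).restrictNormal N z) = algebraMap N N' z
        rw [h4]
        exact h₂.commutes z
      rw [h3, mul_one]
  let A : Fin 3 → Subgroup (N' ≃ₐ[F] N') := ![A0, A1, A0 ⊓ A1]
  have hA2le : ∀ r, A0 ⊓ A1 ≤ A r := by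
    intro r
    fin_cases r
    · exact inf_le_left
    · exact inf_le_right
    · exact le_refl _
  have hz : ∀ r, ∃ z : N', (z ^ q = 2 ∨ IsPrimitiveRoot z q) ∧ ∀ h ∈ A r, h z = z := by
    intro r
    fin_cases r
    · exact ⟨κ, Or.inl hκ, fun h hh => hh⟩
    · exact ⟨ζ, Or.inr hζ, fun h hh => hh⟩
    · exact ⟨κ, Or.inl hκ, fun h hh => (Subgroup.mem_inf.1 hh).1⟩
  refine ⟨N', inferInstance, inferInstance, inferInstance, inferInstance, inferInstance,
    inferInstance, inferInstance, q, A, fun r => (ψ.comp (AlgEquiv.restrictNormalHom N :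
      (N' ≃ₐ[F] N') →* (N ≃ₐ[F] N))).comp (A r).subtype, hq.two_le, ?_, ?_, ?_, ?_, ?_⟩
  · intro r h g hg
    show ψ (AlgEquiv.restrictNormalHom N (h : N' ≃ₐ[F] N')) = ψ g
    congr 1
    ext z
    apply (algebraMap N N').injective
    rw [← hg z]
    exact AlgEquiv.restrictNormal_commutes (h : N' ≃ₐ[F] N') N z
  · intro r
    obtain ⟨z, hz1, hz2⟩ := hz r
    have hmem : z ∈ IntermediateField.fixedField (A r) := by
      rw [IntermediateField.mem_fixedField_iff]
      exact hz2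
    have h3 := hDGQ (IntermediateField.fixedField (A r)) q ⟨z, hmem⟩ hq (by
      rcases hz1 with h | h
      · left
        apply Subtype.ext
        exact h
      · right
        exact IsPrimitiveRoot.of_map_of_injective
          (f := algebraMap (IntermediateField.fixedField (A r)) N') h
          (algebraMap (IntermediateField.fixedField (A r)) N').injective)
    omega
  · intro r
    apply good_of T (A r) ψ hψ
    intro g
    obtain ⟨h, hh, hh'⟩ := hlift g
    exact ⟨⟨h, hA2le r hh⟩, hh'⟩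
  · intro g
    rw [indFun_one, indFun_one, indFun_one]
    exact hIDN (N' ≃ₐ[F] N') q (hζ.autToPow F) (aa (F := F) hζ hκ h2) A0 A1 (A0 ⊓ A1)
      (aa_mul hζ hκ h2) (fun s t => by
        obtain ⟨h, hh⟩ := hsur s t
        exact ⟨_, hh⟩) hA0 hA1 hA2 g
  · -- commutativity
    have hN : ∀ (a b : N' ≃ₐ[F] N') (z : N), (a * b) (algebraMap N N' z) =
        (b * a) (algebraMap N N' z) := by
      intro a b z
      have h3 := AlgEquiv.restrictNormal_commutes (a * b) N z
      have h4 := AlgEquiv.restrictNormal_commutes (b * a) N z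
      rw [← h3, ← h4]
      have h5 : (a * b).restrictNormal N = (b * a).restrictNormal N := by
        show AlgEquiv.restrictNormalHom N (a * b) = AlgEquiv.restrictNormalHom N (b * a)
        rw [map_mul, map_mul, hcomm]
      rw [h5]
    have hz1 : ∀ a b : N' ≃ₐ[F] N', (a * b) ζ = (b * a) ζ := by
      intro a b
      rw [AlgEquiv.mul_apply, AlgEquiv.mul_apply, bb_spec hζ b, map_pow, bb_spec hζ a, map_pow,
        bb_spec hζ b, ← pow_mul, ← pow_mul, mul_comm]
    have key : ∀ a b : N' ≃ₐ[F] N', (a * b) κ = (b * a) κ → a * b = b * a := by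
      intro a b hab
      have h6 : ((b * a)⁻¹ * (a * b)).restrictScalars ℚ = (1 : N' ≃ₐ[ℚ] N') := by
        have h7 : ∀ y : N', (a * b) y = (b * a) y → ((b * a)⁻¹ * (a * b)) y = y := by
          intro y hy
          rw [AlgEquiv.mul_apply, hy]
          exact AlgEquiv.symm_apply_apply (b * a) y
        exact hgen _ (fun z => h7 _ (hN a b z)) (h7 _ (hz1 a b)) (h7 _ hab)
      have h8 : (b * a)⁻¹ * (a * b) = 1 := by
        ext y
        exact DFunLike.congr_fun h6 y
      have h9 : b * a = a * b := inv_mul_eq_one.1 h8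
      exact h9.symm
    have k0 : ∀ a b : N' ≃ₐ[F] N', a ∈ A0 → b ∈ A0 → a * b = b * a := by
      intro a b ha hb
      refine key a b ?_
      rw [AlgEquiv.mul_apply, AlgEquiv.mul_apply, show b κ = κ from hb, show a κ = κ from ha,
        show b κ = κ from hb]
    have k1 : ∀ a b : N' ≃ₐ[F] N', a ∈ A1 → b ∈ A1 → a * b = b * a := by
      intro a b ha hb
      have ha' : a ζ = ζ := ha
      have hb' : b ζ = ζ := hb
      refine key a b ?_
      rw [AlgEquiv.mul_apply, AlgEquiv.mul_apply, aa_spec hζ hκ h2 b, aa_spec hζ hκ h2 a, map_mul,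
        map_mul, map_pow, map_pow, ha', hb', aa_spec hζ hκ h2 a, aa_spec hζ hκ h2 b, ← mul_assoc,
        ← mul_assoc, ← pow_add, ← pow_add, add_comm]
    intro r a b ha hb
    fin_cases r
    · exact k0 a b ha hb
    · exact k1 a b ha hb
    · exact k0 a b (Subgroup.mem_inf.1 ha).1 (Subgroup.mem_inf.1 hb).1

end StarkC
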