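import Pool.Agent.SSQ.StK

/-!
# SSQ, module DEC2: decomposition of a character at one level, cyclic subgroups
-/

open NumberField IsDedekindDomain
open scoped TensorProduct Classical

namespace StarkC

/-- The decomposition at one level, with cyclic subgroups in type (A). -/
def DecU2 : Prop :=
  ∀ (L : Type) [Field L] [NumberField L] [IsGalois ℚ L] (T : Finset ℕ) (n : ℕ), 0 < n →
    ∀ χ : (L ≃ₐ[ℚ] L) → ℂ, χ ∈ SpanQ (G := L ≃ₐ[ℚ] L) (fun _ _ => True) →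
    (∀ g, χ g ∈ Cyc n) →
    ∃ (N : Type) (_ : Field N) (_ : NumberField N) (_ : Algebra L N) (_ : IsGalois ℚ N),
      (fun g : N ≃ₐ[ℚ] N => χ (AlgEquiv.restrictNormalHom L g)) ∈
        SpanQ (G := N ≃ₐ[ℚ] N) (fun H ψ => (IsCyclic H ∧ TypeU T n H ψ) ∨ TypeBn n H ψ)

theorem DEC2_thm : Stmt_UALGN → Stmt_NIB → Stmt_UART → Stmt_UINFL → Stmt_CYCI → Stmt_CJA →
    Stmt_TAR → DecU2 := by
  intro hUALGN hNIB hART hINFL hCYCI hCJA hTAR L _ _ _ T n hn χ hχ hval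
  obtain ⟨M, _, _, _, _, hM⟩ := hUALGN L (T ∪ n.primeFactors) n hn χ hχ hval
  obtain ⟨N, _, _, _, _, hN⟩ := hNIB M (T ∪ n.primeFactors) n hn
    (fun p hp hpn => Finset.mem_union_right _ (Nat.mem_primeFactors.2 ⟨hp, hpn, hn.ne'⟩))
  let aLN : Algebra L N := ((algebraMap M N).comp (algebraMap L M)).toAlgebra
  have t1 : IsScalarTower L M N := IsScalarTower.of_algebraMap_eq fun x => rfl
  refine ⟨N, inferInstance, inferInstance, aLN, inferInstance, ?_⟩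
  have h1 := hINFL (N ≃ₐ[ℚ] N) (M ≃ₐ[ℚ] M) (AlgEquiv.restrictNormalHom M) _ _
    (AlgEquiv.restrictNormalHom_surjective N) hM
  have h2 : (fun g : N ≃ₐ[ℚ] N => χ (AlgEquiv.restrictNormalHom L g)) =
      (fun g : N ≃ₐ[ℚ] N => χ (AlgEquiv.restrictNormalHom L
        (AlgEquiv.restrictNormalHom M g : M ≃ₐ[ℚ] M))) := by
    funext g
    rw [UALG.res12 (N₁ := L) (N₂ := M)]
  rw [h2]
  refine UNTH.spanQ_le ?_ h1
  rintro H' ψ' ⟨H, ψ, hP, rfl, hψ⟩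
  rcases hP with ⟨-, hA, hψn⟩ | ⟨hB, hv⟩
  · refine UNTH.spanQ_le ?_ (hCYCI hART (N ≃ₐ[ℚ] N)
      (H.comap (AlgEquiv.restrictNormalHom M)) ψ')
    rintro B μ ⟨hcyc, x, hx⟩
    obtain ⟨C', ν', hA', hC'⟩ := hCJA M (T ∪ n.primeFactors) H ψ
      (AlgEquiv.restrictNormalHom M x) hA
    have hval' : ∀ b : B, ∃ h : (AlgEquiv.restrictNormalHom M x : M ≃ₐ[ℚ] M)⁻¹ *
        AlgEquiv.restrictNormalHom M (b : N ≃ₐ[ℚ] N) * AlgEquiv.restrictNormalHom M x ∈ H,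
        μ b = ψ ⟨_, h⟩ := by
      intro b
      obtain ⟨c, hc, hμ⟩ := hx b
      have h5 : (AlgEquiv.restrictNormalHom M x : M ≃ₐ[ℚ] M)⁻¹ *
          AlgEquiv.restrictNormalHom M (b : N ≃ₐ[ℚ] N) * AlgEquiv.restrictNormalHom M x =
          AlgEquiv.restrictNormalHom M (c : N ≃ₐ[ℚ] N) := by
        rw [hc, map_mul, map_mul, map_inv]
      have h6 : (AlgEquiv.restrictNormalHom M x : M ≃ₐ[ℚ] M)⁻¹ *
          AlgEquiv.restrictNormalHom M (b : N ≃ₐ[ℚ] N) * AlgEquiv.restrictNormalHom M x ∈ H := by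
        rw [h5]
        exact c.2
      exact ⟨h6, by rw [hμ]; exact hψ c ⟨_, h6⟩ h5⟩
    have key : ∀ b : B, ∃ c : C',
        AlgEquiv.restrictNormalHom M (b : N ≃ₐ[ℚ] N) = (c : M ≃ₐ[ℚ] M) ∧ μ b = ν' c := by
      intro b
      obtain ⟨h6, h7⟩ := hval' b
      obtain ⟨h', h8⟩ := hC' _ h6
      exact ⟨⟨_, h'⟩, rfl, by rw [h7, h8]⟩
    have hμn : μ ^ n = 1 := by
      refine MonoidHom.ext fun b => ?_
      obtain ⟨h6, h7⟩ := hval' b
      rw [MonoidHom.pow_apply, h7, ← MonoidHom.pow_apply, hψn]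
      rfl
    have hT' := hTAR M N (T ∪ n.primeFactors) C' ν' B μ hA' key
    exact Submodule.subset_span ⟨B, μ, Or.inl ⟨hcyc, ⟨hT'.1, hT'.2.1, fun W h hT =>
      hT'.2.2 W h (UALG.aboveT_mono Finset.subset_union_left hT)⟩, hμn,
      hN B μ C' ν' hcyc hA' hμn key⟩, rfl⟩
  · refine Submodule.subset_span ⟨_, ψ', Or.inr ⟨?_, ?_⟩, rfl⟩
    · intro c hc
      obtain ⟨h3, h4⟩ := hB _ (UALG.cc_restrict (L := M) hc)
      refine ⟨h3, ?_⟩
      rw [hψ ⟨c, h3⟩ ⟨_, h3⟩ rfl]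
      exact h4
    · intro h
      rw [hψ h ⟨_, h.2⟩ rfl]
      exact hv _

end StarkC
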