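import Pool.Agent.SSQ.MAIN
import Pool.Agent.SSQ.BCX2
import Pool.Agent.SSQ.PDefsE

/-!
# SSQ, module OUT2: the three extensions of a good pair with a cyclic group
-/

open NumberField IsDedekindDomain
open scoped TensorProduct Classical

namespace StarkC

namespace SSQM

/-- As `out1`, with a field `N` Galois over `ℚ`, abelian over `F`. -/
theorem out1' (h : SSQIn) (T : Finset ℕ) (F N : Type) [Field F] [NumberField F] [Field N]
    [NumberField N] [Algebra F N] [IsGalois F N] [IsGalois ℚ N]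
    (hcomm : ∀ a b : N ≃ₐ[F] N, a * b = b * a) (ψ : (N ≃ₐ[F] N) →* ℂˣ) (hg : GoodChar T ψ) :
    ∃ X : Ext, StarkW.GoodPair T X.K X.L ∧ Module.finrank ℚ X.K = Module.finrank ℚ F ∧
      (∀ (E : Type) [Field E], Nonempty (E →+* N) → StarkW.InAbelian E X.K X.L) ∧
      (∀ (n : ℕ) (σ : ℂ ≃+* ℂ), ψ ^ n = 1 → StarkW.StarkFaithful n σ X.K X.L →
        StarkAllS σ F N ψ) ∧
      ∀ (n : ℕ) (G : Subgroup ℂˣ), StarkG.Full n G → ψ ^ n = 1 → Fai G n X.K X.L →
        GAllS G F N ψ := by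
  obtain ⟨L, _, _, _, _, _, _, ψ', hinj, hψ', hp⟩ := h.fld h.bas F N T ψ hg
  refine ⟨⟨F, L⟩, hp, rfl, fun E _ hE => ⟨N, inferInstance, inferInstance, inferInstance,
    inferInstance, inferInstance, inferInstance, hcomm, hE⟩,
    fun n σ hn hf => h.fup n σ F L N ψ' ψ hinj hψ' hn hf, ?_⟩
  intro n G hG hn hf S T' hT φ Θ hφ
  refine StarkG.up hG F L N ψ' (hf ψ' hinj ?_) ψ (StarkG.cyc_of_pow ψ hn) hψ' S T' hT φ Θ hφ
  refine MonoidHom.ext fun a => ?_
  obtain ⟨g, rfl⟩ := AlgEquiv.restrictNormalHom_surjective (F := F) (K₁ := L) N a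
  rw [MonoidHom.pow_apply, hψ', ← MonoidHom.pow_apply, hn]
  rfl

/-- The Galois group over a fixed field of a commutative subgroup is commutative. -/
theorem comm_fixed {F N : Type} [Field F] [Field N] [Algebra F N] [FiniteDimensional F N]
    [IsGalois F N] (A : Subgroup (N ≃ₐ[F] N))
    (hA : ∀ a b : N ≃ₐ[F] N, a ∈ A → b ∈ A → a * b = b * a)
    (a b : N ≃ₐ[IntermediateField.fixedField A] N) : a * b = b * a := by
  have h1 : ∀ x : N ≃ₐ[IntermediateField.fixedField A] N, ∃ y : A,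
      x = IntermediateField.subgroupEquivAlgEquiv A y := fun x =>
    ⟨(IntermediateField.subgroupEquivAlgEquiv A).symm x, (MulEquiv.apply_symm_apply _ _).symm⟩
  obtain ⟨a', rfl⟩ := h1 a
  obtain ⟨b', rfl⟩ := h1 b
  rw [← map_mul, ← map_mul]
  congr 1
  exact Subtype.ext (hA a' b' a'.2 b'.2)

/-- The three extensions of a good pair with a cyclic group. -/
theorem out2 (h : SSQIn) (T : Finset ℕ) (N : Type) [Field N] [NumberField N] [IsGalois ℚ N]
    (H : Subgroup (N ≃ₐ[ℚ] N)) (hH : IsCyclic H) (ψ : H →* ℂˣ) (hA : TypeA T H ψ)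
    (hN : NIBg H ψ) (B : ℕ) :
    ∃ X : Fin 3 → Ext,
      (∀ r, StarkW.GoodPair T (X r).K (X r).L ∧ B ≤ Module.finrank ℚ (X r).K ∧
        ∀ (E : Type) [Field E], Nonempty (E →+* N) → StarkW.InAbelian E (X r).K (X r).L) ∧
      (∀ (n : ℕ) (σ : ℂ ≃+* ℂ), ψ ^ n = 1 →
        (∀ r, StarkW.StarkFaithful n σ (X r).K (X r).L) →
        StarkAllS σ (IntermediateField.fixedField H) N (liftChar H ψ)) ∧
      ∀ (n : ℕ) (G : Subgroup ℂˣ), StarkG.Full n G → ψ ^ n = 1 →
        (∀ r, Fai G n (X r).K (X r).L) →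
        GAllS G (IntermediateField.fixedField H) N (liftChar H ψ) := by
  have g := h.gch N T H ψ hA hN
  have hcN : ∀ a b : N ≃ₐ[IntermediateField.fixedField H] N, a * b = b * a := by
    refine comm_fixed H fun a b ha hb => ?_
    have h1 := hH.commGroup.mul_comm (⟨a, ha⟩ : H) ⟨b, hb⟩
    exact congrArg Subtype.val h1
  obtain ⟨N', _, _, aN, aF, st, gQ, gF, q, A, ψA, hq, hψA, hdeg, hgood, hid, hcomm⟩ :=
    BCX2_thm (BCF2_thm h.bcf h.cyi h.kui h.trn UEXT_thm) h.idn h.dgq T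
      (IntermediateField.fixedField H) N (liftChar H ψ) g hcN B
  choose X hX1 hX2 hX5 hX3 hX4 using fun r => out1' h T (IntermediateField.fixedField (A r)) N'
    (comm_fixed (A r) (hcomm r)) (liftChar (A r) (ψA r)) (hgood r)
  have hpow : ∀ n : ℕ, ψ ^ n = 1 → ∀ r, (liftChar (A r) (ψA r)) ^ n = 1 := by
    intro n hn r
    refine liftChar_pow (A r) (ψA r) (MonoidHom.ext fun a => ?_)
    have h1 := hψA r a (AlgEquiv.restrictNormalHom N (a : N' ≃ₐ[IntermediateField.fixedField H] N'))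
      (fun z => (AlgEquiv.restrictNormal_commutes _ N z).symm)
    rw [MonoidHom.pow_apply, h1, ← MonoidHom.pow_apply, liftChar_pow H ψ hn]
    rfl
  refine ⟨X, fun r => ⟨hX1 r, by rw [hX2 r]; exact hdeg r, fun E _ hE => hX5 r E ?_⟩,
    fun n σ hn hf => ?_, fun n G hG hn hf => ?_⟩
  · obtain ⟨ι⟩ := hE
    exact ⟨(algebraMap N N').comp ι⟩
  · exact h.sbc σ (IntermediateField.fixedField H) N N' (liftChar H ψ) q A ψA hq hψA hid
      fun r => hX3 r n σ (hpow n hn r) (hf r)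
  · exact h.sbcg G (IntermediateField.fixedField H) N N' (liftChar H ψ) q A ψA hq hψA hid
      fun r => hX4 r n G hG (hpow n hn r) (hf r)

end SSQM

end StarkC
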