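import Pool.Agent.SSQ.TAIL
import Pool.Agent.SSQ.DEC2
import Pool.Agent.SSQ.COMB
import Pool.Agent.SSQ.PDefsE

/-!
# One sequence for all finite sets of primes and all number fields; sparse sets of indices suffice

Project SSQ (MP_46b841_nt).
-/

open NumberField IsDedekindDomain Filter
open scoped TensorProduct Classical

namespace StarkC.SSQM

/-- The three extensions of a good pair with cyclic group. -/
def Out2 : Prop :=
  ∀ (T : Finset ℕ) (N : Type) [Field N] [NumberField N] [IsGalois ℚ N]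
    (H : Subgroup (N ≃ₐ[ℚ] N)) (ψ : H →* ℂˣ), IsCyclic H → TypeA T H ψ → NIBg H ψ → ∀ B : ℕ,
    ∃ X : Fin 3 → Ext,
      (∀ r, StarkW.GoodPair T (X r).K (X r).L ∧ B ≤ Module.finrank ℚ (X r).K ∧
        StarkW.InAbelian N (X r).K (X r).L) ∧
      (∀ (n : ℕ) (σ : ℂ ≃+* ℂ), ψ ^ n = 1 →
        (∀ r, StarkW.StarkFaithful n σ (X r).K (X r).L) →
        StarkAllS σ (IntermediateField.fixedField H) N (liftChar H ψ)) ∧
      ∀ (n : ℕ) (G : Subgroup ℂˣ), StarkG.Full n G → ψ ^ n = 1 →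
        (∀ r, Fai G n (X r).K (X r).L) →
        GAllS G (IntermediateField.fixedField H) N (liftChar H ψ)

/-! ### Levels -/

theorem typeU_bot (T : Finset ℕ) (n : ℕ) (M : Type) [Field M] [NumberField M] (i : M)
    (hi : i ^ 2 = -1) : TypeU T n (⊥ : Subgroup (M ≃ₐ[ℚ] M)) 1 := by
  refine ⟨⟨fun c hc => ?_, fun _ _ _ => rfl, fun _ _ _ _ => rfl⟩, ?_, ?_⟩
  · rw [Subgroup.mem_bot] at hc
    subst hc
    rintro ⟨Φ, hΦ⟩
    have h1 : (starRingEnd ℂ) (Φ i) = Φ i := by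
      have := RingHom.congr_fun hΦ i
      exact this
    have h2 : Φ i ^ 2 = -1 := by rw [← map_pow, hi, map_neg, map_one]
    have h3 : (Φ i).im = 0 := Complex.conj_eq_iff_im.1 h1
    have h4 := congrArg Complex.re h2
    rw [pow_two, Complex.mul_re, h3] at h4
    simp only [mul_zero, sub_zero, Complex.neg_re, Complex.one_re] at h4
    nlinarith [mul_self_nonneg (Φ i).re]
  · refine MonoidHom.ext fun g => ?_
    rw [MonoidHom.pow_apply, MonoidHom.one_apply, one_pow]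
  · refine ⟨1, 1, 1, isIntegral_one, isIntegral_one, fun h => ⟨0, rfl⟩, fun h _ => ?_,
      fun m => ?_⟩
    · exact ⟨map_one _, map_one _⟩
    · rw [orderOf_one, Finset.sum_range_one, if_pos (one_dvd m)]
      simp

/-- A level above `L`, the first fields of the sequence and a square root of `-1`. -/
theorem big (N : ℕ → Type) [∀ k, Field (N k)] [∀ k, NumberField (N k)] (L : Type) [Field L]
    [NumberField L] [IsGalois ℚ L] (s : ℕ) :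
    ∃ (M : Lev) (_ : Algebra L M.N), (∃ i : M.N, i ^ 2 = -1) ∧
      ∀ l ≤ s, Nonempty (N l →+* M.N) := by
  induction s with
  | zero =>
    obtain ⟨N₁, _, _, -, a1, a2, _, -, -⟩ := UCOMP_thm ℚ L (CyclotomicField 4 ℚ)
    obtain ⟨N₂, _, _, -, b1, b2, _, -, -⟩ := UCOMP_thm ℚ N₁ (N 0)
    refine ⟨⟨N₂⟩, ((algebraMap N₁ N₂).comp (algebraMap L N₁)).toAlgebra, ?_, fun l hl => ?_⟩
    · obtain ⟨z, hz⟩ : ∃ z : CyclotomicField 4 ℚ, IsPrimitiveRoot z 4 :=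
        (CyclotomicField.isCyclotomicExtension 4 ℚ).exists_isPrimitiveRoot
          (Set.mem_singleton 4) (by norm_num)
      let ι : CyclotomicField 4 ℚ →+* N₂ :=
        (algebraMap N₁ N₂).comp (algebraMap (CyclotomicField 4 ℚ) N₁)
      refine ⟨ι z, ?_⟩
      have h4 := hz.pow_eq_one
      have h2 : z ^ 2 ≠ 1 := hz.pow_ne_one_of_pos_of_lt two_ne_zero (by norm_num)
      have h3 : (z ^ 2 - 1) * (z ^ 2 + 1) = 0 := by
        linear_combination h4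
      rcases mul_eq_zero.1 h3 with h5 | h5
      · exact absurd (sub_eq_zero.1 h5) h2
      · rw [← map_pow, eq_neg_of_add_eq_zero_left h5, map_neg, map_one]
    · obtain rfl : l = 0 := by omega
      exact ⟨algebraMap (N 0) N₂⟩
  | succ s ih =>
    obtain ⟨M, aM, ⟨i, hi⟩, hM⟩ := ih
    obtain ⟨N₂, _, _, -, b1, b2, _, -, -⟩ := UCOMP_thm ℚ M.N (N (s + 1))
    refine ⟨⟨N₂⟩, ((algebraMap M.N N₂).comp (algebraMap L M.N)).toAlgebra,
      ⟨algebraMap M.N N₂ i, ?_⟩, fun l hl => ?_⟩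
    · rw [← map_pow, hi, map_neg, map_one]
    · rcases Nat.lt_or_ge s l with h | h
      · obtain rfl : l = s + 1 := by omega
        exact ⟨algebraMap (N (s + 1)) N₂⟩
      · obtain ⟨f⟩ := hM l h
        exact ⟨(algebraMap M.N N₂).comp f⟩

/-- One task at stage `s`. -/
theorem stage2 (hdec : DecU2) (N : ℕ → Type) [∀ k, Field (N k)] [∀ k, NumberField (N k)]
    [∀ k, IsGalois ℚ (N k)] (T : Finset ℕ) (s : ℕ) (t : Task N) :
    ∃ (M : Lev) (_ : Algebra (N t.1) M.N), (∃ i : M.N, i ^ 2 = -1) ∧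
      (∀ l ≤ s, Nonempty (N l →+* M.N)) ∧ (0 < t.2.1 → (∀ g, t.2.2.1 g ∈ Cyc t.2.1) →
      (fun g : M.N ≃ₐ[ℚ] M.N => t.2.2.1 (AlgEquiv.restrictNormalHom (N t.1) g)) ∈
        SpanQ (G := M.N ≃ₐ[ℚ] M.N)
          (fun H ψ => (IsCyclic H ∧ TypeU T t.2.1 H ψ) ∨ TypeBn t.2.1 H ψ)) := by
  obtain ⟨M₁, aM, ⟨i, hi⟩, hM₁⟩ := big N (N t.1) s
  by_cases hc : 0 < t.2.1 ∧ ∀ g, t.2.2.1 g ∈ Cyc t.2.1
  · have h1 : (fun g : M₁.N ≃ₐ[ℚ] M₁.N => t.2.2.1 (AlgEquiv.restrictNormalHom (N t.1) g)) ∈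
        SpanQ (G := M₁.N ≃ₐ[ℚ] M₁.N) (fun _ _ => True) :=
      spanQ_true (UINFL_thm (M₁.N ≃ₐ[ℚ] M₁.N) (N t.1 ≃ₐ[ℚ] N t.1)
        (AlgEquiv.restrictNormalHom (N t.1)) t.2.2.1 (fun _ _ => True)
        (AlgEquiv.restrictNormalHom_surjective (F := ℚ) (K₁ := N t.1) M₁.N) t.2.2.2)
    obtain ⟨N₁, _, _, aN, _, hN⟩ := hdec M₁.N T t.2.1 hc.1 _ h1 (fun g => hc.2 _)
    let a1 : Algebra (N t.1) N₁ := ((algebraMap M₁.N N₁).comp (algebraMap (N t.1) M₁.N)).toAlgebra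
    have t1 : IsScalarTower (N t.1) M₁.N N₁ := IsScalarTower.of_algebraMap_eq fun x => rfl
    refine ⟨⟨N₁⟩, a1, ⟨algebraMap M₁.N N₁ i, ?_⟩, fun l hl => ?_, fun _ _ => ?_⟩
    · rw [← map_pow, hi, map_neg, map_one]
    · obtain ⟨f⟩ := hM₁ l hl
      exact ⟨(algebraMap M₁.N N₁).comp f⟩
    · have hres : (fun g : N₁ ≃ₐ[ℚ] N₁ => t.2.2.1 (AlgEquiv.restrictNormalHom (N t.1) g)) =
          fun g : N₁ ≃ₐ[ℚ] N₁ => t.2.2.1 (AlgEquiv.restrictNormalHom (N t.1)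
            (AlgEquiv.restrictNormalHom M₁.N g : M₁.N ≃ₐ[ℚ] M₁.N)) := by
        funext g
        rw [UALG.res12 (N₁ := N t.1)]
      show (fun g : N₁ ≃ₐ[ℚ] N₁ => t.2.2.1 (AlgEquiv.restrictNormalHom (N t.1) g)) ∈ _
      rw [hres]
      exact hN
  · exact ⟨M₁, aM, ⟨i, hi⟩, hM₁, fun h1 h2 => absurd ⟨h1, h2⟩ hc⟩

/-- The pairs of a task. -/
abbrev Fam2 (T : Finset ℕ) (n : ℕ) (M : Lev) : Type :=
  {p : Σ H : Subgroup (M.N ≃ₐ[ℚ] M.N), (H →* ℂˣ) // IsCyclic p.1 ∧ TypeU T n p.1 p.2}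

theorem fam2_finite (T : Finset ℕ) (n : ℕ) (M : Lev) : Finite (Fam2 T n M) := by
  have h1 : ∀ H : Subgroup (M.N ≃ₐ[ℚ] M.N), Finite (H →* ℂˣ) := fun H => finite_hom H
  infer_instance

theorem fam2_nonempty (T : Finset ℕ) (n : ℕ) (M : Lev) (hi : ∃ i : M.N, i ^ 2 = -1) :
    Nonempty (Fam2 T n M) := by
  obtain ⟨i, hi⟩ := hi
  exact ⟨⟨⟨⊥, 1⟩, inferInstance, typeU_bot T n M.N i hi⟩⟩

theorem inAbelian_mono {E E' K L : Type} [Field E] [Field E'] [Field K] [Field L] [Algebra K L]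
    (f : E →+* E') (h : StarkW.InAbelian E' K L) : StarkW.InAbelian E K L := by
  obtain ⟨N', i1, i2, a1, a2, a3, a4, h1, ⟨f'⟩⟩ := h
  exact ⟨N', i1, i2, a1, a2, a3, a4, h1, ⟨f'.comp f⟩⟩

/-- The properties of the three extensions of a pair. -/
def Qf (T : Finset ℕ) (n : ℕ) (M : Lev) (x : Fam2 T n M) (X : Fin 3 → Ext) : Prop :=
  (∀ r, StarkW.GoodPair T (X r).K (X r).L) ∧
    (∀ r, StarkW.InAbelian M.N (X r).K (X r).L) ∧
    (∀ σ : ℂ ≃+* ℂ, (∀ r, StarkW.StarkFaithful n σ (X r).K (X r).L) →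
      StarkAllS σ (IntermediateField.fixedField x.1.1) M.N (liftChar x.1.1 x.1.2)) ∧
    ∀ G : Subgroup ℂˣ, StarkG.Full n G → (∀ r, Fai G n (X r).K (X r).L) →
      GAllS G (IntermediateField.fixedField x.1.1) M.N (liftChar x.1.1 x.1.2)

theorem outF2 (hout : Out2) (T : Finset ℕ) (n : ℕ) (M : Lev) (x : Fam2 T n M) (B : ℕ) :
    ∃ X : Fin 3 → Ext, Qf T n M x X ∧ ∀ r, B ≤ Module.finrank ℚ (X r).K := by
  obtain ⟨X, hX, h1, h2⟩ := hout T M.N x.1.1 x.1.2 x.2.1 x.2.2.1 x.2.2.2.2 B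
  exact ⟨X, ⟨fun r => (hX r).1, fun r => (hX r).2.2, fun σ hf => h1 n σ x.2.2.2.1 hf,
    fun G hG hf => h2 n G hG x.2.2.2.1 hf⟩, fun r => (hX r).2.1⟩

/-- `J` contains the interval from `a` to `a + g a` for infinitely many `a`. -/
def Long (g : ℕ → ℕ) (J : Set ℕ) : Prop := ∃ᶠ a in atTop, ∀ j, a ≤ j → j ≤ a + g a → j ∈ J

/-- The sequence of extensions; the indices in `J` suffice. -/
theorem tail2 (hdec : DecU2) (hout : Out2) (F g : ℕ → ℕ) (hg : Tendsto g atTop atTop)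
    (N : ℕ → Type) [∀ k, Field (N k)] [∀ k, NumberField (N k)] [∀ k, IsGalois ℚ (N k)]
    (hcof : ∀ (M : Type) [Field M] [NumberField M], ∃ k, Nonempty (M →+* N k)) :
    ∃ Y : ℕ → Ext,
      (∀ j, StarkW.GoodPair ∅ (Y j).K (Y j).L ∧ F j ≤ Module.finrank ℚ (Y j).K) ∧
      (∀ T : Finset ℕ, ∀ᶠ j in atTop, StarkW.GoodPair T (Y j).K (Y j).L) ∧
      (∀ (E : Type) [Field E] [NumberField E],
        ∀ᶠ j in atTop, StarkW.InAbelian E (Y j).K (Y j).L) ∧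
      (∀ (J : Set ℕ) (n : ℕ) (σ : ℂ ≃+* ℂ), Long g J → 0 < n →
        (∀ j ∈ J, StarkW.StarkFaithful n σ (Y j).K (Y j).L) →
        LevIn n (fun M _ _ _ H ψ =>
          StarkAllS σ (IntermediateField.fixedField H) M (liftChar H ψ))) ∧
      ∀ (J : Set ℕ) (n : ℕ) (G : Subgroup ℂˣ), Long g J → 0 < n → StarkG.Full n G →
        (∀ j ∈ J, Fai G n (Y j).K (Y j).L) →
        LevIn n (fun M _ _ _ H ψ =>
          GAllS G (IntermediateField.fixedField H) M (liftChar H ψ)) := by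
  -- the tasks
  have hct := task_countable N
  have hne : Nonempty (Task N) := ⟨⟨0, 0, ⟨0, Submodule.zero_mem _⟩⟩⟩
  obtain ⟨tk, htk⟩ := exists_surjective_nat (Task N)
  let T : ℕ → Finset ℕ := fun s => Finset.range s
  choose M aM hMi hMl hM using fun (s : ℕ) (i : ℕ) =>
    stage2 hdec N (T s) s (tk i)
  -- the pairs of a stage
  let I : ℕ → Type := fun s => Σ i : Fin (s + 1), Fam2 (T s) (tk i).2.1 (M s i)
  have hfin : ∀ s, Finite (I s) := fun s => by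
    have : ∀ i : Fin (s + 1), Finite (Fam2 (T s) (tk i).2.1 (M s i)) := fun i => fam2_finite _ _ _
    infer_instance
  have hnonempty : ∀ s, Nonempty (I s) := fun s => by
    obtain ⟨x⟩ := fam2_nonempty (T s) (tk 0).2.1 (M s 0) (hMi s 0)
    exact ⟨⟨⟨0, by omega⟩, x⟩⟩
  let P : ℕ → ℕ := fun s => Nat.card (I s)
  have hP : ∀ s, 0 < P s := fun s => Nat.card_pos
  obtain ⟨lev, hlev, hcomb⟩ := SSQ.comb P hP g hg
  -- the pair number `m`
  let pick : ℕ → Σ s, I s := fun m => ⟨lev m, (Finite.equivFin (I (lev m))).symm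
    ⟨m % P (lev m), Nat.mod_lt _ (hP _)⟩⟩
  have hpick : ∀ (s : ℕ) (x : I s) (m : ℕ), lev m = s →
      m % P s = (Finite.equivFin (I s) x : ℕ) → pick m = ⟨s, x⟩ := by
    intro s x m hs hm
    subst hs
    show (⟨lev m, _⟩ : Σ s, I s) = _
    congr 1
    rw [Equiv.symm_apply_eq]
    exact Fin.ext hm
  -- the properties of the three fields
  let Q : (Σ s, I s) → (Fin 3 → Ext) → Prop := fun y X =>
    Qf (T y.1) (tk y.2.1).2.1 (M y.1 y.2.1) y.2.2 X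
  have hex : ∀ (y : Σ s, I s) (B : ℕ), ∃ X : Fin 3 → Ext, Q y X ∧
      ∀ r, B ≤ Module.finrank ℚ (X r).K := fun y B => outF2 hout _ _ _ y.2.2 B
  choose X hXQ hXB using fun m : ℕ => hex (pick m) (F (3 * m) + F (3 * m + 1) + F (3 * m + 2))
  -- the members of a stage
  have key : ∀ (J : Set ℕ) (hJ : Long g J) (Pr : Ext → Prop),
      (∀ j ∈ J, Pr (X (j / 3) ⟨j % 3, Nat.mod_lt _ (by norm_num)⟩)) → ∀ s₀ : ℕ,
      ∃ s, s₀ ≤ s ∧ ∀ (i : ℕ) (_ : i ≤ s) (x : Fam2 (T s) (tk i).2.1 (M s i)),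
        ∃ X' : Fin 3 → Ext, Qf (T s) (tk i).2.1 (M s i) x X' ∧ ∀ r, Pr (X' r) := by
    intro J hJ Pr hPr s₀
    obtain ⟨s, hs, h1⟩ := hcomb J hJ s₀
    refine ⟨s, hs, fun i hi x' => ?_⟩
    suffices hsuff : ∀ x : I s, ∃ X' : Fin 3 → Ext, Q ⟨s, x⟩ X' ∧ ∀ r, Pr (X' r) from
      hsuff ⟨⟨i, Nat.lt_succ_of_le hi⟩, x'⟩
    intro x
    obtain ⟨m, h2, h3, h4⟩ := h1 (Finite.equivFin (I s) x) (Finite.equivFin (I s) x).2
    have h5 := hpick s x m h2 h3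
    refine ⟨X m, by rw [← h5]; exact hXQ m, fun r => ?_⟩
    have h6 := hPr (3 * m + r) (h4 r r.2)
    have h7 : (3 * m + (r : ℕ)) / 3 = m := by omega
    have h8 : (⟨(3 * m + (r : ℕ)) % 3, Nat.mod_lt _ (by norm_num)⟩ : Fin 3) = r :=
      Fin.ext (by simp only; omega)
    rw [h7, h8] at h6
    exact h6
  have hlev3 : ∀ b : ℕ, ∀ᶠ j in atTop, b ≤ lev (j / 3) := by
    intro b
    have h1 := (tendsto_atTop.1 hlev b)
    exact (Nat.tendsto_div_const_atTop (by norm_num : (3 : ℕ) ≠ 0)).eventually h1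
  refine ⟨fun j => X (j / 3) ⟨j % 3, Nat.mod_lt _ (by norm_num)⟩, fun j => ?_, fun T' => ?_,
    fun E _ _ => ?_, fun J n σ hJ hn hf => ?_, fun J n G hJ hn hG hf => ?_⟩
  · refine ⟨goodPair_mono (Finset.empty_subset _) ((hXQ (j / 3)).1 _),
      le_trans ?_ (hXB (j / 3) _)⟩
    have h3 : j = 3 * (j / 3) ∨ j = 3 * (j / 3) + 1 ∨ j = 3 * (j / 3) + 2 := by omega
    generalize j / 3 = a at h3
    rcases h3 with h3 | h3 | h3 <;> rw [h3] <;> omega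
  · obtain ⟨b, hb⟩ : ∃ b, T' ⊆ Finset.range b := by
      obtain ⟨b, hb⟩ := T'.bddAbove
      exact ⟨b + 1, fun x hx => Finset.mem_range.2 (Nat.lt_succ_of_le (hb hx))⟩
    filter_upwards [hlev3 b] with j hj
    exact goodPair_mono (hb.trans (Finset.range_subset_range.2 hj)) ((hXQ (j / 3)).1 _)
  · obtain ⟨l, ⟨ι⟩⟩ := hcof E
    filter_upwards [hlev3 l] with j hj
    obtain ⟨f'⟩ := hMl (pick (j / 3)).1 (pick (j / 3)).2.1 l hj
    exact inAbelian_mono (f'.comp ι) ((hXQ (j / 3)).2.1 ⟨j % 3, Nat.mod_lt _ (by norm_num)⟩)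
  · refine levIn_of n N hcof _ fun t ht hval => ?_
    obtain ⟨i₀, rfl⟩ := htk t
    obtain ⟨s, hs, hx⟩ := key J hJ (fun E => StarkW.StarkFaithful n σ E.K E.L) hf i₀
    subst ht
    refine ⟨M s i₀, aM s i₀, Submodule.span_mono ?_ (hM s i₀ hn hval)⟩
    rintro f ⟨H, ψ, hU | hB, rfl⟩
    · obtain ⟨X', hQ, hX'⟩ := hx i₀ hs ⟨⟨H, ψ⟩, hU⟩
      exact ⟨H, ψ, Or.inl (hQ.2.2.1 σ hX'), rfl⟩
    · exact ⟨H, ψ, Or.inr hB, rfl⟩
  · refine levIn_of n N hcof _ fun t ht hval => ?_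
    obtain ⟨i₀, rfl⟩ := htk t
    obtain ⟨s, hs, hx⟩ := key J hJ (fun E => Fai G n E.K E.L) hf i₀
    subst ht
    refine ⟨M s i₀, aM s i₀, Submodule.span_mono ?_ (hM s i₀ hn hval)⟩
    rintro f ⟨H, ψ, hU | hB, rfl⟩
    · obtain ⟨X', hQ, hX'⟩ := hx i₀ hs ⟨⟨H, ψ⟩, hU⟩
      exact ⟨H, ψ, Or.inl (hQ.2.2.2 G hG hX'), rfl⟩
    · exact ⟨H, ψ, Or.inr hB, rfl⟩

/-- One sequence for all `T` and `E`, for Stark's conjecture and for the values; the indices in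
`J` suffice. -/
theorem both2 (hdec : DecU2) (hout : Out2) (hc : SSQ.Stmt_COF) (F g : ℕ → ℕ)
    (hg : Tendsto g atTop atTop) :
    ∃ Y : ℕ → Ext,
      (∀ j, StarkW.GoodPair ∅ (Y j).K (Y j).L ∧ F j ≤ Module.finrank ℚ (Y j).K) ∧
      (∀ T : Finset ℕ, ∀ᶠ j in atTop, StarkW.GoodPair T (Y j).K (Y j).L) ∧
      (∀ (E : Type) [Field E] [NumberField E],
        ∀ᶠ j in atTop, StarkW.InAbelian E (Y j).K (Y j).L) ∧
      (∀ (J : Set ℕ) (n : ℕ) (σ : ℂ ≃+* ℂ), Long g J → 0 < n → (StarkV.StarkCyclotomic n σ ↔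
        (∀ j ∈ J, StarkW.StarkFaithful n σ (Y j).K (Y j).L) ∧ StarkV.ClassB n σ)) ∧
      ∀ (J : Set ℕ) (n : ℕ) (G : Subgroup ℂˣ), Long g J → 0 < n →
        (∀ u : ℂˣ, (u : ℂ) ∈ StarkV.cycField n → u ∈ G) →
        (StarkM.Values G n ↔
          (∀ j ∈ J, StarkW.PowInFaithful G n (Y j).K (Y j).L) ∧ StarkM.ValuesB G n) := by
  obtain ⟨N, _, _, hgal, hcof⟩ := hc
  obtain ⟨Y, hY1, hYT, hYE, hY2, hY3⟩ := tail2 hdec hout F g hg N hcof
  refine ⟨Y, hY1, hYT, hYE, fun J n σ hJ hn => ⟨fun hS => ⟨fun j _ ψ _ hψ => ?_,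
    fun K L _ _ _ _ _ _ _ ψ _ hψ _ => ?_⟩, ?_⟩,
    fun J n G hJ hn hG => ⟨fun hS => ⟨fun j _ ψ _ hψ => ?_,
    fun K L _ _ _ _ _ _ _ ψ _ hψ _ => ?_⟩, ?_⟩⟩
  · refine hS (Y j).K (Y j).L ℂ ℂ (StarkP.linRep ψ) (StarkP.linRep (StarkP.twist σ ψ))
      (fun g => ?_) (fun g => ?_) ∅
    · exact (StarkC.MAIN.linRep_character (StarkC.twist σ ψ) g).trans
        (congrArg σ (StarkC.MAIN.linRep_character ψ g)).symm
    · have h1 : (StarkP.linRep ψ).character g = (ψ g : ℂ) := StarkC.MAIN.linRep_character ψ g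
      rw [h1]
      exact StarkG.cyc_of_pow ψ hψ g
  · refine hS K L ℂ ℂ (StarkP.linRep ψ) (StarkP.linRep (StarkP.twist σ ψ)) (fun g => ?_)
      (fun g => ?_) ∅
    · exact (StarkC.MAIN.linRep_character (StarkC.twist σ ψ) g).trans
        (congrArg σ (StarkC.MAIN.linRep_character ψ g)).symm
    · have h1 : (StarkP.linRep ψ).character g = (ψ g : ℂ) := StarkC.MAIN.linRep_character ψ g
      rw [h1]
      exact hψ g
  · rintro ⟨hA, hB⟩
    rw [StarkVB.starkCyclotomic_iff]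
    exact CNMAIN.starkKn n hn σ (starkQn_of n σ (hY2 J n σ hJ hn hA)
      ((StarkVB.classB_iff n σ).1 hB))
  · refine hS (Y j).K (Y j).L ℂ (StarkP.linRep ψ) (fun g => ?_) ∅
    have h1 : (StarkP.linRep ψ).character g = (ψ g : ℂ) := StarkC.MAIN.linRep_character ψ g
    rw [h1]
    exact StarkG.cyc_of_pow ψ hψ g
  · refine hS K L ℂ (StarkP.linRep ψ) (fun g => ?_) ∅
    have h1 : (StarkP.linRep ψ).character g = (ψ g : ℂ) := StarkC.MAIN.linRep_character ψ g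
    rw [h1]
    exact hψ g
  · rintro ⟨hA, hB⟩ K L V _ _ _ _ _ _ _ _ _ ρ hval S
    have hF : StarkG.Full n (StarkG.hat G) := StarkG.full_hat hG
    have hK : StarkG.RatK (StarkG.hat G) n := by
      refine StarkG.ratK hn hF (ratQ_of hF (hY3 J n (StarkG.hat G) hJ hn hF ?_) ?_)
      · intro j hj ψ hψ hψn φ Θ hφ
        obtain ⟨M, hM, h⟩ := (StarkG.powIn_iff G ∅ (StarkP.linRep ψ)).1
          (hA j hj ψ hψ hψn) φ Θ hφ
        exact ⟨M, hM, h.mono (StarkG.le_hat G)⟩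
      · intro K L _ _ _ _ _ _ hK ψ hψ hv h1 φ Θ hφ
        obtain ⟨M, hM, h⟩ := (StarkG.powIn_iff G ∅ (StarkP.linRep ψ)).1
          (hB K L hK ψ hψ hv h1) φ Θ hφ
        exact ⟨M, hM, h.mono (StarkG.le_hat G)⟩
    refine (StarkG.powIn_iff G S ρ).2 fun φ Θ hφ => ?_
    obtain ⟨M, hM, h⟩ := hK K L S φ Θ V ρ hφ hval
    exact h.of_hat hM

end StarkC.SSQM
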