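import Pool.Agent.SSQ.ALL
import Pool.Agent.SSQ.OUT2
import Pool.Agent.SSQ.TAIL2

/-!
# One sequence for all finite sets of primes and all number fields: the final theorem
-/

open NumberField IsDedekindDomain Filter
open scoped TensorProduct Classical

namespace StarkC.SSQM

theorem dec2 : DecU2 :=
  DEC2_thm ALLV.ualgn EUN.stmt_nib UART_thm UINFL_thm CYCI_thm CJA_thm TAR_thm

theorem outTwo : Out2 := by
  intro T N _ _ _ H ψ hH hA hN B
  obtain ⟨X, h1, h2, h3⟩ := out2 ssqIn T N H hH ψ hA hN B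
  exact ⟨X, fun r => ⟨(h1 r).1, (h1 r).2.1, (h1 r).2.2 N ⟨RingHom.id N⟩⟩, h2, h3⟩

/-- The final theorem. -/
theorem fin2 (F g : ℕ → ℕ) (hg : Tendsto g atTop atTop) :
    ∃ Y : ℕ → Ext,
      (∀ j, StarkW.GoodPair ∅ (Y j).K (Y j).L ∧ F j ≤ Module.finrank ℚ (Y j).K) ∧
      (∀ T : Finset ℕ, ∀ᶠ j in atTop, StarkW.GoodPair T (Y j).K (Y j).L) ∧
      (∀ (E : Type) [Field E] [NumberField E],
        ∀ᶠ j in atTop, StarkW.InAbelian E (Y j).K (Y j).L) ∧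
      (∀ (J : Set ℕ) (n : ℕ) (σ : ℂ ≃+* ℂ), Long g J → 0 < n → (StarkV.StarkCyclotomic n σ ↔
        (∀ j ∈ J, StarkW.StarkFaithful n σ (Y j).K (Y j).L) ∧ StarkV.ClassB n σ)) ∧
      ∀ (J : Set ℕ) (n : ℕ) (G : Subgroup ℂˣ), Long g J → 0 < n →
        (∀ u : ℂˣ, (u : ℂ) ∈ StarkV.cycField n → u ∈ G) →
        (StarkM.Values G n ↔
          (∀ j ∈ J, StarkW.PowInFaithful G n (Y j).K (Y j).L) ∧ StarkM.ValuesB G n) :=
  both2 dec2 outTwo SSQ.COF_thm F g hg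

end StarkC.SSQM
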