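import Pool.Agent.SSQ.PDefs
import Pool.Agent.StarkAlg.GDefs

/-!
# A sparse sequence of unramified extensions with normal integral basis: printable definitions, values
-/

open NumberField IsDedekindDomain
open scoped Classical

namespace StarkW

open StarkP StarkV StarkM

/-- `PowIn` holds with `S = S_∞` for all injective linear characters `ψ` of `Gal(L/K)` with
`ψ ^ n = 1`. -/
def PowInFaithful (G : Subgroup ℂˣ) (n : ℕ) (K L : Type) [Field K] [NumberField K] [Field L]
    [NumberField L] [Algebra K L] : Prop :=
  ∀ ψ : (L ≃ₐ[K] L) →* ℂˣ, Function.Injective ψ → ψ ^ n = 1 → PowIn G ∅ (linRep ψ)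

end StarkW
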