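import Pool.Agent.SSQ.MAIN
import Pool.Agent.SSQ.PDefsG

/-!
# A sparse sequence of extensions with normal integral basis: the theorems

Project SSQ (MP_46b841_nt).
-/

open NumberField IsDedekindDomain
open scoped TensorProduct Classical

namespace StarkC.SSQM

/-- One sequence for Stark's conjecture and for the values. -/
theorem both (h : SSQIn) (T : Finset ℕ) (F : ℕ → ℕ) :
    ∃ Y : ℕ → Ext,
      (∀ j, StarkW.GoodPair T (Y j).K (Y j).L ∧ F j ≤ Module.finrank ℚ (Y j).K) ∧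
      (∀ (n : ℕ) (σ : ℂ ≃+* ℂ), 0 < n → (StarkV.StarkCyclotomic n σ ↔
        (∀ j, StarkW.StarkFaithful n σ (Y j).K (Y j).L) ∧ StarkV.ClassB n σ)) ∧
      ∀ (n : ℕ) (G : Subgroup ℂˣ), 0 < n → (∀ u : ℂˣ, (u : ℂ) ∈ StarkV.cycField n → u ∈ G) →
        (StarkM.Values G n ↔
          (∀ j, StarkW.PowInFaithful G n (Y j).K (Y j).L) ∧ StarkM.ValuesB G n) := by
  obtain ⟨N, _, _, hgal, hcof⟩ := h.cof
  obtain ⟨Y, hY1, hY2, hY3⟩ := seq h T F N hcof
  refine ⟨Y, hY1, fun n σ hn => ⟨fun hS => ⟨fun j ψ _ hψ => ?_,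
    fun K L _ _ _ _ _ _ _ ψ _ hψ _ => ?_⟩, ?_⟩, fun n G hn hG => ⟨fun hS => ⟨fun j ψ _ hψ => ?_,
    fun K L _ _ _ _ _ _ _ ψ _ hψ _ => ?_⟩, ?_⟩⟩
  · refine hS (Y j).K (Y j).L ℂ ℂ (StarkP.linRep ψ) (StarkP.linRep (StarkP.twist σ ψ))
      (fun g => ?_) (fun g => ?_) ∅
    · exact (StarkC.MAIN.linRep_character (StarkC.twist σ ψ) g).trans
        (congrArg σ (StarkC.MAIN.linRep_character ψ g)).symm
    · have h1 : (StarkP.linRep ψ).character g = (ψ g : ℂ) := StarkC.MAIN.linRep_character ψ g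
      rw [h1]
      exact StarkG.cyc_of_pow ψ hψ g
  · refine hS K L ℂ ℂ (StarkP.linRep ψ) (StarkP.linRep (StarkP.twist σ ψ)) (fun g => ?_)
      (fun g => ?_) ∅
    · exact (StarkC.MAIN.linRep_character (StarkC.twist σ ψ) g).trans
        (congrArg σ (StarkC.MAIN.linRep_character ψ g)).symm
    · have h1 : (StarkP.linRep ψ).character g = (ψ g : ℂ) := StarkC.MAIN.linRep_character ψ g
      rw [h1]
      exact hψ g
  · rintro ⟨hA, hB⟩
    rw [StarkVB.starkCyclotomic_iff]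
    exact CNMAIN.starkKn n hn σ (starkQn h N hcof T n hn σ (hY2 n σ hA)
      ((StarkVB.classB_iff n σ).1 hB))
  · refine hS (Y j).K (Y j).L ℂ (StarkP.linRep ψ) (fun g => ?_) ∅
    have h1 : (StarkP.linRep ψ).character g = (ψ g : ℂ) := StarkC.MAIN.linRep_character ψ g
    rw [h1]
    exact StarkG.cyc_of_pow ψ hψ g
  · refine hS K L ℂ (StarkP.linRep ψ) (fun g => ?_) ∅
    have h1 : (StarkP.linRep ψ).character g = (ψ g : ℂ) := StarkC.MAIN.linRep_character ψ g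
    rw [h1]
    exact hψ g
  · rintro ⟨hA, hB⟩ K L V _ _ _ _ _ _ _ _ _ ρ hval S
    have hF : StarkG.Full n (StarkG.hat G) := StarkG.full_hat hG
    have hK : StarkG.RatK (StarkG.hat G) n := by
      refine StarkG.ratK hn hF (ratQ h N hcof T hn hF (hY3 n (StarkG.hat G) hF ?_) ?_)
      · intro j ψ hψ hψn φ Θ hφ
        obtain ⟨M, hM, h⟩ := (StarkG.powIn_iff G ∅ (StarkP.linRep ψ)).1
          (hA j ψ hψ hψn) φ Θ hφ
        exact ⟨M, hM, h.mono (StarkG.le_hat G)⟩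
      · intro K L _ _ _ _ _ _ hK ψ hψ hv h1 φ Θ hφ
        obtain ⟨M, hM, h⟩ := (StarkG.powIn_iff G ∅ (StarkP.linRep ψ)).1
          (hB K L hK ψ hψ hv h1) φ Θ hφ
        exact ⟨M, hM, h.mono (StarkG.le_hat G)⟩
    refine (StarkG.powIn_iff G S ρ).2 fun φ Θ hφ => ?_
    obtain ⟨M, hM, h⟩ := hK K L S φ Θ V ρ hφ hval
    exact h.of_hat hM

end StarkC.SSQM
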