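import Pool.Agent.StarkU.PDefsV

/-!
# A sparse sequence of unramified extensions with normal integral basis: printable definitions
-/

open NumberField IsDedekindDomain
open scoped Classical

namespace StarkW

open StarkP StarkV

/-- `K` is totally complex, `L/K` is cyclic, all inertia groups of `L/K` are trivial, the
decomposition groups of the primes of `L` above the prime numbers in `T` are trivial, and `𝓞 L` has
a basis over `𝓞 K` which consists of the conjugates of one element. -/
structure GoodPair (T : Finset ℕ) (K L : Type) [Field K] [NumberField K] [Field L] [NumberField L]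
    [Algebra K L] : Prop where
  totallyComplex : IsTotallyComplex K
  cyclic : IsCyclic (L ≃ₐ[K] L)
  unramified : ∀ (w : HeightOneSpectrum (𝓞 L)) (g : L ≃ₐ[K] L), FrobPow L w 1 g → g = 1
  split : ∀ w : HeightOneSpectrum (𝓞 L), (∃ p ∈ T, p.Prime ∧ (p : 𝓞 L) ∈ w.asIdeal) →
    ∀ g : L ≃ₐ[K] L, FixesPrime w g → g = 1
  basis : ∃ b : Module.Basis (L ≃ₐ[K] L) (𝓞 K) (𝓞 L), ∀ g : L ≃ₐ[K] L,
    ((b g : 𝓞 L) : L) = g ((b 1 : 𝓞 L) : L)

/-- `StarkRat` holds with `S = S_∞` for `σ` and all injective linear characters `ψ` of `Gal(L/K)`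
with `ψ ^ n = 1`. -/
def StarkFaithful (n : ℕ) (σ : ℂ ≃+* ℂ) (K L : Type) [Field K] [NumberField K] [Field L]
    [NumberField L] [Algebra K L] : Prop :=
  ∀ ψ : (L ≃ₐ[K] L) →* ℂˣ, Function.Injective ψ → ψ ^ n = 1 →
    StarkRat ∅ (linRep ψ) (linRep (twist σ ψ)) σ

end StarkW
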