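import Mathlib

/-!
# A sparse sequence of extensions with normal integral basis: statements, part G (Mathlib only)

Project SSQ (MP_46b841_nt).  One module for each `Stmt_...`; hypotheses `Stmt_A → ...` are inputs.
-/

open NumberField Polynomial

namespace SSQ

/-- COF.  A sequence of Galois number fields in which every number field embeds.
`ℚ[X]` is countable (`Polynomial.countable`?, or through `ℕ →₀ ℚ`): take a surjection
`P : ℕ → ℚ[X]` (`exists_surjective_nat`) and `N k = (P k).SplittingField` (a number field: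
`CharZero` from `algebraMap ℚ`, finite dimensional; Galois: `Polynomial.SplittingField` of a
polynomial over a perfect field is Galois, `IsGalois.of_separable_splitting_field` for the
squarefree part, or: normal (`Normal.of_isSplittingField`) and separable (characteristic `0`)).
Beware: `IsGalois ℚ (N k)` and `NumberField` must use the `ℚ`-algebra structure
`DivisionRing.toRatAlgebra`; it is equal to `SplittingField.algebra` (`Subsingleton.elim`).
`M = ℚ(α)` (`Field.exists_primitive_element`), `P k = minpoly ℚ α` splits in `N k`, so there is an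
embedding (`IntermediateField` / `Algebra.adjoin` lift, `IsSplittingField`,
`Polynomial.SplittingField.lift`, or: a root `β` of `minpoly ℚ α` in `N k` and
`(IntermediateField.topEquiv.symm ..)`, `IntermediateField.algHomAdjoinIntegralEquiv`). -/
def Stmt_COF : Prop :=
  ∃ (N : ℕ → Type) (_ : ∀ k, Field (N k)) (_ : ∀ k, NumberField (N k)),
    (∀ k, IsGalois ℚ (N k)) ∧
      ∀ (M : Type) [Field M] [NumberField M], ∃ k, Nonempty (M →+* N k)

/-- CYI.  For all large primes `q` the cyclotomic polynomial `Φ_q` is irreducible over `N`.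
`B = |discr N|`: let `N' = CyclotomicField q N`, `K₁` the image of `N` in `N'` and
`K₂ = ℚ(ζ_q)` in `N'` (intermediate fields over `ℚ`); `discr K₂ = ± q^(q-2)` is prime to
`discr N`, so `K₁`, `K₂` are linearly disjoint
(`NumberField.linearDisjoint_of_isGalois_isCoprime_discr`, compare
`Mathlib/NumberTheory/NumberField/Cyclotomic/Basic.lean` line 700 to 760), so
`[N' : N] = q - 1` (`IntermediateField.LinearDisjoint.finrank_sup`) and the minimal polynomial of
`ζ_q` over `N`, a divisor of `Φ_q`, has degree `q - 1`. -/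
def Stmt_CYI : Prop :=
  ∀ (N : Type) [Field N] [NumberField N], ∃ B : ℕ, ∀ q : ℕ, q.Prime → B < q →
    Irreducible (cyclotomic q N)

/-- KUI.  `q > [N : ℚ]` prime, `F = N(ζ)`: if `X^q - 2` is not irreducible over `F` then
`β^q = 2` for a `β ∈ F` (`X_pow_sub_C_irreducible_of_prime`, Mathlib.FieldTheory.KummerExtension).
`X^q - 2` is irreducible over `ℚ` (Eisenstein, or `X_pow_sub_C_irreducible_of_prime` and: `2` is
not a `q`-th power in `ℚ`), so `[ℚ(β) : ℚ] = q` divides `[F : ℚ] = [F : N] [N : ℚ]`; but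
`[F : N] ≤ q - 1` (`ζ` is a root of `Φ_q`), contradiction. -/
def Stmt_KUI : Prop :=
  ∀ (N N' : Type) [Field N] [NumberField N] [Field N'] [NumberField N'] [Algebra N N'] (q : ℕ)
    (ζ : N'), q.Prime → Module.finrank ℚ N < q → IsPrimitiveRoot ζ q →
    Irreducible (X ^ q - C 2 : Polynomial (IntermediateField.adjoin N ({ζ} : Set N')))

/-- TRN.  Transitivity of `Gal(N'/N)` on the pairs (primitive `q`-th root of unity, root of
`X^q - 2`).  There is `h₁` with `h₁ ζ = ζ^b` (both are roots of the irreducible `Φ_q`;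
`minpoly`, `IsConjRoot`, `Normal.exists_algEquiv..` or `IsGalois` + `isConjRoot_iff_exists_algEquiv`);
`h₁ κ = ζ^c κ` for some `c`.  For `F = N(ζ)` there is `h₂ ∈ Gal(N'/F)` with `h₂ κ = ζ^d κ`, any
`d`.  `h = h₁ h₂`: `h ζ = ζ^b`, `h κ = ζ^(b d + c) κ`; choose `d` with `b d + c = a` modulo `q`. -/
def Stmt_TRN : Prop :=
  ∀ (N N' : Type) [Field N] [NumberField N] [Field N'] [NumberField N'] [Algebra N N']
    [IsGalois N N'] (q : ℕ) (ζ κ : N'), q.Prime → Irreducible (cyclotomic q N) →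
    Irreducible (X ^ q - C 2 : Polynomial (IntermediateField.adjoin N ({ζ} : Set N'))) →
    IsPrimitiveRoot ζ q → κ ^ q = 2 → ∀ a b : ℕ, b.Coprime q →
    ∃ h : N' ≃ₐ[N] N', h ζ = ζ ^ b ∧ h κ = ζ ^ a * κ

/-- The value at `g` of the character induced from the trivial character of `A`. -/
noncomputable def ind1 {G : Type} [Group G] [Fintype G] (A : Subgroup G) (g : G) : ℂ :=
  (Nat.card {x : G // x⁻¹ * g * x ∈ A} : ℂ) / (Nat.card A : ℂ)

/-- IDN.  `G` acts on the roots `ζ^s κ` through `g (ζ^s κ) = ζ^(b g s + a g) κ`.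
`a 1 = 0`, `a x⁻¹ = -(b x)⁻¹ a x`, so `a (x⁻¹ g x) = (b x)⁻¹ (a g + (b g - 1) a x)`, `b (x⁻¹ g x) =
b g`.  The fibres of `a`, of `b` and of `(a, b)` have `|G|/q`, `|G|/(q-1)`, `|G|/(q(q-1))` elements
(the fibres of `(a, b)` are the left cosets of the kernel: `(a, b) (g h) = (a g + b g a h, b g b h)`;
`A₀`, `A₁`, `A₂` are such fibres).  So `ind1 A₀ g = #{s : a g + (b g - 1) s = 0}` is `1` if
`b g ≠ 1`, `q` if `b g = 1`, `a g = 0`, and `0` otherwise; `ind1 A₁ g = q - 1` if `b g = 1`, else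
`0`; `ind1 A₂ g = q (q - 1)` if `b g = 1`, `a g = 0`, else `0`. -/
def Stmt_IDN : Prop :=
  ∀ (G : Type) [Group G] [Fintype G] (q : ℕ) [Fact q.Prime] (b : G →* (ZMod q)ˣ)
    (a : G → ZMod q) (A₀ A₁ A₂ : Subgroup G), (∀ g h, a (g * h) = a g + (b g : ZMod q) * a h) →
    (∀ (s : ZMod q) (t : (ZMod q)ˣ), ∃ g, a g = s ∧ b g = t) → (∀ g, g ∈ A₀ ↔ a g = 0) →
    (∀ g, g ∈ A₁ ↔ b g = 1) → (∀ g, g ∈ A₂ ↔ a g = 0 ∧ b g = 1) →
    ∀ g, (q - 1 : ℂ) * ind1 A₀ g + ind1 A₁ g - ind1 A₂ g = (q - 1 : ℂ)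

/-- DGQ.  A number field `F` which contains a root `κ` of `X^q - 2` or a primitive `q`-th root of
unity has degree at least `q - 1` over `ℚ` (`X^q - 2` irreducible over `ℚ`; `Φ_q` irreducible,
`minpoly.natDegree_le`). -/
def Stmt_DGQ : Prop :=
  ∀ (F : Type) [Field F] [NumberField F] (q : ℕ) (z : F), q.Prime →
    (z ^ q = 2 ∨ IsPrimitiveRoot z q) → q - 1 ≤ Module.finrank ℚ F

/-- BAS.  A dual pair gives a basis.  `m = orderOf x`, `Gal(L/K) = {x^i : i < m}`,
`t z = ∑_{i<m} x^i z` is fixed by `x`, so it lies in `K` (and in `𝓞 K` for integral `z`).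
`t (x^j θ · x^k θ') = t (θ · x^(k-j) θ') = δ_{jk}` modulo `m`.  With the matrices
`A i j = x^(i+j) θ`, `B i k = x^(i+k) θ'`: `Aᵀ B = 1`, so `A Bᵀ = 1`
(`Matrix.mul_eq_one_comm`), i.e. `∑_k x^(i+k) θ' · x^k θ = δ_{i0}`, and for `z ∈ 𝓞 L`
`∑_k t (z x^k θ') x^k θ = ∑_i x^i z ∑_k x^(i+k) θ' x^k θ = z`: the `x^k θ` generate `𝓞 L` over `𝓞 K`.
Linear independence: from `∑ c_k x^k θ = 0` multiply by `x^j θ'` and apply `t`.  Index by the group:
`b g = g θ`. -/
def Stmt_BAS : Prop :=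
  ∀ (K L : Type) [Field K] [NumberField K] [Field L] [NumberField L] [Algebra K L] [IsGalois K L]
    (x : L ≃ₐ[K] L) (θ θ' : L), IsIntegral ℤ θ → IsIntegral ℤ θ' →
    (∀ g : L ≃ₐ[K] L, ∃ i : ℕ, g = x ^ i) →
    (∀ k : ℕ, ∑ i ∈ Finset.range (orderOf x), (x ^ i) (θ * (x ^ k) θ') =
      if orderOf x ∣ k then 1 else 0) →
    ∃ b : Module.Basis (L ≃ₐ[K] L) (𝓞 K) (𝓞 L), ∀ g : L ≃ₐ[K] L,
      ((b g : 𝓞 L) : L) = g ((b 1 : 𝓞 L) : L)

end SSQ
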