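import Pool.Agent.SSQ.Defs
import Pool.Agent.SSQ.PDefs
import Pool.Agent.SSQ.StG
import Pool.Agent.StarkU.CNMAIN

/-!
# A sparse sequence of extensions with normal integral basis: statements, part K

Project SSQ (MP_46b841_nt).  One module for each `Stmt_...`; hypotheses `Stmt_A → ...` are inputs.
The library is `Pool/Agent/Stark*`; the closest models are `StarkU/UALGC.lean` (group theory with
`SpanQ`, `indFun`), `StarkU/CNMAIN.lean` and `StarkU/FAITH.lean`.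
-/

open NumberField IsDedekindDomain
open scoped TensorProduct Classical

namespace StarkC

/-- Type (A), order dividing `n`, with a normal integral basis. -/
def TypeU {N : Type} [Field N] [NumberField N] (T : Finset ℕ) (n : ℕ)
    (H : Subgroup (N ≃ₐ[ℚ] N)) (ψ : H →* ℂˣ) : Prop :=
  TypeA T H ψ ∧ ψ ^ n = 1 ∧ NIBg H ψ

/-- CYCI (Artin + Mackey).  Let `f = indFun C (extZ ν)`.  `UALG.of_art` (needs `Stmt_UART`, and
`UALG.indFun_conj`) reduces to: `indFun D f` in the span for `D = zpowers g`.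
`f = ∑_x (1/|C|) f_x`, `f_x y = if x⁻¹ y x ∈ C then ν (x⁻¹ y x) else 0`, and
`indFun D f_x = (|B_x| / |D|) indFun B_x (extZ μ_x)` with `B_x = D ⊓ x C x⁻¹`,
`μ_x b = ν (x⁻¹ b x)` (both sides are the same sum divided by different numbers). -/
def Stmt_CYCI : Prop :=
  Stmt_UART → ∀ (G : Type) [Group G] [Fintype G] (C : Subgroup G) (ν : C →* ℂˣ),
    indFun C (extZ ν) ∈ SpanQ (G := G) (fun B μ => IsCyclic B ∧
      ∃ x : G, ∀ b : B, ∃ c : C, (c : G) = x⁻¹ * (b : G) * x ∧ μ b = ν c)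

/-- CJA.  Type (A) is invariant under conjugation: `C' = x C x⁻¹` (`C.comap` of `g ↦ x⁻¹ g x`),
`ν' g = ν (x⁻¹ g x)`; if `c` is a complex conjugation so is `x⁻¹ c x` (compose `Φ` with `x`; see
`UALG.cc_conj`), `FrobPow M W 1 g` gives `FrobPow M (x⁻¹ W) 1 (x⁻¹ g x)` and the same for `Dec`
(`STB.mv`, `RB.mv_eq_iff`, `RB.dec_conj`, `UALG.aboveT_mv`). -/
def Stmt_CJA : Prop :=
  ∀ (M : Type) [Field M] [NumberField M] [IsGalois ℚ M] (T : Finset ℕ)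
    (C : Subgroup (M ≃ₐ[ℚ] M)) (ν : C →* ℂˣ) (x : M ≃ₐ[ℚ] M), TypeA T C ν →
    ∃ (C' : Subgroup (M ≃ₐ[ℚ] M)) (ν' : C' →* ℂˣ), TypeA T C' ν' ∧
      ∀ (g : M ≃ₐ[ℚ] M) (h : x⁻¹ * g * x ∈ C), ∃ h' : g ∈ C', ν' ⟨g, h'⟩ = ν ⟨_, h⟩

/-- TAR.  Type (A) is inherited by inflation and restriction (`RB.frob_restrict`,
`RB.dec_restrict`, `UALG.aboveT_under`, `UALG.cc_restrict`). -/
def Stmt_TAR : Prop :=
  ∀ (M N : Type) [Field M] [NumberField M] [IsGalois ℚ M] [Field N] [NumberField N] [IsGalois ℚ N]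
    [Algebra M N] (T : Finset ℕ) (C : Subgroup (M ≃ₐ[ℚ] M)) (ν : C →* ℂˣ)
    (B : Subgroup (N ≃ₐ[ℚ] N)) (μ : B →* ℂˣ), TypeA T C ν →
    (∀ b : B, ∃ c : C, AlgEquiv.restrictNormalHom M (b : N ≃ₐ[ℚ] N) = (c : M ≃ₐ[ℚ] M) ∧
      μ b = ν c) → TypeA T B μ

/-- NBT.  A dual pair is inherited by inflation: take the images of `θ, θ'` in `N` and an element
of `B` above `x`; `orderOf μ = orderOf ν` since `B → C` is onto (`(μ^k) b = (ν^k) c`). -/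
def Stmt_NBT : Prop :=
  ∀ (M N : Type) [Field M] [NumberField M] [IsGalois ℚ M] [Field N] [NumberField N] [IsGalois ℚ N]
    [Algebra M N] (C : Subgroup (M ≃ₐ[ℚ] M)) (ν : C →* ℂˣ)
    (B : Subgroup (N ≃ₐ[ℚ] N)) (μ : B →* ℂˣ), NIBg C ν →
    (∀ b : B, ∃ c : C, AlgEquiv.restrictNormalHom M (b : N ≃ₐ[ℚ] N) = (c : M ≃ₐ[ℚ] M) ∧
      μ b = ν c) →
    (∀ c : C, ∃ b : B, AlgEquiv.restrictNormalHom M (b : N ≃ₐ[ℚ] N) = (c : M ≃ₐ[ℚ] M)) →
    NIBg B μ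

/-- The decomposition at one level. -/
def DecU : Prop :=
  ∀ (L : Type) [Field L] [NumberField L] [IsGalois ℚ L] (T : Finset ℕ) (n : ℕ), 0 < n →
    ∀ χ : (L ≃ₐ[ℚ] L) → ℂ, χ ∈ SpanQ (G := L ≃ₐ[ℚ] L) (fun _ _ => True) →
    (∀ g, χ g ∈ Cyc n) →
    ∃ (N : Type) (_ : Field N) (_ : NumberField N) (_ : Algebra L N) (_ : IsGalois ℚ N),
      (fun g : N ≃ₐ[ℚ] N => χ (AlgEquiv.restrictNormalHom L g)) ∈
        SpanQ (G := N ≃ₐ[ℚ] N) (fun H ψ => TypeU T n H ψ ∨ TypeBn n H ψ)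

/-- DEC.  Put `T' = T ∪ n.primeFactors`.  `Stmt_UALGN` for `L, T', n, χ` gives a level `M` with the
inflation of `χ` in the span of `TypeAn T' n ∨ TypeBn n`; `Stmt_NIB` for `M, T', n` gives `N`.
Inflate to `N` (`Stmt_UINFL`): the span of `(H', ψ')`, `H' = H.comap res`, `ψ' = ψ ∘ res`.
TypeBn: `TypeBn` is inherited (`UALG.cc_restrict`).  TypeAn: by CYCI `indFun H' (extZ ψ')` is in the
span of `(B, μ)`, `B` cyclic, `μ b = ψ' (x⁻¹ b x)`; with CJA (for `res x`) there is `(C', ν')` of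
type (A) at level `M` with `res b ∈ C'`, `μ b = ν' (res b)`; so `TypeA T' B μ` (TAR), `μ ^ n = 1`,
`NIBg B μ` (`Stmt_NIB`), and `TypeA T B μ` (`UALG.aboveT_mono`).  Use `UNTH.spanQ_le`. -/
def Stmt_DEC : Prop :=
  Stmt_UALGN → Stmt_NIB → Stmt_UART → Stmt_UINFL → Stmt_CYCI → Stmt_CJA → Stmt_TAR → DecU

/-- INF.  The decomposition is inherited by every larger level: `Stmt_UINFL` gives the pairs
`H' = H.comap res`, `ψ' = ψ ∘ res`; TAR and NBT (res is onto) for `TypeU`; `TypeBn` as in DEC. -/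
def Stmt_INF : Prop :=
  Stmt_UINFL → Stmt_TAR → Stmt_NBT →
  ∀ (M N : Type) [Field M] [NumberField M] [IsGalois ℚ M] [Field N] [NumberField N] [IsGalois ℚ N]
    [Algebra M N] (T : Finset ℕ) (n : ℕ) (f : (M ≃ₐ[ℚ] M) → ℂ),
    f ∈ SpanQ (G := M ≃ₐ[ℚ] M) (fun H ψ => TypeU T n H ψ ∨ TypeBn n H ψ) →
    (fun g : N ≃ₐ[ℚ] N => f (AlgEquiv.restrictNormalHom M g)) ∈
      SpanQ (G := N ≃ₐ[ℚ] N) (fun H ψ => TypeU T n H ψ ∨ TypeBn n H ψ)

/-- A dual pair for a linear character of `Gal(N/F)`. -/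
def NIBf {F N : Type} [Field F] [Field N] [Algebra F N] (ψ : (N ≃ₐ[F] N) →* ℂˣ) : Prop :=
  ∃ (x : N ≃ₐ[F] N) (θ θ' : N), IsIntegral ℤ θ ∧ IsIntegral ℤ θ' ∧
    (∀ h : N ≃ₐ[F] N, ∃ i : ℕ, ψ h = ψ x ^ i) ∧
    (∀ h : N ≃ₐ[F] N, ψ h = 1 → h θ = θ ∧ h θ' = θ') ∧
    ∀ k : ℕ, ∑ i ∈ Finset.range (orderOf ψ),
      (x ^ i) (θ * (x ^ k) θ') = if orderOf ψ ∣ k then 1 else 0

/-- The characters of the reduction, relative form. -/
def GoodChar (T : Finset ℕ) {F N : Type} [Field F] [NumberField F] [Field N] [NumberField N]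
    [Algebra F N] (ψ : (N ≃ₐ[F] N) →* ℂˣ) : Prop :=
  IsTotallyComplex F ∧
    (∀ (w : HeightOneSpectrum (𝓞 N)) (g : N ≃ₐ[F] N), FrobPow N w 1 g → ψ g = 1) ∧
    (∀ (w : HeightOneSpectrum (𝓞 N)), (∃ p ∈ T, p.Prime ∧ (p : 𝓞 N) ∈ w.asIdeal) →
      ∀ g : N ≃ₐ[F] N, Dec w g → ψ g = 1) ∧
    NIBf ψ

/-- GCH.  From subgroups of `Gal(N/ℚ)` to the relative form (`GOOD.totallyComplex`,
`CMAIN.coe_symm`, as in `CNMAIN.starkQn`; `orderOf (liftChar H ψ) = orderOf ψ` as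
`subgroupEquivAlgEquiv` is an isomorphism; `liftChar` is `ψ` composed with it). -/
def Stmt_GCH : Prop :=
  ∀ (N : Type) [Field N] [NumberField N] [IsGalois ℚ N] (T : Finset ℕ)
    (H : Subgroup (N ≃ₐ[ℚ] N)) (ψ : H →* ℂˣ), TypeA T H ψ → NIBg H ψ →
    GoodChar T (liftChar H ψ)

/-- FLD.  `L` = the field cut out by `ψ` (`FAITH.exists_field`).  Unramified and split: as in
`CNMAIN.ofA`.  Cyclic: every value of `ψ'` is a power of `ψ' (x|L)` and `ψ'` is injective.  The dual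
pair is fixed by the kernel, so it comes from `L` (`IsGalois`, fixed field of
`(AlgEquiv.restrictNormalHom L).ker`), integral; `orderOf (x|L) = orderOf ψ`; apply BAS. -/
def Stmt_FLD : Prop :=
  SSQ.Stmt_BAS →
  ∀ (F N : Type) [Field F] [NumberField F] [Field N] [NumberField N] [Algebra F N]
    [IsGalois F N] (T : Finset ℕ) (ψ : (N ≃ₐ[F] N) →* ℂˣ), GoodChar T ψ →
    ∃ (L : Type) (_ : Field L) (_ : NumberField L) (_ : Algebra F L) (_ : Algebra L N)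
      (_ : IsScalarTower F L N) (_ : IsGalois F L) (ψ' : (L ≃ₐ[F] L) →* ℂˣ),
      Function.Injective ψ' ∧
      (∀ g : N ≃ₐ[F] N, ψ' (AlgEquiv.restrictNormalHom L g : L ≃ₐ[F] L) = ψ g) ∧
      StarkW.GoodPair T F L

/-- BCF (fields for the base change).  `q > max (B + 1, [N : ℚ], bound of CYI)` prime; a field `N'`
Galois over `ℚ` with `N ⊆ N'` in which `X^q - 2` splits (`Stmt_UEXT`): it contains a root `κ` and all
`ζ^s κ`, so a primitive `q`-th root of unity `ζ` (quotient of two different roots).  KUI, TRN. -/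
def Stmt_BCF : Prop :=
  SSQ.Stmt_CYI → SSQ.Stmt_KUI → SSQ.Stmt_TRN → Stmt_UEXT →
  ∀ (N : Type) [Field N] [NumberField N] [IsGalois ℚ N] (B : ℕ),
    ∃ (q : ℕ) (N' : Type) (_ : Field N') (_ : NumberField N') (_ : Algebra N N')
      (_ : IsGalois ℚ N') (ζ κ : N'), q.Prime ∧ B < q - 1 ∧ IsPrimitiveRoot ζ q ∧ κ ^ q = 2 ∧
      ∀ a b : ℕ, b.Coprime q → ∃ h : N' ≃ₐ[N] N', h ζ = ζ ^ b ∧ h κ = ζ ^ a * κ

/-- The result of the base change: `N' ⊇ N`, three subgroups `A r` of `Gal(N'/F)`, i.e. three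
extensions of `F`, of degree at least `B` over `ℚ`, over which the character is good, and
`(q - 1) 1 = (q - 1) Ind_{A 0} 1 + Ind_{A 1} 1 - Ind_{A 2} 1`. -/
def BaseU (T : Finset ℕ) (F N : Type) [Field F] [NumberField F] [Field N] [NumberField N]
    [Algebra F N] (ψ : (N ≃ₐ[F] N) →* ℂˣ) (B : ℕ) : Prop :=
  ∃ (N' : Type) (_ : Field N') (_ : NumberField N') (_ : Algebra N N') (_ : Algebra F N')
    (_ : IsScalarTower F N N') (_ : IsGalois ℚ N') (_ : IsGalois F N') (q : ℕ)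
    (A : Fin 3 → Subgroup (N' ≃ₐ[F] N')) (ψA : ∀ r, A r →* ℂˣ), 2 ≤ q ∧
    (∀ r (h : A r) (g : N ≃ₐ[F] N),
      (∀ z : N, (h : N' ≃ₐ[F] N') (algebraMap N N' z) = algebraMap N N' (g z)) →
      ψA r h = ψ g) ∧
    (∀ r, B ≤ Module.finrank ℚ (IntermediateField.fixedField (A r))) ∧
    (∀ r, GoodChar T (liftChar (A r) (ψA r))) ∧
    ∀ g : N' ≃ₐ[F] N', (q - 1 : ℂ) * indFun (A 0) (fun _ => 1) g +
      indFun (A 1) (fun _ => 1) g - indFun (A 2) (fun _ => 1) g = (q - 1 : ℂ)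

/-- BCX.  `N'`, `q`, `ζ`, `κ` from BCF; `F ⊆ N ⊆ N'`.  `A 0 = {h : h κ = κ}`, `A 1 = {h : h ζ = ζ}`,
`A 2 = A 0 ⊓ A 1` in `Gal(N'/F)`, `ψA r h = ψ (h|N)` (`N / F` is normal).  The identity: IDN with
`a h`, `b h` in `ZMod q` defined by `h κ = ζ^(a h) κ`, `h ζ = ζ^(b h)`, transitive by BCF
(`Gal(N'/N) ⊆ Gal(N'/F)`); `indFun A (fun _ => 1) g = SSQ.ind1 A g`.  The degrees: `κ` resp. `ζ` lies
in the fixed field, DGQ.  Totally complex: the fixed field contains `F`.  Unramified, split: restrict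
to `N` (`RB.frob_restrict`, `RB.dec_restrict` or directly).  Dual pair: the images of `θ, θ'`; `x`
lifts to `h₁ ∈ Gal(N'/F)`, and `h₂ ∈ Gal(N'/N)` with `h₁ h₂` fixing `ζ` and `κ` (BCF), so
`h₁ h₂ ∈ A 2 ⊆ A r` lies above `x`; in the same way `A r → Gal(N/F)` is onto, so
`orderOf (liftChar (A r) (ψA r)) = orderOf ψ`. -/
def Stmt_BCX : Prop :=
  Stmt_BCF → SSQ.Stmt_CYI → SSQ.Stmt_KUI → SSQ.Stmt_TRN → Stmt_UEXT → SSQ.Stmt_IDN →
  SSQ.Stmt_DGQ →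
  ∀ (T : Finset ℕ) (F N : Type) [Field F] [NumberField F] [Field N] [NumberField N]
    [Algebra F N] [IsGalois F N] [IsGalois ℚ N] (ψ : (N ≃ₐ[F] N) →* ℂˣ), GoodChar T ψ →
    ∀ B : ℕ, BaseU T F N ψ B

/-- Stark's assertion for a multiple of `ψ`, all `S`, `φ`. -/
def StarkAllS (σ : ℂ ≃+* ℂ) (F N : Type) [Field F] [NumberField F] [Field N] [NumberField N]
    [Algebra F N] (ψ : (N ≃ₐ[F] N) →* ℂˣ) : Prop :=
  ∀ (S : Finset (HeightOneSpectrum (𝓞 F))) (T' : Set (HeightOneSpectrum (𝓞 N))),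
    aboveSet F N (S : Set (HeightOneSpectrum (𝓞 F))) = T' →
    ∀ (φ : XQ N T' ≃ₗ[ℚ] QU N T') (Θ : XC N T' →ₗ[ℂ] XC N T'), IsPhiTheta F T' φ Θ →
    ∃ M : ℕ, 0 < M ∧ StarkMulAt M (S : Set (HeightOneSpectrum (𝓞 F))) T' Θ
      (linRep ψ) (linRep (twist σ ψ)) σ

/-- SBC (Stark's assertion and the base change).  For `S, T', φ, Θ` at `(F, N)` take `φ', Θ'` at
`(F, N')` by `ALLT.infl F N N' S φ Θ hφ`; `ρ = linRep (ψ ∘ res)`; by
`ALLT.indp_all (fun M => 0 < M) one_pos (fun a b ha hb => Nat.mul_pos ha hb) F N' S φ' Θ' ℂ ℂ ρ ρ' σ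
(q - 1) 3 A ψA k` with `k = ![q - 1, 1, -1]`: `(q - 1) ψ(g|N) = ∑ k r indFun (A r) (extZ (ψA r)) g`
(`extZ (ψA r) = ψ ∘ res` on `A r`, a class function factors out of `indFun`:
`indFun (A r) (extZ (ψA r)) g = ψ(g|N) indFun (A r) 1 g`, as `CMB.indFun_class`).  Then go down from
`N'` to `N` as at the end of `CNMAIN.starkQn` (`MAIN.logL_infl LINF_thm`, the regulators are equal
by `infl`).  The `S'` for the fixed fields: `IND.exists_S'`, `IND.isPhiTheta_sub`. -/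
def Stmt_SBC : Prop :=
  ∀ (σ : ℂ ≃+* ℂ) (F N N' : Type) [Field F] [NumberField F] [Field N] [NumberField N]
    [Field N'] [NumberField N'] [Algebra F N] [Algebra N N'] [Algebra F N'] [IsScalarTower F N N']
    [IsGalois F N] [IsGalois F N'] (ψ : (N ≃ₐ[F] N) →* ℂˣ) (q : ℕ)
    (A : Fin 3 → Subgroup (N' ≃ₐ[F] N')) (ψA : ∀ r, A r →* ℂˣ), 2 ≤ q →
    (∀ r (h : A r) (g : N ≃ₐ[F] N),
      (∀ z : N, (h : N' ≃ₐ[F] N') (algebraMap N N' z) = algebraMap N N' (g z)) →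
      ψA r h = ψ g) →
    (∀ g : N' ≃ₐ[F] N', (q - 1 : ℂ) * indFun (A 0) (fun _ => 1) g +
      indFun (A 1) (fun _ => 1) g - indFun (A 2) (fun _ => 1) g = (q - 1 : ℂ)) →
    (∀ r, StarkAllS σ (IntermediateField.fixedField (A r)) N' (liftChar (A r) (ψA r))) →
    StarkAllS σ F N ψ

/-- FUP.  From faithful characters of `Gal(L/F)` to `N` and all `S`: every `ψ` with the same kernel
as the `ψ'` of FLD.  Here `(L, ψ₁)` is the output of FLD for `ψ` itself, so this is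
`CNMAIN.up F L N σ ψ' ..` applied to `StarkRat1`; the hypothesis is the printable
`StarkW.StarkFaithful n σ F L` (`StarkVB.starkRat_iff` in `StarkU/PBridgeV.lean`); `ψ' ^ n = 1` from
`ψ ^ n = 1` (restriction is onto). -/
def Stmt_FUP : Prop :=
  ∀ (n : ℕ) (σ : ℂ ≃+* ℂ) (F L N : Type) [Field F] [NumberField F] [Field L] [NumberField L]
    [Field N] [NumberField N] [Algebra F L] [Algebra F N] [Algebra L N] [IsScalarTower F L N]
    [IsGalois F L] [IsGalois F N] (ψ' : (L ≃ₐ[F] L) →* ℂˣ) (ψ : (N ≃ₐ[F] N) →* ℂˣ),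
    Function.Injective ψ' →
    (∀ g : N ≃ₐ[F] N, ψ' (AlgEquiv.restrictNormalHom L g : L ≃ₐ[F] L) = ψ g) → ψ ^ n = 1 →
    StarkW.StarkFaithful n σ F L → StarkAllS σ F N ψ

end StarkC
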