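import Pool.Agent.SSQ.StK
import Pool.Agent.StarkAlg.GVal

/-!
# A sparse sequence of extensions with normal integral basis: statements, part V (values)

Project SSQ (MP_46b841_nt).
-/

open NumberField IsDedekindDomain
open scoped TensorProduct Classical

namespace StarkC

/-- A power of the number of `ψ` lies in `G`, all `S`, `φ`. -/
def GAllS (G : Subgroup ℂˣ) (F N : Type) [Field F] [NumberField F] [Field N] [NumberField N]
    [Algebra F N] (ψ : (N ≃ₐ[F] N) →* ℂˣ) : Prop :=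
  ∀ (S : Finset (HeightOneSpectrum (𝓞 F))) (T' : Set (HeightOneSpectrum (𝓞 N))),
    aboveSet F N (S : Set (HeightOneSpectrum (𝓞 F))) = T' →
    ∀ (φ : XQ N T' ≃ₗ[ℚ] QU N T') (Θ : XC N T' →ₗ[ℂ] XC N T'), IsPhiTheta F T' φ Θ →
    ∃ M : ℕ, 0 < M ∧ StarkG.GMul G M (S : Set (HeightOneSpectrum (𝓞 F))) T' Θ (linRep ψ)

/-- SBCG (SBC for values).  As SBC with `StarkG.gind` (in `StarkAlg/GCore.lean`) in place of
`ALLT.indp_all`; the descent from `N'` to `N` is at the end of `StarkG.ratQ` (`StarkAlg/GMain.lean`).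
-/
def Stmt_SBCG : Prop :=
  ∀ (G : Subgroup ℂˣ) (F N N' : Type) [Field F] [NumberField F] [Field N] [NumberField N]
    [Field N'] [NumberField N'] [Algebra F N] [Algebra N N'] [Algebra F N'] [IsScalarTower F N N']
    [IsGalois F N] [IsGalois F N'] (ψ : (N ≃ₐ[F] N) →* ℂˣ) (q : ℕ)
    (A : Fin 3 → Subgroup (N' ≃ₐ[F] N')) (ψA : ∀ r, A r →* ℂˣ), 2 ≤ q →
    (∀ r (h : A r) (g : N ≃ₐ[F] N),
      (∀ z : N, (h : N' ≃ₐ[F] N') (algebraMap N N' z) = algebraMap N N' (g z)) →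
      ψA r h = ψ g) →
    (∀ g : N' ≃ₐ[F] N', (q - 1 : ℂ) * indFun (A 0) (fun _ => 1) g +
      indFun (A 1) (fun _ => 1) g - indFun (A 2) (fun _ => 1) g = (q - 1 : ℂ)) →
    (∀ r, GAllS G (IntermediateField.fixedField (A r)) N' (liftChar (A r) (ψA r))) →
    GAllS G F N ψ

end StarkC
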