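import Pool.Agent.SSQ.FINAL

/-!
# One sequence for all finite sets of primes; every tail suffices

Project SSQ (MP_46b841_nt).
-/

open NumberField IsDedekindDomain
open scoped TensorProduct Classical

namespace StarkC.SSQM

/-! ### Countability -/

theorem countable_span {M : Type} [AddCommGroup M] [Module ℚ M] {s : Set M} (hs : s.Countable) :
    Countable (Submodule.span ℚ s) := by
  have : Countable s := hs
  have h1 : (Set.range (Finsupp.linearCombination ℚ ((↑) : s → M))).Countable :=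
    Set.countable_range _
  have h2 : ((Submodule.span ℚ s : Submodule ℚ M) : Set M) =
      Set.range (Finsupp.linearCombination ℚ ((↑) : s → M)) := by
    rw [Finsupp.span_eq_range_linearCombination]
    rfl
  rw [← h2] at h1
  exact h1

theorem countable_spanQ (G : Type) [Group G] [Fintype G] :
    Countable {χ : G → ℂ // χ ∈ SpanQ (G := G) (fun _ _ => True)} := by
  refine countable_span ?_
  have h1 : ∀ H : Subgroup G, Countable (H →* ℂˣ) := fun H => countable_hom H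
  refine (Set.countable_range (fun p : Σ H : Subgroup G, (H →* ℂˣ) =>
    indFun p.1 (extZ p.2))).mono ?_
  rintro f ⟨H, ψ, -, rfl⟩
  exact ⟨⟨H, ψ⟩, rfl⟩

theorem finite_hom (G : Type) [Group G] [Finite G] : Finite (G →* ℂˣ) := by
  have : NeZero (Nat.card G) := ⟨Nat.card_pos.ne'⟩
  have hf : ∀ (ψ : G →* ℂˣ) (g : G), ψ g ∈ rootsOfUnity (Nat.card G) ℂ := fun ψ g => by
    rw [mem_rootsOfUnity, ← map_pow, pow_card_eq_one', map_one]
  refine Finite.of_injective (fun (ψ : G →* ℂˣ) (g : G) =>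
    (⟨ψ g, hf ψ g⟩ : rootsOfUnity (Nat.card G) ℂ)) fun a b hab => ?_
  refine MonoidHom.ext fun g => ?_
  exact congrArg Subtype.val (congrFun hab g)

/-! ### Levels -/

/-- A finite Galois extension of `ℚ`. -/
structure Lev where
  N : Type
  [f : Field N]
  [nf : NumberField N]
  [gal : IsGalois ℚ N]

attribute [instance] Lev.f Lev.nf Lev.gal

/-- A level, a number and a class function. -/
abbrev Task (N : ℕ → Type) [∀ k, Field (N k)] [∀ k, NumberField (N k)] : Type :=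
  Σ k : ℕ, ℕ × {χ : (N k ≃ₐ[ℚ] N k) → ℂ // χ ∈ SpanQ (G := N k ≃ₐ[ℚ] N k) (fun _ _ => True)}

theorem task_countable (N : ℕ → Type) [∀ k, Field (N k)] [∀ k, NumberField (N k)] :
    Countable (Task N) := by
  have h1 : ∀ k, Countable {χ : (N k ≃ₐ[ℚ] N k) → ℂ //
      χ ∈ SpanQ (G := N k ≃ₐ[ℚ] N k) (fun _ _ => True)} := fun k => countable_spanQ _
  infer_instance

/-- One stage. -/
theorem stage (h : SSQIn) (N : ℕ → Type) [∀ k, Field (N k)] [∀ k, NumberField (N k)]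
    [∀ k, IsGalois ℚ (N k)] (T : Finset ℕ) (t : Task N) :
    ∃ (M : Lev) (_ : Algebra (N t.1) M.N), 0 < t.2.1 → (∀ g, t.2.2.1 g ∈ Cyc t.2.1) →
      (fun g : M.N ≃ₐ[ℚ] M.N => t.2.2.1 (AlgEquiv.restrictNormalHom (N t.1) g)) ∈
        SpanQ (G := M.N ≃ₐ[ℚ] M.N) (fun H ψ => TypeU T t.2.1 H ψ ∨ TypeBn t.2.1 H ψ) := by
  by_cases hc : 0 < t.2.1 ∧ ∀ g, t.2.2.1 g ∈ Cyc t.2.1
  · obtain ⟨N₁, _, _, aN, _, hN⟩ := h.dec ALLV.ualgn h.nib UART_thm UINFL_thm h.cyci h.cja h.tar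
      (N t.1) T t.2.1 hc.1 t.2.2.1 t.2.2.2 hc.2
    exact ⟨⟨N₁⟩, aN, fun _ _ => hN⟩
  · exact ⟨⟨N t.1⟩, Algebra.id _, fun h1 h2 => absurd ⟨h1, h2⟩ hc⟩

/-- The pairs of a stage and a default. -/
abbrev Fam (T : Finset ℕ) (n : ℕ) (M : Lev) : Type :=
  Option {p : Σ H : Subgroup (M.N ≃ₐ[ℚ] M.N), (H →* ℂˣ) // TypeU T n p.1 p.2}

theorem fam_finite (T : Finset ℕ) (n : ℕ) (M : Lev) : Finite (Fam T n M) := by
  have h1 : ∀ H : Subgroup (M.N ≃ₐ[ℚ] M.N), Finite (H →* ℂˣ) := fun H => finite_hom H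
  infer_instance

/-- The three extensions of a member of a family. -/
theorem outF (h : SSQIn) (N : ℕ → Type) [∀ k, Field (N k)] [∀ k, NumberField (N k)]
    [∀ k, IsGalois ℚ (N k)]
    (hcof : ∀ (M : Type) [Field M] [NumberField M], ∃ k, Nonempty (M →+* N k))
    (T : Finset ℕ) (n : ℕ) (M : Lev) (x : Fam T n M) (B : ℕ) :
    ∃ X : Fin 3 → Ext,
      (∀ r, StarkW.GoodPair T (X r).K (X r).L ∧ B ≤ Module.finrank ℚ (X r).K) ∧
      (∀ p, x = some p → ∀ σ : ℂ ≃+* ℂ, (∀ r, StarkW.StarkFaithful n σ (X r).K (X r).L) →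
        StarkAllS σ (IntermediateField.fixedField p.1.1) M.N (liftChar p.1.1 p.1.2)) ∧
      ∀ p, x = some p → ∀ G : Subgroup ℂˣ, StarkG.Full n G →
        (∀ r, Fai G n (X r).K (X r).L) →
        GAllS G (IntermediateField.fixedField p.1.1) M.N (liftChar p.1.1 p.1.2) := by
  cases x with
  | none =>
    obtain ⟨i⟩ := ix_nonempty T N hcof
    obtain ⟨X, hX, -, -⟩ := out' h T N i B
    exact ⟨X, hX, fun p hp => by simp at hp, fun p hp => by simp at hp⟩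
  | some p =>
    obtain ⟨X, hX, h1, h2⟩ := out h T M.N p.1.1 p.1.2 p.2.1 p.2.2.2 B
    refine ⟨X, hX, fun q hq σ hf => ?_, fun q hq G hG hf => ?_⟩
    · obtain rfl := Option.some.inj hq
      exact h1 n σ p.2.2.1 hf
    · obtain rfl := Option.some.inj hq
      exact h2 n G hG p.2.2.1 hf

/-! ### The reduction over `ℚ`, from any choice of the levels -/

/-- The input of the reduction: for every class function a level. -/
def LevIn (n : ℕ) (P : ∀ (M : Type) [Field M] [NumberField M] [IsGalois ℚ M]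
    (H : Subgroup (M ≃ₐ[ℚ] M)) (_ : H →* ℂˣ), Prop) : Prop :=
  ∀ (L : Type) [Field L] [NumberField L] [IsGalois ℚ L] (χ : (L ≃ₐ[ℚ] L) → ℂ),
    χ ∈ SpanQ (G := L ≃ₐ[ℚ] L) (fun _ _ => True) → (∀ g, χ g ∈ Cyc n) →
    ∃ (M : Type) (_ : Field M) (_ : NumberField M) (_ : Algebra L M) (_ : IsGalois ℚ M),
      (fun g : M ≃ₐ[ℚ] M => χ (AlgEquiv.restrictNormalHom L g)) ∈
        SpanQ (G := M ≃ₐ[ℚ] M) (fun H ψ => P M H ψ ∨ TypeBn n H ψ)

theorem starkQn_of (n : ℕ) (σ : ℂ ≃+* ℂ)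
    (hA : LevIn n (fun M _ _ _ H ψ =>
      StarkAllS σ (IntermediateField.fixedField H) M (liftChar H ψ)))
    (hB : ∀ (K L : Type) [Field K] [NumberField K] [Field L] [NumberField L] [Algebra K L]
      [IsGalois K L], ClassBn n σ K L) : StarkQn n σ := by
  intro L _ _ _ S φ Θ V V' _ _ _ _ _ _ ρ ρ' hφ hσ hval
  obtain ⟨N, _, _, aLN, _, hN⟩ := hA L ρ.character (CMAIN.character_mem V ρ) hval
  obtain ⟨M, hM, hGS⟩ := CMAIN.clear hN
  obtain ⟨m, H, ψ, k, hP, hsum⟩ := CMB.of_mem_GS hGS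
  obtain ⟨φ', Θ', hφ', hR⟩ := ALLT.infl ℚ L N S φ Θ hφ
  have h3 : ∃ M' : ℕ, 0 < M' ∧ StarkMulAt M' (S : Set (HeightOneSpectrum (𝓞 ℚ)))
      (aboveSet ℚ N S) Θ' (ρ.comp (AlgEquiv.restrictNormalHom L) :
        Representation ℂ (N ≃ₐ[ℚ] N) V) (ρ'.comp (AlgEquiv.restrictNormalHom L) :
        Representation ℂ (N ≃ₐ[ℚ] N) V') σ := by
    refine ALLT.indp_all (fun M => 0 < M) one_pos (fun a b ha hb => Nat.mul_pos ha hb) ℚ N S
      φ' Θ' V V' (ρ.comp (AlgEquiv.restrictNormalHom L)) (ρ'.comp (AlgEquiv.restrictNormalHom L))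
      σ M m H ψ k hM hφ' (fun g => hσ _) hsum (fun i => ?_)
    obtain ⟨S', hS'⟩ := IND.exists_S' (IntermediateField.fixedField (H i))
      (S : Set (HeightOneSpectrum (𝓞 ℚ))) S.finite_toSet
    have hφ2 := IND.isPhiTheta_sub (IntermediateField.fixedField (H i)) hφ'
    have hlin : ∃ Mi : ℕ, 0 < Mi ∧ StarkMulAt Mi
        (S' : Set (HeightOneSpectrum (𝓞 (IntermediateField.fixedField (H i)))))
        (aboveSet ℚ N S) Θ' (linRep (liftChar (H i) (ψ i)))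
        (linRep (twist σ (liftChar (H i) (ψ i)))) σ := by
      rcases hP i with hU | ⟨hB', hval'⟩
      · exact hU S' _ hS' φ' Θ' hφ2
      · refine CNMAIN.ofB n σ hB
          (IntermediateField.fixedField (H i)) N (liftChar (H i) (ψ i)) (fun g => hval' _)
          (CMAIN.totallyReal (H i) fun c hc => (hB' c hc).1) ?_ S' _ hS' φ' Θ' hφ2
        intro Φ c hc
        obtain ⟨h1, h2⟩ := hB' _ ⟨Φ, GOOD.isConj_symm (H i) c Φ hc⟩
        exact h2
    obtain ⟨Mi, hMi, hst⟩ := hlin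
    exact ⟨Mi, S', hMi, hS', hst⟩
  obtain ⟨M', hM', f, f', hf, hf', hE⟩ := h3
  refine ⟨M', hM', f, f', ⟨hf.1, fun s hs => ?_⟩, ⟨hf'.1, fun s hs => ?_⟩, ?_⟩
  · rw [hf.2 s hs, MAIN.logL_infl LINF_thm]
  · rw [hf'.2 s hs, MAIN.logL_infl LINF_thm]
  · rw [hR V ρ, hR V' ρ'] at hE
    exact hE

theorem ratQ_of {n : ℕ} {G : Subgroup ℂˣ} (hG : StarkG.Full n G)
    (hA : LevIn n (fun M _ _ _ H ψ =>
      GAllS G (IntermediateField.fixedField H) M (liftChar H ψ)))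
    (hB : ∀ (K L : Type) [Field K] [NumberField K] [Field L] [NumberField L] [Algebra K L]
      [IsGalois K L], StarkG.ClsB G n K L) : StarkG.RatQ G n := by
  intro L _ _ _ S φ Θ V _ _ _ ρ hφ hval
  obtain ⟨N, _, _, aLN, _, hN⟩ := hA L ρ.character (CMAIN.character_mem V ρ) hval
  obtain ⟨M, hM, hGS⟩ := CMAIN.clear hN
  obtain ⟨m, H, ψ, k, hP, hsum⟩ := CMB.of_mem_GS hGS
  obtain ⟨φ', Θ', hφ', hR⟩ := ALLT.infl ℚ L N S φ Θ hφ
  have h3 : ∃ M' : ℕ, 0 < M' ∧ StarkG.GMul G M' (S : Set (HeightOneSpectrum (𝓞 ℚ)))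
      (aboveSet ℚ N S) Θ' (ρ.comp (AlgEquiv.restrictNormalHom L) :
        Representation ℂ (N ≃ₐ[ℚ] N) V) := by
    refine StarkG.gind G ℚ N S φ' Θ' V (ρ.comp (AlgEquiv.restrictNormalHom L)) M
      m H ψ k hM hφ' hsum (fun i => ?_)
    obtain ⟨S', hS'⟩ := IND.exists_S' (IntermediateField.fixedField (H i))
      (S : Set (HeightOneSpectrum (𝓞 ℚ))) S.finite_toSet
    have hφ2 := IND.isPhiTheta_sub (IntermediateField.fixedField (H i)) hφ'
    have hlin : ∃ Mi : ℕ, 0 < Mi ∧ StarkG.GMul G Mi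
        (S' : Set (HeightOneSpectrum (𝓞 (IntermediateField.fixedField (H i)))))
        (aboveSet ℚ N S) Θ' (linRep (liftChar (H i) (ψ i))) := by
      rcases hP i with hU | ⟨hB', hval'⟩
      · exact hU S' _ hS' φ' Θ' hφ2
      · refine StarkG.ofB hG hB
          (IntermediateField.fixedField (H i)) N (liftChar (H i) (ψ i)) (fun g => hval' _)
          (CMAIN.totallyReal (H i) fun c hc => (hB' c hc).1) ?_ S' _ hS' φ' Θ' hφ2
        intro Φ c hc
        obtain ⟨h1, h2⟩ := hB' _ ⟨Φ, GOOD.isConj_symm (H i) c Φ hc⟩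
        exact h2
    obtain ⟨Mi, hMi, hst⟩ := hlin
    exact ⟨Mi, S', hMi, hS', hst⟩
  obtain ⟨M', hM', f, hf, hE⟩ := h3
  refine ⟨M', hM', f, ⟨hf.1, fun s hs => ?_⟩, ?_⟩
  · rw [hf.2 s hs, MAIN.logL_infl LINF_thm]
  · rw [hR V ρ] at hE
    exact hE

/-! ### The sequence -/

theorem goodPair_mono {T T' : Finset ℕ} (hT : T' ⊆ T) {K L : Type} [Field K] [NumberField K]
    [Field L] [NumberField L] [Algebra K L] (h : StarkW.GoodPair T K L) :
    StarkW.GoodPair T' K L :=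
  ⟨h.totallyComplex, h.cyclic, h.unramified,
    fun w ⟨p, hp, hpp, hpw⟩ => h.split w ⟨p, hT hp, hpp, hpw⟩, h.basis⟩

theorem spanQ_true {G : Type} [Group G] [Fintype G] {P : ∀ H : Subgroup G, (H →* ℂˣ) → Prop}
    {f : G → ℂ} (h : f ∈ SpanQ (G := G) P) : f ∈ SpanQ (G := G) (fun _ _ => True) := by
  refine Submodule.span_mono ?_ h
  rintro f ⟨H, ψ, -, rfl⟩
  exact ⟨H, ψ, trivial, rfl⟩

/-- A finite level above `L` with the given task. -/
theorem levIn_of (n : ℕ) (N : ℕ → Type) [∀ k, Field (N k)]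
    [∀ k, NumberField (N k)] [∀ k, IsGalois ℚ (N k)]
    (hcof : ∀ (M : Type) [Field M] [NumberField M], ∃ k, Nonempty (M →+* N k))
    (P : ∀ (M : Type) [Field M] [NumberField M] [IsGalois ℚ M]
      (H : Subgroup (M ≃ₐ[ℚ] M)) (_ : H →* ℂˣ), Prop)
    (hP : ∀ t : Task N, t.2.1 = n → (∀ g, t.2.2.1 g ∈ Cyc t.2.1) →
      ∃ (M : Lev) (_ : Algebra (N t.1) M.N),
        (fun g : M.N ≃ₐ[ℚ] M.N => t.2.2.1 (AlgEquiv.restrictNormalHom (N t.1) g)) ∈
          SpanQ (G := M.N ≃ₐ[ℚ] M.N) (fun H ψ => P M.N H ψ ∨ TypeBn n H ψ)) : LevIn n P := by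
  intro L _ _ _ χ hχ hval
  obtain ⟨k, ⟨ι⟩⟩ := hcof L
  let aLN : Algebra L (N k) := ι.toAlgebra
  have h1 : (fun g : N k ≃ₐ[ℚ] N k => χ (AlgEquiv.restrictNormalHom L g)) ∈
      SpanQ (G := N k ≃ₐ[ℚ] N k) (fun _ _ => True) :=
    spanQ_true (UINFL_thm (N k ≃ₐ[ℚ] N k) (L ≃ₐ[ℚ] L) (AlgEquiv.restrictNormalHom L) χ
      (fun _ _ => True) (AlgEquiv.restrictNormalHom_surjective (F := ℚ) (K₁ := L) (N k)) hχ)
  obtain ⟨M, aM, hM⟩ := hP ⟨k, n, ⟨_, h1⟩⟩ rfl (fun g => hval _)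
  let aLM : Algebra L M.N := ((algebraMap (N k) M.N).comp (algebraMap L (N k))).toAlgebra
  have tLM : IsScalarTower L (N k) M.N := IsScalarTower.of_algebraMap_eq fun x => rfl
  refine ⟨M.N, M.f, M.nf, aLM, M.gal, ?_⟩
  have hres : (fun g : M.N ≃ₐ[ℚ] M.N => χ (AlgEquiv.restrictNormalHom L g)) =
      fun g : M.N ≃ₐ[ℚ] M.N => χ (AlgEquiv.restrictNormalHom L
        (AlgEquiv.restrictNormalHom (N k) g : N k ≃ₐ[ℚ] N k)) := by
    funext g
    rw [UALG.res12 (N₁ := L)]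
  rw [hres]
  exact hM

/-- The sequence of extensions; every tail suffices. -/
theorem tail (h : SSQIn) (F : ℕ → ℕ) (N : ℕ → Type) [∀ k, Field (N k)]
    [∀ k, NumberField (N k)] [∀ k, IsGalois ℚ (N k)]
    (hcof : ∀ (M : Type) [Field M] [NumberField M], ∃ k, Nonempty (M →+* N k)) :
    ∃ Y : ℕ → Ext,
      (∀ j, StarkW.GoodPair ∅ (Y j).K (Y j).L ∧ F j ≤ Module.finrank ℚ (Y j).K) ∧
      (∀ T : Finset ℕ, ∃ J : ℕ, ∀ j, J ≤ j → StarkW.GoodPair T (Y j).K (Y j).L) ∧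
      (∀ (J n : ℕ) (σ : ℂ ≃+* ℂ), 0 < n →
        (∀ j, J ≤ j → StarkW.StarkFaithful n σ (Y j).K (Y j).L) →
        LevIn n (fun M _ _ _ H ψ =>
          StarkAllS σ (IntermediateField.fixedField H) M (liftChar H ψ))) ∧
      ∀ (J n : ℕ) (G : Subgroup ℂˣ), 0 < n → StarkG.Full n G →
        (∀ j, J ≤ j → Fai G n (Y j).K (Y j).L) →
        LevIn n (fun M _ _ _ H ψ =>
          GAllS G (IntermediateField.fixedField H) M (liftChar H ψ)) := by
  -- the tasks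
  have hct := task_countable N
  have hne : Nonempty (Task N) := ⟨⟨0, 0, ⟨0, Submodule.zero_mem _⟩⟩⟩
  obtain ⟨tk, htk⟩ := exists_surjective_nat (ℕ × Task N)
  let T : ℕ → Finset ℕ := fun s => Finset.range s
  choose M aM hM using fun s : ℕ => stage h N (T s) (tk s).2
  -- the index set
  let I : Type := Σ s : ℕ, Fam (T s) (tk s).2.2.1 (M s)
  have hfin : ∀ s, Finite (Fam (T s) (tk s).2.2.1 (M s)) := fun s => fam_finite _ _ _
  have hI1 : Countable I := by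
    have : ∀ s, Countable (Fam (T s) (tk s).2.2.1 (M s)) := fun s => Finite.to_countable
    infer_instance
  have hI2 : Infinite I := Infinite.of_injective (fun s : ℕ => (⟨s, none⟩ : I))
    fun a b hab => congrArg Sigma.fst hab
  obtain ⟨hden⟩ := nonempty_denumerable I
  let e : I ≃ ℕ := Denumerable.eqv I
  -- stages are finite
  have hst : ∀ s, {i : I | i.1 ≤ s}.Finite := by
    intro s
    have h1 : {i : I | i.1 ≤ s} ⊆ ⋃ t ∈ Finset.range (s + 1), Set.range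
        (fun x : Fam (T t) (tk t).2.2.1 (M t) => (⟨t, x⟩ : I)) := by
      rintro ⟨t, x⟩ hx
      simp only [Set.mem_ofPred_eq] at hx
      simp only [Finset.mem_range, Set.mem_iUnion]
      exact ⟨t, by omega, ⟨x, rfl⟩⟩
    refine Set.Finite.subset (Set.Finite.biUnion (Finset.finite_toSet _) fun t _ => ?_) h1
    exact Set.finite_range _
  choose X hX1 hX2 hX3 using fun i : I => outF h N hcof (T i.1)
    (tk i.1).2.2.1 (M i.1) i.2 (F (3 * e i) + F (3 * e i + 1) + F (3 * e i + 2))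
  have key : ∀ (P : Ext → Prop) (J : ℕ),
      (∀ j : ℕ, J ≤ j → P (X (e.symm (j / 3)) ⟨j % 3, Nat.mod_lt _ (by norm_num)⟩)) →
      ∀ (i : I) (r : Fin 3), J ≤ 3 * e i → P (X i r) := by
    intro P J hP i r hm
    have h1 := hP (3 * e i + r) (by omega)
    have h2 : (3 * e i + (r : ℕ)) / 3 = e i := by omega
    have h3 : (⟨(3 * e i + (r : ℕ)) % 3, Nat.mod_lt _ (by norm_num)⟩ : Fin 3) = r :=
      Fin.ext (by simp only; omega)
    rw [h2, h3, Equiv.symm_apply_apply] at h1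
    exact h1
  -- for every task and every bound there is a late stage
  have late : ∀ (t : Task N) (J : ℕ), ∃ s, (tk s).2 = t ∧ ∀ x : Fam (T s) (tk s).2.2.1 (M s),
      J ≤ 3 * e ⟨s, x⟩ := by
    intro t J
    have h1 : {s : ℕ | (tk s).2 = t}.Infinite := by
      refine Set.infinite_of_injective_forall_mem (f := fun a : ℕ => (htk (a, t)).choose) ?_ ?_
      · intro a b hab
        have h2 := (htk (a, t)).choose_spec
        have h3 := (htk (b, t)).choose_spec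
        simp only at hab
        rw [hab] at h2
        exact congrArg Prod.fst (h2.symm.trans h3)
      · intro a
        show (tk _).2 = t
        rw [(htk (a, t)).choose_spec]
    have h2 : ((fun m : ℕ => (e.symm m).1) '' Set.Iio J).Finite :=
      (Set.finite_Iio J).image _
    obtain ⟨s, hs, hs'⟩ := (h1.sdiff h2).nonempty
    refine ⟨s, hs, fun x => ?_⟩
    by_contra hcon
    refine hs' ⟨e ⟨s, x⟩, ?_, ?_⟩
    · show e ⟨s, x⟩ < J
      omega
    · show (e.symm (e ⟨s, x⟩)).1 = s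
      rw [Equiv.symm_apply_apply]
  refine ⟨fun j => X (e.symm (j / 3)) ⟨j % 3, Nat.mod_lt _ (by norm_num)⟩, fun j => ?_,
    fun T' => ?_, fun J n σ hn hf => ?_, fun J n G hn hG hf => ?_⟩
  · obtain ⟨h1, h2⟩ := hX1 (e.symm (j / 3)) ⟨j % 3, Nat.mod_lt _ (by norm_num)⟩
    refine ⟨goodPair_mono (Finset.empty_subset _) h1, le_trans ?_ h2⟩
    rw [Equiv.apply_symm_apply]
    have h3 : j = 3 * (j / 3) ∨ j = 3 * (j / 3) + 1 ∨ j = 3 * (j / 3) + 2 := by omega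
    generalize j / 3 = a at h3
    rcases h3 with h3 | h3 | h3 <;> rw [h3] <;> omega
  · obtain ⟨b, hb⟩ : ∃ b, T' ⊆ Finset.range b := by
      obtain ⟨b, hb⟩ := T'.bddAbove
      exact ⟨b + 1, fun x hx => Finset.mem_range.2 (Nat.lt_succ_of_le (hb hx))⟩
    obtain ⟨J, hJ⟩ := ((hst b).image e).bddAbove
    refine ⟨3 * (J + 1), fun j hj => ?_⟩
    have h1 := (hX1 (e.symm (j / 3)) ⟨j % 3, Nat.mod_lt _ (by norm_num)⟩).1
    refine goodPair_mono ?_ h1
    refine hb.trans (Finset.range_subset_range.2 ?_)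
    by_contra hcon
    have h2 : (e.symm (j / 3)).1 ≤ b := by omega
    have h3 := hJ ⟨e.symm (j / 3), h2, Equiv.apply_symm_apply _ _⟩
    omega
  · refine levIn_of n N hcof _ fun t ht hval => ?_
    obtain ⟨s, hs, hlate⟩ := late t J
    subst hs
    subst ht
    refine ⟨M s, aM s, ?_⟩
    refine Submodule.span_mono ?_ (hM s hn hval)
    rintro f ⟨H, ψ, hU | hB, rfl⟩
    · refine ⟨H, ψ, Or.inl ?_, rfl⟩
      refine hX2 ⟨s, some ⟨⟨H, ψ⟩, hU⟩⟩ ⟨⟨H, ψ⟩, hU⟩ rfl σ fun r => ?_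
      exact key (fun E => StarkW.StarkFaithful _ σ E.K E.L) J hf _ r (hlate _)
    · exact ⟨H, ψ, Or.inr hB, rfl⟩
  · refine levIn_of n N hcof _ fun t ht hval => ?_
    obtain ⟨s, hs, hlate⟩ := late t J
    subst hs
    subst ht
    refine ⟨M s, aM s, ?_⟩
    refine Submodule.span_mono ?_ (hM s hn hval)
    rintro f ⟨H, ψ, hU | hB, rfl⟩
    · refine ⟨H, ψ, Or.inl ?_, rfl⟩
      refine hX3 ⟨s, some ⟨⟨H, ψ⟩, hU⟩⟩ ⟨⟨H, ψ⟩, hU⟩ rfl G hG fun r => ?_
      exact key (fun E => Fai G _ E.K E.L) J hf _ r (hlate _)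
    · exact ⟨H, ψ, Or.inr hB, rfl⟩

/-- One sequence for all `T`, for Stark's conjecture and for the values; every tail suffices. -/
theorem bothTail (h : SSQIn) (F : ℕ → ℕ) :
    ∃ Y : ℕ → Ext,
      (∀ j, StarkW.GoodPair ∅ (Y j).K (Y j).L ∧ F j ≤ Module.finrank ℚ (Y j).K) ∧
      (∀ T : Finset ℕ, ∃ J : ℕ, ∀ j, J ≤ j → StarkW.GoodPair T (Y j).K (Y j).L) ∧
      (∀ (J n : ℕ) (σ : ℂ ≃+* ℂ), 0 < n → (StarkV.StarkCyclotomic n σ ↔
        (∀ j, J ≤ j → StarkW.StarkFaithful n σ (Y j).K (Y j).L) ∧ StarkV.ClassB n σ)) ∧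
      ∀ (J n : ℕ) (G : Subgroup ℂˣ), 0 < n →
        (∀ u : ℂˣ, (u : ℂ) ∈ StarkV.cycField n → u ∈ G) →
        (StarkM.Values G n ↔
          (∀ j, J ≤ j → StarkW.PowInFaithful G n (Y j).K (Y j).L) ∧ StarkM.ValuesB G n) := by
  obtain ⟨N, _, _, hgal, hcof⟩ := h.cof
  obtain ⟨Y, hY1, hYT, hY2, hY3⟩ := tail h F N hcof
  refine ⟨Y, hY1, hYT, fun J n σ hn => ⟨fun hS => ⟨fun j _ ψ _ hψ => ?_,
    fun K L _ _ _ _ _ _ _ ψ _ hψ _ => ?_⟩, ?_⟩,
    fun J n G hn hG => ⟨fun hS => ⟨fun j _ ψ _ hψ => ?_,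
    fun K L _ _ _ _ _ _ _ ψ _ hψ _ => ?_⟩, ?_⟩⟩
  · refine hS (Y j).K (Y j).L ℂ ℂ (StarkP.linRep ψ) (StarkP.linRep (StarkP.twist σ ψ))
      (fun g => ?_) (fun g => ?_) ∅
    · exact (StarkC.MAIN.linRep_character (StarkC.twist σ ψ) g).trans
        (congrArg σ (StarkC.MAIN.linRep_character ψ g)).symm
    · have h1 : (StarkP.linRep ψ).character g = (ψ g : ℂ) := StarkC.MAIN.linRep_character ψ g
      rw [h1]
      exact StarkG.cyc_of_pow ψ hψ g
  · refine hS K L ℂ ℂ (StarkP.linRep ψ) (StarkP.linRep (StarkP.twist σ ψ)) (fun g => ?_)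
      (fun g => ?_) ∅
    · exact (StarkC.MAIN.linRep_character (StarkC.twist σ ψ) g).trans
        (congrArg σ (StarkC.MAIN.linRep_character ψ g)).symm
    · have h1 : (StarkP.linRep ψ).character g = (ψ g : ℂ) := StarkC.MAIN.linRep_character ψ g
      rw [h1]
      exact hψ g
  · rintro ⟨hA, hB⟩
    rw [StarkVB.starkCyclotomic_iff]
    exact CNMAIN.starkKn n hn σ (starkQn_of n σ (hY2 J n σ hn hA)
      ((StarkVB.classB_iff n σ).1 hB))
  · refine hS (Y j).K (Y j).L ℂ (StarkP.linRep ψ) (fun g => ?_) ∅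
    have h1 : (StarkP.linRep ψ).character g = (ψ g : ℂ) := StarkC.MAIN.linRep_character ψ g
    rw [h1]
    exact StarkG.cyc_of_pow ψ hψ g
  · refine hS K L ℂ (StarkP.linRep ψ) (fun g => ?_) ∅
    have h1 : (StarkP.linRep ψ).character g = (ψ g : ℂ) := StarkC.MAIN.linRep_character ψ g
    rw [h1]
    exact hψ g
  · rintro ⟨hA, hB⟩ K L V _ _ _ _ _ _ _ _ _ ρ hval S
    have hF : StarkG.Full n (StarkG.hat G) := StarkG.full_hat hG
    have hK : StarkG.RatK (StarkG.hat G) n := by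
      refine StarkG.ratK hn hF (ratQ_of hF (hY3 J n (StarkG.hat G) hn hF ?_) ?_)
      · intro j hj ψ hψ hψn φ Θ hφ
        obtain ⟨M, hM, h⟩ := (StarkG.powIn_iff G ∅ (StarkP.linRep ψ)).1
          (hA j hj ψ hψ hψn) φ Θ hφ
        exact ⟨M, hM, h.mono (StarkG.le_hat G)⟩
      · intro K L _ _ _ _ _ _ hK ψ hψ hv h1 φ Θ hφ
        obtain ⟨M, hM, h⟩ := (StarkG.powIn_iff G ∅ (StarkP.linRep ψ)).1
          (hB K L hK ψ hψ hv h1) φ Θ hφ
        exact ⟨M, hM, h.mono (StarkG.le_hat G)⟩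
    refine (StarkG.powIn_iff G S ρ).2 fun φ Θ hφ => ?_
    obtain ⟨M, hM, h⟩ := hK K L S φ Θ V ρ hφ hval
    exact h.of_hat hM

end StarkC.SSQM
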